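import Pool.Agent.H62.P3.Lab

/-!
# The affine label over two coordinates from a deficit of the entropy

`p3_lab`: in a zoom with a tube and a record, if `y` has the deficit `Y` and `u`, `z` have the
deficit `E` behind `y`, there is an affine label of `z` over `y`, `u` of the precision which is
expected from the numbers, for arbitrarily small windows.
-/

set_option autoImplicit false

namespace Pool.P62

open Finset MvPolynomial
open Pool.Agent.H49.Ent Pool.Agent.H32.Dense Pool.STK Pool.KA Pool.KSAT Pool.K2S Pool.PB Pool.GEN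
open Pool.S6C Pool.REX Pool.MIC6 Pool.REX83 Pool.OWN43
open Pool.FLF (Fam.sub)
open Pool.GRD (LbP)

variable {m : ℕ}

/-- The window of a point between two reals outside of a countable set. -/
theorem win_in {D : Set ℝ} (hD : D.Countable) {a b : ℝ} (hab : a < b) :
    ∃ w : ℝ, a < w ∧ w < b ∧ w ∉ D := by
  obtain ⟨w, h1, h2⟩ := (hD.dense_compl ℝ).exists_mem_open isOpen_Ioo
    (Set.nonempty_Ioo.mpr hab)
  exact ⟨w, h2.1, h2.2, h1⟩

/-- The discontinuities of the numbers at the windows of the zooms. -/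
theorem cnt_tm {S : PCl m} {L : Finset (Fin m) → Fin m → ℝ → ℝ → ℝ} (hL : LamW S L) (v : Vz m)
    (I : Finset (Fin m)) (k : Fin m) :
    {w : ℝ | ¬ ContinuousAt (fun W => L I k W 0) (v.tm w)}.Countable := by
  have hb1 := v.b1
  have hp1 := v.p1
  have hc : 0 < (1 - v.b) * (1 - v.p) := mul_pos (by linarith) (by linarith)
  have h1 : {W : ℝ | ¬ ContinuousAt (fun W => L I k W 0) W}.Countable := by
    refine Monotone.countable_not_continuousAt fun a b hab => ?_
    exact hL.mono _ _ _ _ _ _ _ (Finset.Subset.refl _) hab le_rfl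
  have h2 := h1.preimage (f := fun w : ℝ => v.tm w) (fun a b hab => by
    have e1 : v.b + (1 - v.b) * (1 - v.p) * a = v.b + (1 - v.b) * (1 - v.p) * b := hab
    exact mul_left_cancel₀ hc.ne' (add_left_cancel e1))
  exact h2

theorem inj_three {y u z : Fin m} (hyu : y ≠ u) (hyz : y ≠ z) (huz : u ≠ z) :
    Function.Injective (![y, u, z] : Fin 3 → Fin m) := by
  intro i j hij
  fin_cases i <;> fin_cases j <;> simp_all

/-- **The affine label over two coordinates from a deficit of the entropy.** -/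
theorem p3_lab {S : PCl m} (hne : S.Ne) {C₀ : ℝ} (hC₀ : 0 ≤ C₀) (htm : TmC S C₀)
    {L : Finset (Fin m) → Fin m → ℝ → ℝ → ℝ} (hL : LamW S L) {y u z : Fin m} (hact : ActF S y)
    (hyu : y ≠ u) (hyz : y ≠ z) (huz : u ≠ z) (v : Vz m) {p : ℝ} (hp0 : 0 ≤ p) (hp1 : p < 1)
    {L₃ : Finset (Fin 3) → Fin 3 → ℝ → ℝ → ℝ} (h : RDt S v ![y, u, z] p 0 L₃)
    (hact₃ : ActZ S (atp v p hp0 hp1) ![y, u, z] 0)
    (hact₁ : ActZ S (atp v p hp0 hp1) (id : Fin m → Fin m) y)
    {L₁ : Finset (Fin m) → Fin m → ℝ → ℝ → ℝ}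
    (hL₁ : LamW (RecV S (atp v p hp0 hp1) (id : Fin m → Fin m)) L₁) {Y E : ℝ}
    (hy : ∀ ρ : ℝ, 0 < ρ → Bas S (fun J F A => CH (Pool.Agent.H49.Ent.cond F.p A True)
      (fun ω => F.X J ω y) (fun ω => (v.y J F ω, F.W ω)) ≤ (1 - Y + ρ) * Real.log 2 * J))
    (huv : Bas S (fun J F A => CH (Pool.Agent.H49.Ent.cond F.p A True)
      (fun ω => (F.X J ω u, F.X J ω z))
      (fun ω => (F.X J ω y, (v.y J F ω, F.W ω))) ≤ (2 - E) * Real.log 2 * J))
    {U₁ x t₁ a₀ a a₀' a' : ℝ} (hx : 0 < x) (ht₁ : v.b < t₁)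
    (hU : ∀ t : ℝ, v.b < t → t < t₁ → L {y} u t 0 ≤ U₁)
    (hUu : ∀ t : ℝ, v.b < t → t < t₁ → U₁ - x / 16 ≤ L {y} u t 0)
    (hUz : ∀ t : ℝ, v.b < t → t < t₁ → U₁ - x / 16 ≤ L {y} z t 0) (hbU : v.b + 8 * x ≤ U₁)
    (ha0 : 0 ≤ a₀) (ha : a₀ < a) (ha1 : a < 1)
    (hdeep : U₁ - v.b + (1 - v.b) * p + x ≤ L {y} u a₀ a₀ - a)
    (ha0' : 0 ≤ a₀') (ha' : a₀' < a') (ha1' : a' < 1)
    (hdeep' : U₁ - v.b + (1 - v.b) * p + x ≤ L {y} z a₀' a₀' - a')
    (hU1 : U₁ + (1 - v.b) * p + x ≤ 1) {w₁ : ℝ} (hw₁ : 0 < w₁) {D : Set ℝ} (hD : D.Countable) :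
    ∃ w : ℝ, 0 < w ∧ w < w₁ ∧ w < 1 ∧ w ∉ D ∧
      Bas S (fun J F A => ∀ hP : (atp v p hp0 hp1).P J ≤ J - (atp v p hp0 hp1).B J,
        ∃ B : F.Ω → Prop, Sub B A ∧ Pe F.p A ≤ 2560 * Pe F.p B ∧
          ∃ (V : Type) (zp : PtT (zmV F hP ((atp v p hp0 hp1).y J F) (id : Fin m → Fin m)) → V)
            (zs : LnT (zmV F hP ((atp v p hp0 hp1).y J F) (id : Fin m → Fin m)) → V)
            (cf : V → Fin 4 → ℝ),
            AfCn F hP ((atp v p hp0 hp1).y J F) (id : Fin m → Fin m) y u z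
              (⌊w * (atp v p hp0 hp1).R J⌋₊ + 2) (⌊w * (atp v p hp0 hp1).R J⌋₊ +
                ⌊(Y + E - (v.b + (1 - v.b) * p) - (U₁ + (1 - v.b) * p) - x - (1 - v.b) * p -
                  (atp v p hp0 hp1).tm w) * J⌋₊) ⌊x * J⌋₊ B zp zs cf ∧
            ∀ ω, B ω → |cf (zs (slam (zmV F hP ((atp v p hp0 hp1).y J F)
              (id : Fin m → Fin m)) (⌊w * (atp v p hp0 hp1).R J⌋₊ + 2) ω)) 2| ≤ 2 ^ ⌊x * J⌋₊) := by
  classical
  have hb := v.b0
  have hb1 := v.b1
  obtain ⟨V', hV'⟩ : ∃ V', V' = atp v p hp0 hp1 := ⟨_, rfl⟩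
  have hVb : V'.b = v.b := by rw [hV']; rfl
  have hVp : V'.p = p := by rw [hV']; rfl
  obtain ⟨P, hP⟩ : ∃ P, P = (1 - v.b) * p := ⟨_, rfl⟩
  have hP' : V'.p * (1 - V'.b) = P := by rw [hVb, hVp, hP]; ring
  obtain ⟨c, hc⟩ : ∃ c, c = (1 - v.b) * (1 - p) := ⟨_, rfl⟩
  have hc0 : 0 < c := by rw [hc]; exact mul_pos (by linarith only [hb1]) (by linarith only [hp1])
  have hP0 : 0 ≤ P := by rw [hP]; exact mul_nonneg (by linarith only [hb1]) hp0
  have htm' : ∀ t, V'.tm t = v.b + c * t := fun t => by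
    rw [hc, hV']
    rfl
  have hsc' : ∀ t, V'.sc t = v.b + P + c * t := fun t => by
    rw [hc, hP, hV']
    show v.b + (1 - v.b) * (p + (1 - p) * t) = _
    ring
  rw [← hV'] at hact₃ hact₁ hL₁ ⊢
  rw [← hP] at hdeep hdeep' hU1 ⊢
  -- the largest window
  obtain ⟨wm, hwm⟩ : ∃ wm, wm = min (min w₁ (1 / 2)) (min ((t₁ - v.b) / 2) (x / 16)) := ⟨_, rfl⟩
  have hwm0 : 0 < wm := by
    rw [hwm]
    exact lt_min (lt_min hw₁ (by norm_num)) (lt_min (by linarith only [ht₁])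
      (by linarith only [hx]))
  have wm0 : wm ≤ w₁ ∧ wm ≤ 1 / 2 ∧ wm ≤ (t₁ - v.b) / 2 ∧ wm ≤ x / 16 := by
    have := hwm.le
    simp only [le_min_iff] at this
    tauto
  obtain ⟨m1, m2, m3, m4⟩ := wm0
  have hc1 : c ≤ 1 := by
    rw [hc]
    exact mul_le_one₀ (by linarith only [hb]) (by linarith only [hp1]) (by linarith only [hp0])
  have hT : ∀ t : ℝ, 0 < t → t ≤ wm → v.b < V'.tm t ∧ V'.tm t < t₁ ∧ V'.tm t ≤ v.b + x / 16 := by
    intro t h0 h1
    rw [htm']
    have h2 : c * t ≤ 1 * t := mul_le_mul_of_nonneg_right hc1 h0.le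
    have h3 : 0 < c * t := mul_pos hc0 h0
    refine ⟨by linarith only [h3], by linarith only [h2, h1, m3, ht₁], by linarith only [h2, h1, m4]⟩
  -- the numbers of `u` over `y` in the zooms
  have hUz1 : ∀ t r : ℝ, t < wm → V'.sc (L₁ {y} u t r) ≤ U₁ + P := by
    intro t r ht
    have h1 := ng_num hC₀ htm hne V' (id : Fin m → Fin m) hL hL₁ (κ := y) (k := u) hact₁
      (w' := t) (w := wm) (a₀ := a₀) (a := a) (r' := r) ht hwm0 (by linarith only [m2]) ha
      (lt_of_le_of_lt ha0 ha) ha1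
    obtain ⟨k1, k2, k3⟩ := hT wm hwm0 le_rfl
    have h2 := hU _ k1 k2
    rw [hP'] at h1
    simp only [id] at h1
    rcases min_le_iff.1 (h1.trans h2) with h3 | h3
    · linarith only [h3]
    · linarith only [h3, hdeep, k1, hx, hP0]
  have hUz3 : ∀ t r : ℝ, t < wm → V'.sc (L₃ {0} 1 t r) ≤ U₁ + P := by
    intro t r ht
    have hL3 : LamW (RecV S V' ![y, u, z]) L₃ := by
      rw [hV']
      exact h.lam
    have h1 := ng_num hC₀ htm hne V' ![y, u, z] hL hL3 (κ := 0) (k := 1) hact₃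
      (w' := t) (w := wm) (a₀ := a₀) (a := a) (r' := r) ht hwm0 (by linarith only [m2]) ha
      (lt_of_le_of_lt ha0 ha) ha1
    obtain ⟨k1, k2, k3⟩ := hT wm hwm0 le_rfl
    have h2 := hU _ k1 k2
    have e0 : (![y, u, z] : Fin 3 → Fin m) 0 = y := rfl
    have e1 : (![y, u, z] : Fin 3 → Fin m) 1 = u := rfl
    rw [hP', e0, e1] at h1
    rcases min_le_iff.1 (h1.trans h2) with h3 | h3
    · linarith only [h3]
    · linarith only [h3, hdeep, k1, hx, hP0]
  -- the numbers of `z` over `y` in the zooms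
  have hzlow : ∀ t r : ℝ, 0 < t → t < wm → U₁ + P - x / 8 ≤ V'.sc (L₁ {y} z t r) := by
    intro t r h0 h1
    have ht2 : 0 < t / 2 := by linarith only [h0]
    obtain ⟨k1, k2, k3⟩ := hT (t / 2) ht2 (by linarith only [h0, h1])
    have h2 := nat_low hne hC₀ htm hL hact V' hL₁ (u := z) (w₀ := t / 2) (w := t) (r₀ := 0)
      (r := r) (a₀ := a₀') (a := a') (Q := U₁ - x / 16) (x := x / 16) ht2.le
      (by linarith only [h0]) (by linarith only [h1, m2]) (hUz _ k1 k2) (by linarith only [hx])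
      ha0' ha' ha1' (by rw [hP']; linarith only [hdeep', k1, hx]) (by
        rw [hP']
        linarith only [hU1, hx])
    rw [hP'] at h2
    linarith only [h2]
  -- the window and the numbers of the zoom
  obtain ⟨w₃, b1, b2, b3, -, hcases⟩ := p3_num hne htm h (Y := Y) (E := E) (Q := U₁ + P)
    hy huv ⟨wm, hwm0, fun t h0 h1 => by
      have h2 := hUz3 t t h1
      rw [hV'] at h2
      exact h2⟩ (ρ := x / 8) (by linarith only [hx]) hD hwm0
  rw [← hP] at hcases
  obtain ⟨w₄, b4, b5, -⟩ := win_in hD b2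
  obtain ⟨w, b6, b7, b8⟩ := win_in ((hD.union (cnt_tm hL V' {y} u)).union (cnt_tm hL V' {y} z)) b5
  obtain ⟨w₅, b9, b10, -⟩ := win_in hD b7
  obtain ⟨w₆, b11, b12, -⟩ := win_in hD b10
  simp only [Set.mem_union, not_or, Set.mem_ofPred_eq, not_not] at b8
  obtain ⟨⟨hwD, hcu⟩, hcz⟩ := b8
  have hw0 : 0 < w := by linarith only [b1, b4, b6]
  have hw₄0 : 0 < w₄ := by linarith only [b1, b4]
  have hw1 : w < 1 := by linarith only [b7, m2]
  obtain ⟨T, hTd⟩ : ∃ T, T = V'.tm w := ⟨_, rfl⟩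
  obtain ⟨k1, k2, k3⟩ := hT w hw0 b7.le
  have hUw := hU _ k1 k2
  have hUuw := hUu _ k1 k2
  have hUzw := hUz _ k1 k2
  obtain ⟨X, hX⟩ : ∃ X, X = Y + E - (v.b + P) - (U₁ + P) - x / 8 := ⟨_, rfl⟩
  rw [← hX] at hcases
  refine ⟨w, hw0, by linarith only [b7, m1], hw1, hwD, ?_⟩
  have hNlow : ∀ r : ℝ, U₁ + P - x / 8 ≤ V'.sc (L₁ {y, u} z w₄ r) := by
    intro r
    refine (hzlow w₄ r hw₄0 b5).trans ?_
    rw [hsc', hsc']
    have h1 : L₁ {y} z w₄ r ≤ L₁ {y, u} z w₄ r :=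
      hL₁.mono _ _ _ _ _ _ _ (by simp) le_rfl le_rfl
    have h2 := mul_le_mul_of_nonneg_left h1 hc0.le
    linarith only [h2]
  -- the label over `y`, `u` from the number over `y`, `u`
  have hlab : ∀ r : ℝ, X ≤ V'.sc (L₁ {y, u} z w₄ r) + x / 2 → Bas S (fun J F A =>
      ∀ hP : V'.P J ≤ J - V'.B J, ∃ B : F.Ω → Prop, Sub B A ∧ Pe F.p A ≤ 2560 * Pe F.p B ∧
          ∃ (V : Type) (zp : PtT (zmV F hP (V'.y J F) (id : Fin m → Fin m)) → V)
            (zs : LnT (zmV F hP (V'.y J F) (id : Fin m → Fin m)) → V) (cf : V → Fin 4 → ℝ),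
            AfCn F hP (V'.y J F) (id : Fin m → Fin m) y u z
              (⌊w * V'.R J⌋₊ + 2) (⌊w * V'.R J⌋₊ +
                ⌊(Y + E - (v.b + P) - (U₁ + P) - x - P - V'.tm w) * J⌋₊) ⌊x * J⌋₊ B zp zs cf ∧
            ∀ ω, B ω → |cf (zs (slam (zmV F hP (V'.y J F)
              (id : Fin m → Fin m)) (⌊w * V'.R J⌋₊ + 2) ω)) 2| ≤ 2 ^ ⌊x * J⌋₊) := by
    intro r hr
    have hN := hNlow r
    have h1 := aff_lab hC₀ htm hL V' (id : Fin m → Fin m) hL₁ (κ := y) (ι := u) (k := z) hyu hact₁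
      hact (w' := w₄) (w := w) (r' := r) (a₀ := a₀) (a := a) (η := x / 4) b6 hw0 hw1 hcu
      (by
        simp only [id]
        linarith only [hUuw, k3, hbU, hx]) (by
        rw [hP']
        simp only [id]
        linarith only [hUw, hU1, hx]) (fun s hs => by
        simp only [id]
        exact nat_lim hne hC₀ htm hL hact V' hL₁ hw0 hw1 hcu hx ha0 ha ha1 (by
          rw [hP', hVb]
          linarith only [hUw, hdeep]) (by
          rw [hP']
          linarith only [hUw, hU1, hx]) hs) ha0 ha ha1 (by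
        rw [hP']
        simp only [id]
        linarith only [hUw, hdeep, k1, hx]) (by linarith only [hx]) (by
        rw [hP']
        linarith only [hN, k3, hbU, hx])
    rw [hP'] at h1
    refine Bas.mono 0 h1 ?_
    rintro J - F A h2 hP
    have hJ0 : (0 : ℝ) ≤ J := Nat.cast_nonneg J
    obtain ⟨B, c1, c2, V, zp, zs, cf, c3, c4⟩ := h2 hP
    have he : ⌊x / 4 * (J : ℝ)⌋₊ ≤ ⌊x * (J : ℝ)⌋₊ :=
      Nat.floor_le_floor (mul_le_mul_of_nonneg_right (by linarith only [hx]) hJ0)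
    have hB0 : 0 ≤ Pe F.p B := Pe_nonneg F.isLaw B
    refine ⟨B, c1, by linarith only [c2, hB0], V, zp, zs, cf, AfCn.mono c3 (Nat.add_le_add_left
      (Nat.floor_le_floor (mul_le_mul_of_nonneg_right ?_ hJ0)) _) he, fun ω hω =>
      (c4 ω hω).trans (pow_le_pow_right₀ (by norm_num) he)⟩
    rw [hX] at hr
    linarith only [hr, hx]
  have hL3 : LamW (RecV S V' ![y, u, z]) L₃ := by
    rw [hV']
    exact h.lam
  have hinj := inj_three hyu hyz huz
  have hscm : ∀ s t : ℝ, s ≤ t → V'.sc s ≤ V'.sc t := by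
    intro s t hst
    rw [hsc', hsc']
    have := mul_le_mul_of_nonneg_left hst hc0.le
    linarith only [this]
  rcases hcases with ⟨-, c2⟩ | ⟨c1, c2⟩
  · -- the order `y`, `u`, `z`
    have h1 := num_id hne hinj hL3 hL₁ {0, 1} 2 (w' := w₃) (w := w₄) (r' := L₃ {0} 1 w₃ w₃)
      (r := L₃ {0} 1 w₃ w₃) hw₄0 (by linarith only [b6, hw1]) b4 le_rfl
    have e1 : (({0, 1} : Finset (Fin 3)).image (![y, u, z] : Fin 3 → Fin m)) = {y, u} := by
      rw [Finset.image_insert, Finset.image_singleton]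
      rfl
    have e2 : (![y, u, z] : Fin 3 → Fin m) 2 = z := rfl
    rw [e1, e2] at h1
    refine hlab (L₃ {0} 1 w₃ w₃) ?_
    have h2 := hscm _ _ h1
    have h3 : X ≤ V'.sc (L₃ {0, 1} 2 w₃ (L₃ {0} 1 w₃ w₃)) := by
      rw [hV']
      exact c2
    linarith only [h2, h3, hx]
  · -- the order `y`, `z`, `u`
    obtain ⟨r₄, hr₄⟩ : ∃ r₄, r₄ = L₃ {0} 2 w₃ w₃ := ⟨_, rfl⟩
    rw [← hr₄] at c1 c2
    have h1 := num_id hne hinj hL3 hL₁ {0, 2} 1 (w' := w₃) (w := w₄) (r' := r₄)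
      (r := r₄) hw₄0 (by linarith only [b6, hw1]) b4 le_rfl
    have e1 : (({0, 2} : Finset (Fin 3)).image (![y, u, z] : Fin 3 → Fin m)) = {y, z} := by
      rw [Finset.image_insert, Finset.image_singleton]
      rfl
    have e2 : (![y, u, z] : Fin 3 → Fin m) 1 = u := rfl
    rw [e1, e2] at h1
    have h3 : X ≤ V'.sc (L₃ {0, 2} 1 w₃ r₄) := by
      rw [hV']
      exact c2
    have hXΛ : X ≤ V'.sc (L₁ {y, z} u w₄ r₄) := h3.trans (hscm _ _ h1)
    by_cases hb0 : X ≤ U₁ + P + x / 4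
    · refine hlab 0 ?_
      have := hNlow 0
      linarith only [this, hb0, hx]
    push Not at hb0
    by_cases hb1' : U₁ + x / 2 ≤ L {y} z (V'.tm w) 0
    · -- the number of `z` over `y` is large
      exfalso
      have h4 := nat_low hne hC₀ htm hL hact V' hL₁ (u := z) (w₀ := w) (w := w₅) (r₀ := 0)
        (r := r₄) (a₀ := a₀') (a := a') (Q := U₁ + x / 2) (x := x / 4) hw0.le b9
        (by linarith only [b10, m2]) hb1' (by linarith only [hx]) ha0' ha' ha1' (by
          rw [hP']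
          linarith only [hdeep', k1, hx]) (by
          rw [hP']
          linarith only [hU1, hx])
      rw [hP'] at h4
      have hr₄0 : 0 < r₄ := by
        rw [hr₄]
        exact lt_of_lt_of_le b1 (hL3.low _ _ _ _ b3.le)
      have hrL : r₄ < L₁ {y} z w₅ r₄ := by
        have h5 := hUz3 w₃ w₃ b2
        have h6 := hscm _ _ c1
        have h7 : V'.sc r₄ < V'.sc (L₁ {y} z w₅ r₄) := by linarith only [h4, h5, h6, hx]
        rw [hsc', hsc'] at h7
        exact lt_of_mul_lt_mul_left (by linarith only [h7]) hc0.le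
      have h5 := num_comp (recV_ne hne V' (id : Fin m → Fin m)) (mul_nonneg hC₀ (by
        rw [hVb, hVp, ← hc]
        positivity)) (recV_tm hC₀ htm V' (id : Fin m → Fin m)) hL₁ (I := {y}) (ι := z) (k := u)
        (w' := w₅) (w := w₆) (r₁ := r₄) (r₂ := r₄) (r := r₄ + 1) b11
        (by linarith only [hw0, b9, b11]) (by linarith only [b12, m2]) hr₄0.le
        (by linarith only) (by linarith only) hrL
      have h6 := hUz1 w₆ (r₄ + 1) b12
      rw [Finset.pair_comm z y] at h5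
      rcases min_le_iff.1 h5 with h7 | h7
      · have h8 := hscm _ _ h7
        have h9 : L₁ {y, z} u w₄ r₄ ≤ L₁ {y, z} u w₅ r₄ :=
          hL₁.mono _ _ _ _ _ _ _ (Finset.Subset.refl _) (by linarith only [b6, b9]) le_rfl
        have h10 := hscm _ _ h9
        linarith only [h6, h8, h10, hXΛ, hb0, hx]
      · have h8 := hscm _ _ h7
        linarith only [h4, h6, h8, hx]
    · -- the inversion
      push Not at hb1'
      have h4 := inv_cls hC₀ htm hL V' (id : Fin m → Fin m) hL₁ (κ := y) (ι := z) (k := u) hyz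
        hact₁ hact (w' := w₄) (w := w) (r' := r₄) (a₀ := a₀') (a := a') (w₁ := w₄) (r₁ := 0)
        (r₀ := 0) (x₂ := x / 4) (x₃ := x / 4) b6 hw0 hw1 hcz
        (by
          simp only [id]
          linarith only [hUzw, k3, hbU, hx]) (by
          rw [hP']
          simp only [id]
          linarith only [hb1', hU1, hx]) (fun s hs => by
          simp only [id]
          exact nat_lim hne hC₀ htm hL hact V' hL₁ (x := x / 2) hw0 hw1 hcz
            (by linarith only [hx]) ha0' ha' ha1' (by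
            rw [hP', hVb]
            linarith only [hb1', hdeep']) (by
            rw [hP']
            linarith only [hb1', hU1, hx]) hs) ha0' ha' ha1' (by
          rw [hP']
          simp only [id]
          linarith only [hb1', hdeep', k1, hx]) hw₄0 b6 le_rfl le_rfl (by linarith only [hx])
        (by linarith only [hx]) (by
          rw [hP']
          linarith only [hXΛ, hb0, k3, hbU, hx]) (by
          have h5 := hUz1 w 0 b7
          linarith only [h5, hXΛ, hb0, hx]) (by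
          have h5 := hUz1 w 0 b7
          have h6 := hzlow w₄ 0 hw₄0 b5
          linarith only [h5, h6, hx])
      rw [hP'] at h4
      refine Bas.mono 0 h4 ?_
      rintro J - F A h2 hP
      have hJ0 : (0 : ℝ) ≤ J := Nat.cast_nonneg J
      obtain ⟨B, c1, c2, V, zp, zs, cf, c3, c4⟩ := h2 hP
      have he : ⌊(x / 4 + x / 4) * (J : ℝ)⌋₊ ≤ ⌊x * (J : ℝ)⌋₊ :=
        Nat.floor_le_floor (mul_le_mul_of_nonneg_right (by linarith only [hx]) hJ0)
      refine ⟨B, c1, c2, V, zp, zs, cf, AfCn.mono c3 (Nat.add_le_add_left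
        (Nat.floor_le_floor (mul_le_mul_of_nonneg_right ?_ hJ0)) _) he, fun ω hω =>
        (c4 ω hω).trans (pow_le_pow_right₀ (by norm_num) he)⟩
      rw [hX] at hXΛ
      linarith only [hXΛ, hx]

end Pool.P62
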