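import Pool.Agent.H43.OWN.Flc
import Pool.Agent.H62.P3.P3lab
import Pool.Agent.H6.OWN.Zlb
import Pool.Agent.H17.COR.Pst
import Pool.Agent.H72.OWN.Act2

/-!
# The label of the tube of a place
-/

set_option autoImplicit false

namespace Pool.OWN17

open Finset Real MvPolynomial
open Pool.Agent.H49.Ent Pool.Agent.H32.Dense Pool.STK Pool.KA Pool.KSAT Pool.K2S Pool.PB Pool.S6C
  Pool.GEN Pool.RCD Pool.LA91 Pool.MIC6 Pool.REX Pool.REX83 Pool.OWN72 Pool.OWN43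
open Pool.GRD (LbP)

variable {m : ℕ}

/-- **The label of the tube of a place**, at the first window `t₀`, as a label at the window `t`. -/
theorem place_a (hFn : ∀ k, 1 ≤ k → k ≤ 3 → FZX k) {S : PCl m} (hS : S.Ne) {C₀ : ℝ} (hC₀ : 0 ≤ C₀)
    (htm : TmC S C₀)
    (hpos : ∀ (τ : ℝ) (J : ℕ) (F : Fam m J) (A : F.Ω → Prop), S.St τ J F A → 0 < Pe F.p A)
    {L : Finset (Fin m) → Fin m → ℝ → ℝ → ℝ} (hL : LamW S L)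
    {Ns : Finset (Fin m) → ℝ → ℝ → ℝ} (hNs : ActN S Ns) {y u v : Fin m} (hact : ActF S y)
    (hyu : y ≠ u) (hyv : y ≠ v) (huv : u ≠ v)
    {t₀ W O P₀ : ℝ} (ht0 : 0 ≤ t₀) (ht1 : t₀ < 1) (hWt : W ≤ t₀)
    {NU NV iN gN I E MU MV MU' MV' : ℕ → ℕ}
    {a b a' b' : ∀ (J : ℕ) (F : Fam m J), LnT F → Fin 4 → ℝ}
    (hch : ∀ (τ : ℝ) (J : ℕ) (F : Fam m J) (A : F.Ω → Prop), S.St τ J F A →
      Chd F y u v ⌊W * J⌋₊ ⌊O * J⌋₊ (MU J) (MV J) (MU' J) (MV' J) (E J) (a J F) (b J F) (a' J F)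
        (b' J F) A)
    (hD : ∀ (τ : ℝ) (J : ℕ) (F : Fam m J) (A : F.Ω → Prop), S.St τ J F A →
      Dpl (Pool.Agent.H49.Ent.cond F.p A True) 4 J ⌊t₀ * J⌋₊ (NU J) (NV J) (I J)
        (lnF F y u v ⌊t₀ * J⌋₊) (hC F ⌊t₀ * J⌋₊ ⌊W * J⌋₊ (a J F) (b J F))
        (fC F ⌊O * J⌋₊ (a' J F) (b' J F)) F.T (fun ω => F.X J ω y)
        (AuC F ⌊W * J⌋₊ ⌊O * J⌋₊ (a J F) (a' J F))
        (AvC F ⌊W * J⌋₊ ⌊O * J⌋₊ (b J F) (a' J F) (b' J F)))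
    {𝒮 : ∀ J : ℕ, Fam m J → Type} {cs : ∀ (J : ℕ) (F : Fam m J), LnT F → 𝒮 J F}
    (hcl : ∀ (τ : ℝ) (J : ℕ) (F : Fam m J) (A : F.Ω → Prop), S.St τ J F A →
      ∀ ω ω', A ω → A ω' → ptr F J ω = ptr F J ω' →
        cs J F (slam F ⌊t₀ * J⌋₊ ω) = cs J F (slam F ⌊t₀ * J⌋₊ ω'))
    (hcs : ∀ (J : ℕ) (F : Fam m J) (ω ω' : F.Ω), cs J F (slam F ⌊t₀ * J⌋₊ ω) =
      cs J F (slam F ⌊t₀ * J⌋₊ ω') → a J F (slam F ⌊W * J⌋₊ ω) = a J F (slam F ⌊W * J⌋₊ ω') ∧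
        b J F (slam F ⌊W * J⌋₊ ω) = b J F (slam F ⌊W * J⌋₊ ω') ∧
        tw0 F ⌊t₀ * J⌋₊ ω = tw0 F ⌊t₀ * J⌋₊ ω')
    {p al : ℝ} (hp0 : 0 < p) (hp1 : p < 1 / 2) (hal : 0 < al) (hPp : P₀ < (1 - t₀) * p)
    (hactN : Act (Ns {y}) ((1 - t₀) * p) al)
    {κ : ℝ} (hup : Bas S (fun J F A => CH (Pool.Agent.H49.Ent.cond F.p A True)
      (fun ω => (hgU J ⌊t₀ * J⌋₊ (NU J + iN J + gN J) (lnF F y u v ⌊t₀ * J⌋₊)
          (hC F ⌊t₀ * J⌋₊ ⌊W * J⌋₊ (a J F) (b J F)) F.T ω,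
        hgV J ⌊t₀ * J⌋₊ (NV J + iN J + gN J) (lnF F y u v ⌊t₀ * J⌋₊)
          (hC F ⌊t₀ * J⌋₊ ⌊W * J⌋₊ (a J F) (b J F)) F.T ω))
      (Nd J ⌊t₀ * J⌋₊ (NU J) (NV J) (iN J) (lnF F y u v ⌊t₀ * J⌋₊)
        (hC F ⌊t₀ * J⌋₊ ⌊W * J⌋₊ (a J F) (b J F)) F.T (fun ω => F.X J ω y)
        (fun ω => cs J F (slam F ⌊t₀ * J⌋₊ ω))) ≤ κ * J))
    {Y Ed U₁ x t₁ α₀ α β₀ β : ℝ} (hx : 0 < x) (ht₁ : t₀ < t₁)
    (hU : ∀ s, t₀ < s → s < t₁ → L {y} u s 0 ≤ U₁)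
    (hUu : ∀ s, t₀ < s → s < t₁ → U₁ - x / 16 ≤ L {y} u s 0)
    (hUv : ∀ s, t₀ < s → s < t₁ → U₁ - x / 16 ≤ L {y} v s 0)
    (hbU : t₀ + 8 * x ≤ U₁) (hα₀ : 0 ≤ α₀) (hα : α₀ < α) (hα1 : α < 1)
    (hdeep : U₁ - t₀ + (1 - t₀) * p + x ≤ L {y} u α₀ α₀ - α)
    (hβ₀ : 0 ≤ β₀) (hβ : β₀ < β) (hβ1 : β < 1)
    (hdeep' : U₁ - t₀ + (1 - t₀) * p + x ≤ L {y} v β₀ β₀ - β)
    (hU1 : U₁ + (1 - t₀) * p + x ≤ 1)
    (hY : ∀ r : ℝ, 0 < r → ∃ J₀ : ℕ, ∀ J ≥ J₀, (Y - r) * (J : ℝ) ≤ ⌊t₀ * J⌋₊ + iN J)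
    {J₀ : ℕ} (n0 : ∀ J ≥ J₀, iN J ≤ I J ∧ iN J ≤ ⌊P₀ * J⌋₊ ∧ ⌊t₀ * J⌋₊ + iN J ≤ J ∧
      NU J + iN J + gN J + E J ≤ J ∧ NV J + iN J + gN J + E J ≤ J)
    (n1 : ∀ J ≥ J₀, κ * J + (2 * J - (NU J + NV J + 2 * iN J + 2 * gN J)) * Real.log 2 +
      (3 * Real.log 11 + Real.log 9) ≤ (2 - Ed) * Real.log 2 * J)
    {t x₁ s M : ℝ} (ht : t₀ < t) (ht1' : t < 1) (hx₁ : x < x₁) (hs : 0 < s)
    (hM : M = Y + Ed - t₀ - 2 * ((1 - t₀) * p) - U₁ - x - s) (hM0 : 0 ≤ M)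
    (hq : 0 < Y + Ed - 2 * t₀ - 3 * ((1 - t₀) * p) - U₁ - x) :
    ∃ (S' : PCl m) (v₁ : Vz m), S'.Ne ∧
      (∀ (τ : ℝ) (J : ℕ) (F : Fam m J) (A : F.Ω → Prop), S'.St τ J F A → S.St τ J F A) ∧
      v₁.b = t₀ ∧ v₁.p = p ∧ ActZ S' v₁ (id : Fin m → Fin m) y ∧
      (∀ h : ℝ, 0 < h → Bas S' (fun J F A =>
        CH (Pool.Agent.H49.Ent.cond F.p A True) (v₁.y J F)
          (fun ω => (F.D ⌊P₀ * J⌋₊ ω, (F.X J ω, F.W ω))) ≤ h * J)) ∧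
      Bas S' (fun J F A => ∀ hP : v₁.P J ≤ J - v₁.B J,
        ∃ (f : LnT F → Fin 4 → ℝ) (φ : PtT (zmV F hP (v₁.y J F) (id : Fin m → Fin m)) → Fin 4 → ℝ)
          (B : F.Ω → Prop), Sub B A ∧ Pe F.p A ≤ 2560 * Pe F.p B ∧ ∀ ω, B ω →
          f (slam F ⌊t * J⌋₊ ω) = φ (ptr (zmV F hP (v₁.y J F) id) (J - v₁.B J - v₁.P J) ω) ∧
          (∀ i : Fin 4, i ≠ 0 → |f (slam F ⌊t * J⌋₊ ω) i| ≤ 2 ^ ⌊x₁ * J⌋₊) ∧
          |(lnF F y u v ⌊t * J⌋₊ ω).v - ((lbF (tw0 F ⌊t * J⌋₊ ω) (f (slam F ⌊t * J⌋₊ ω))).f0 +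
            f (slam F ⌊t * J⌋₊ ω) 2 * (lnF F y u v ⌊t * J⌋₊ ω).y +
            f (slam F ⌊t * J⌋₊ ω) 3 * (lnF F y u v ⌊t * J⌋₊ ω).u)| ≤ 1 / 2 ^ ⌊M * J⌋₊ ∧
          |F.d ω v - (f (slam F ⌊t * J⌋₊ ω) 1 + f (slam F ⌊t * J⌋₊ ω) 2 * F.d ω y +
            f (slam F ⌊t * J⌋₊ ω) 3 * F.d ω u)| ≤ 2 ^ ⌊t * J⌋₊ / 2 ^ ⌊M * J⌋₊) := by
  classical
  have hp1' : p < 1 := by linarith only [hp1]
  obtain ⟨P, hP⟩ : ∃ P, P = (1 - t₀) * p := ⟨_, rfl⟩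
  obtain ⟨vz, hvz⟩ : ∃ vz : Vz m, vz = vkZ y u v t₀ W ht0 ht1 hWt NU NV iN a b cs
    (fun _ _ _ => ()) := ⟨_, rfl⟩
  have hvb : vz.b = t₀ := by rw [hvz]; rfl
  have hposB : Bas S (fun _ F A => 0 < Pe F.p A) :=
    ⟨1, one_pos, 0, fun J _ F A hA => hpos 1 J F A hA⟩
  -- the record
  have hcl' : ∀ (τ : ℝ) (J : ℕ) (F : Fam m J) (A : F.Ω → Prop), S.St τ J F A →
      ∀ ω ω', A ω → A ω' → ptr F J ω = ptr F J ω' →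
        cs J F (slam F ⌊t₀ * J⌋₊ ω) = cs J F (slam F ⌊t₀ * J⌋₊ ω') ∧
        a J F (slam F ⌊W * J⌋₊ ω) = a J F (slam F ⌊W * J⌋₊ ω') ∧
        b J F (slam F ⌊W * J⌋₊ ω) = b J F (slam F ⌊W * J⌋₊ ω') ∧
        a' J F (slam F ⌊O * J⌋₊ ω) = a' J F (slam F ⌊O * J⌋₊ ω') ∧
        b' J F (slam F ⌊O * J⌋₊ ω) = b' J F (slam F ⌊O * J⌋₊ ω') := by
    intro τ J F A hA ω ω' h1 h2 h3
    have hc := hch τ J F A hA
    obtain ⟨φ₁, p1⟩ := hc.cu.cls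
    obtain ⟨φ₂, p2⟩ := hc.cv.cls
    obtain ⟨φ₃, p3⟩ := hc.cu'.cls
    obtain ⟨φ₄, p4⟩ := hc.cv'.cls
    exact ⟨hcl τ J F A hA ω ω' h1 h2 h3, by rw [p1 ω h1, p1 ω' h2, h3],
      by rw [p2 ω h1, p2 ω' h2, h3], by rw [p3 ω h1, p3 ω' h2, h3], by rw [p4 ω h1, p4 ω' h2, h3]⟩
  have hrec : ∀ h : ℝ, 0 < h → Bas S (fun J F A =>
      CH (Pool.Agent.H49.Ent.cond F.p A True) (vz.y J F)
        (fun ω => (F.D ⌊P₀ * J⌋₊ ω, (F.X J ω, F.W ω))) ≤ h * J) := by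
    rw [hvz]
    refine hrec_vk (S := S) (y := y) (u := u) (v := v) (b := t₀) (W := W) (O := O) (hb0 := ht0)
      (hb1 := ht1) (hWb := hWt) (NU := NU) (NV := NV) (iN := iN) (I := I) (a := a) (b' := b)
      (a₁ := a') (b₁ := b') (cs := cs) (q := fun _ _ _ => ()) hpos (c := 4) (P₀ := P₀) hD hcl' hcs
      (J₀ := J₀) (fun J hJ => ⟨(n0 J hJ).1, (n0 J hJ).2.1⟩) (fun h hh => ?_)
    refine Bas.mono 0 hposB ?_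
    rintro J - F A k1
    rw [CH_eq_zero (isLaw_cond F.isLaw k1).nonneg fun ω ω' _ _ _ => rfl]
    positivity
  -- the tubes
  obtain ⟨S₁, L₃, hS₁, sub₁, hR₁⟩ := rex_tube hS hC₀ htm hpos hNs (ι := Unit) (fun _ => 3)
    (fun _ => hFn 3 (by norm_num) le_rfl) (fun _ => vz) (fun _ => (![y, u, v] : Fin 3 → Fin m))
    (fun _ => 0) (P₀ := fun _ => P₀) (fun _ => hrec) (p := fun _ => p) (al := fun _ => al)
    (fun _ => hal) (fun _ => hp0) (fun _ => by rw [hvb]; exact hPp) (fun _ => hp1)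
    (fun _ => by rw [hvb]; exact hactN)
  obtain ⟨hR3, hA3⟩ := hR₁ ()
  obtain ⟨S₂, L₁, hS₂, sub₂, hL₁⟩ := lam_all hS₁ (ι := Unit) (fun _ => m)
    (fun _ => reZ (atp vz p hp0.le hp1') (id : Fin m → Fin m))
  have hL1 : LamW (RecV S₂ (atp vz p hp0.le hp1') (id : Fin m → Fin m)) (L₁ ()) := hL₁ ()
  have sub' : ∀ (τ : ℝ) (J : ℕ) (F : Fam m J) (A : F.Ω → Prop), S₂.St τ J F A → S.St τ J F A :=
    fun τ J F A h => sub₁ τ J F A (sub₂ τ J F A h)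
  have hpos₂ : ∀ (τ : ℝ) (J : ℕ) (F : Fam m J) (A : F.Ω → Prop), S₂.St τ J F A → 0 < Pe F.p A :=
    fun τ J F A h => hpos τ J F A (sub' τ J F A h)
  have hposB₂ : Bas S₂ (fun _ F A => 0 < Pe F.p A) :=
    ⟨1, one_pos, 0, fun J _ F A hA => hpos₂ 1 J F A hA⟩
  have htm₂ : TmC S₂ C₀ := fun τ J F A hτ h => htm τ J F A hτ (sub' τ J F A h)
  have hact1 : ActZ S₂ (atp vz p hp0.le hp1') (id : Fin m → Fin m) y :=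
    act_Z (v := atp vz p hp0.le hp1') hposB₂ (actN_of_bas (fun Φ hb => Bas.sub sub' hb) hNs)
      (id : Fin m → Fin m) y (fun h hh => Bas.sub sub' (hrec h hh)) hal
      (by show P₀ < (1 - vz.b) * p; rw [hvb]; exact hPp)
      (by show Act (Ns {y}) ((1 - vz.b) * p) al; rw [hvb]; exact hactN)
  -- the rows
  have hbd : ∀ (τ : ℝ) (J : ℕ) (F : Fam m J) (A : F.Ω → Prop), S₂.St τ J F A → ∀ ω, A ω →
      |a J F (slam F ⌊W * J⌋₊ ω) 2| ≤ 2 ^ E J ∧ |b J F (slam F ⌊W * J⌋₊ ω) 2| ≤ 2 ^ E J ∧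
        |b J F (slam F ⌊W * J⌋₊ ω) 3| ≤ 2 ^ E J := fun τ J F A hA ω hω => by
    have hc := hch τ J F A (sub' τ J F A hA)
    exact ⟨hc.cu.bnd ω hω 2 (by decide), hc.cv.bnd ω hω 2 (by decide),
      hc.cv.bnd ω hω 3 (by decide)⟩
  have hy : ∀ ρ : ℝ, 0 < ρ → Bas S₂ (fun J F A => CH (Pool.Agent.H49.Ent.cond F.p A True)
      (fun ω => F.X J ω y) (fun ω => (vz.y J F ω, F.W ω)) ≤ (1 - Y + ρ) * Real.log 2 * J) := by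
    rw [hvz]
    exact hy_vk (S := S₂) (y := y) (u := u) (v := v) (b := t₀) (W := W) (hb0 := ht0)
      (hb1 := ht1) (hWb := hWt) (NU := NU) (NV := NV) (iN := iN) (a := a) (b' := b)
      (cs := cs) (q := fun _ _ _ => ()) hpos₂ (Y := Y) (J₀ := J₀)
      (fun J hJ => (n0 J hJ).2.2.1) hY
  have huv' : Bas S₂ (fun J F A => CH (Pool.Agent.H49.Ent.cond F.p A True)
      (fun ω => (F.X J ω u, F.X J ω v))
      (fun ω => (F.X J ω y, (vz.y J F ω, F.W ω))) ≤ (2 - Ed) * Real.log 2 * J) := by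
    rw [hvz]
    exact huv_vk (S := S₂) (y := y) (u := u) (v := v) (b := t₀) (W := W) (hb0 := ht0)
      (hb1 := ht1) (hWb := hWt) (NU := NU) (NV := NV) (iN := iN) (a := a) (b' := b)
      (cs := cs) (q := fun _ _ _ => ()) hpos₂ (E := Ed) (κ := κ) (e := E) (g := gN) hbd hcs
      (Bas.sub sub' hup) (J₀ := J₀) (fun J hJ => (n0 J hJ).2.2.2) n1
  have hactF : ActF S₂ y := fun g hg => by
    obtain ⟨c, hc, h⟩ := hact g hg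
    exact ⟨c, hc, Bas.sub sub' h⟩
  -- the label
  obtain ⟨w₁, hw₁⟩ : ∃ w₁, w₁ = min (t - t₀) (Y + Ed - 2 * t₀ - 3 * P - U₁ - x) := ⟨_, rfl⟩
  rw [← hP] at hq
  have hw10 : 0 < w₁ := by
    rw [hw₁]
    exact lt_min (by linarith only [ht]) hq
  have l1 : w₁ ≤ t - t₀ := by rw [hw₁]; exact min_le_left _ _
  have l2 : w₁ ≤ Y + Ed - 2 * t₀ - 3 * P - U₁ - x := by rw [hw₁]; exact min_le_right _ _
  obtain ⟨w, hw0, hww, hwl, -, hlab⟩ := Pool.P62.p3_lab hS₂ hC₀ htm₂ (hL.sub sub') hactF hyu hyv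
    huv vz hp0.le hp1' (rdt_sub sub₂ hR3) (actZ_sub sub₂ (hA3 hp0.le hp1')) hact1 hL1 (Y := Y)
    (E := Ed) hy huv' (U₁ := U₁) (x := x) (t₁ := t₁) (a₀ := α₀) (a := α) (a₀' := β₀) (a' := β) hx
    (by rw [hvb]; exact ht₁) (by rw [hvb]; exact hU) (by rw [hvb]; exact hUu)
    (by rw [hvb]; exact hUv) (by rw [hvb]; exact hbU) hα₀ hα hα1 (by rw [hvb]; exact hdeep) hβ₀
    hβ hβ1 (by rw [hvb]; exact hdeep') (by rw [hvb]; exact hU1) hw10 (D := ∅) Set.countable_empty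
  rw [hvb, ← hP] at hlab
  have htmV : (atp vz p hp0.le hp1').tm w = t₀ + (1 - t₀) * (1 - p) * w := by
    show vz.b + (1 - vz.b) * (1 - p) * w = _
    rw [hvb]
  have hpV : (atp vz p hp0.le hp1').p * (1 - (atp vz p hp0.le hp1').b) = P := by
    show p * (1 - vz.b) = P
    rw [hvb, hP]
    ring
  have hc0 : 0 < (1 - t₀) * (1 - p) := mul_pos (by linarith only [ht1]) (by linarith only [hp1'])
  have hc1 : (1 - t₀) * (1 - p) ≤ 1 :=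
    mul_le_one₀ (by linarith only [ht0]) (by linarith only [hp1']) (by linarith only [hp0])
  have hcw : (1 - t₀) * (1 - p) * w ≤ 1 * w := mul_le_mul_of_nonneg_right hc1 hw0.le
  obtain ⟨tw, htw⟩ : ∃ tw, tw = (atp vz p hp0.le hp1').tm w := ⟨_, rfl⟩
  rw [← hP] at hM
  have hMe : (atp vz p hp0.le hp1').tm w +
      (atp vz p hp0.le hp1').p * (1 - (atp vz p hp0.le hp1').b) +
      (Y + Ed - (t₀ + P) - (U₁ + P) - x - P - (atp vz p hp0.le hp1').tm w) - s = M := by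
    rw [hpV, ← htw, hM]
    ring
  have hfin := zlab_of (atp vz p hp0.le hp1') (id : Fin m → Fin m) (κ := y) (ι := u) (k := v)
    (w := w) (q := Y + Ed - (t₀ + P) - (U₁ + P) - x - P - (atp vz p hp0.le hp1').tm w)
    (x := x) (x₁ := x₁) (s := s) (t := t) (Cp := 2560) hw0 hwl
    (by
      rw [htmV]
      linarith only [hcw, hww, l2]) hx.le hx₁ hs
    (by linarith only [hMe, hM0])
    (by
      rw [htmV]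
      linarith only [hcw, hww, l1]) ht1' hlab
  rw [hMe] at hfin
  exact ⟨S₂, atp vz p hp0.le hp1', hS₂, sub', hvb, rfl, hact1,
    fun h hh => Bas.sub sub' (hrec h hh), hfin⟩

end Pool.OWN17
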