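import Pool.Agent.H17.COR.Bxr

/-!
# There are boxes

`exists_box`: the windows of a box at a point at which the numbers are linear.
-/

set_option autoImplicit false

namespace Pool.OWN17

open Set

/-- **There are boxes** at a point at which the numbers are linear. -/
theorem exists_box {U D : ℚ → ℝ} {A B : ℝ} (H : UD U D A B) {x s S u₀ φ lam : ℝ}
    (hx : x ∈ Ioo A B) (hS1 : 1 < S) (hφ : 0 ≤ φ) (hu : x + s < u₀)
    (hφ1 : u₀ + φ < 1) (hlam : 0 < lam)
    (hder : ∀ e : ℝ, 0 < e → ∃ r₀ : ℝ, 0 < r₀ ∧ ∀ r : ℝ, 0 < r → r < r₀ → ∀ w : ℚ, x - r ≤ w →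
      (w : ℝ) ≤ x + r → |U w - (u₀ + S * (w - x))| ≤ e * r ∧
        |D w - (u₀ + φ + S * (w - x))| ≤ e * r)
    {nJ nD : ℚ → ℚ → ℚ → ℝ} {fJ fD C : ℝ} (hC : 0 ≤ C)
    (hnum : ∀ e : ℝ, 0 < e → ∃ r₀ : ℝ, 0 < r₀ ∧ ∀ r : ℝ, 0 < r → r < r₀ → ∀ w o : ℚ, x - r ≤ w →
        w ≤ o → (o : ℝ) ≤ x + r →
        (∀ g : ℝ, g < φ - 2 * (e * r) → GC U D g w o) ∧
        ∀ g : ℚ, φ - 8 * (e * r) ≤ g → (g : ℝ) < φ - 2 * (e * r) →
          |nJ g w o - fJ * (o - w)| ≤ C * (e * r) ∧ |nD g w o - fD * (o - w)| ≤ C * (e * r))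
    {mp N : ℕ} {n γ ρ : ℕ → ℕ} (hn : ∀ k ≤ mp, n k + γ k ≤ N ∧ n k + ρ k ≤ N ∧ γ k ≤ ρ k ∧
      (ρ k : ℝ) * (S - 1) ≤ n k)
    {τ : ℝ} (hτ : fJ - fD = (2 - τ) * (S * Real.log 2)) {c : ℝ} (hc : 0 < c) (hc1 : c ≤ 1 / 1000)
    {θE : ℚ → ℝ} (hfree : ∃ r₀ : ℝ, 0 < r₀ ∧ ∀ r : ℝ, 0 < r → r < r₀ → ∀ w w' : ℚ, x - r ≤ w →
      w ≤ w' → (w' : ℝ) ≤ x + r → θE w - θE w' ≤ c * (S - 1) / (2 * (N + 1)) * r)
    {β₁ ℓ : ℝ} (hβ₁ : 0 < β₁) (hℓ : u₀ - (x + s) < ℓ) :
    ∃ (β : ℝ) (g : ℚ) (q : Bix mp N → ℚ) (q₁ : ℚ) (b₂ : ℝ), β ≤ β₁ ∧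
      BoxR U D A B s lam mp N n γ ρ τ β (c * β) g q (bX mp N) (bD mp N) (bO mp N) q₁ (x + s) b₂
        (fun i j => nJ g (q i) (q j)) (fun i j => nD g (q i) (q j)) ∧
      θE (q (bX mp N 0)) - θE (q (bO mp N)) ≤ c * β ∧
      U (q (bX mp N 0)) - (q (bX mp N 0) + s) + N * β + 20 * (c * β) ≤ ℓ := by
  classical
  obtain ⟨hxA, hxB⟩ := hx
  have hS0 : 0 < S - 1 := by linarith only [hS1]
  have hSp : 0 < S := by linarith only [hS1]
  have hN0 : (0 : ℝ) ≤ N := Nat.cast_nonneg N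
  have hlg : Real.log 2 ≤ 1 := by
    have := Real.log_two_lt_d9
    linarith only [this]
  have hlg0 : 0 ≤ Real.log 2 := Real.log_nonneg one_le_two
  -- the constants
  have hτ0 : 0 ≤ |2 - τ| := abs_nonneg _
  have hSτ0 : 0 ≤ |2 - τ| * S := mul_nonneg hτ0 hSp.le
  obtain ⟨K, hK⟩ : ∃ K, K = 11 * S + 4 * (|2 - τ| * S) + 3 * C := ⟨_, rfl⟩
  have hK0 : 0 < K := by
    rw [hK]
    linarith only [hSτ0, hC, hSp]
  obtain ⟨θ, hθ⟩ : ∃ θ, θ = min (1 / (4 * S)) (c / K) := ⟨_, rfl⟩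
  have hθ0 : 0 < θ := by
    rw [hθ]
    exact lt_min (by positivity) (div_pos hc hK0)
  have hθ1 : S * θ ≤ 1 / 4 := by
    have h1 : θ ≤ 1 / (4 * S) := by rw [hθ]; exact min_le_left _ _
    rw [le_div_iff₀ (by linarith only [hSp])] at h1
    linarith only [h1]
  have hθK : K * θ ≤ c := by
    have h1 : θ ≤ c / K := by rw [hθ]; exact min_le_right _ _
    rw [le_div_iff₀ hK0] at h1
    linarith only [h1]
  obtain ⟨R, hR⟩ : ∃ R : ℝ, R = 2 * (N + 1) / (S - 1) := ⟨_, rfl⟩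
  have hRS : R * (S - 1) = 2 * (N + 1) := by
    rw [hR]
    field_simp
  have hR0 : 0 < R := by
    rw [hR]
    positivity
  obtain ⟨e, he⟩ : ∃ e, e = θ / R := ⟨_, rfl⟩
  have he0 : 0 < e := by
    rw [he]
    exact div_pos hθ0 hR0
  have heR : e * R = θ := by
    rw [he]
    field_simp
  obtain ⟨r₁, hr₁, H1⟩ := hder e he0
  obtain ⟨r₂, hr₂, H2⟩ := hnum e he0
  obtain ⟨r₃, hr₃, H3⟩ := hfree
  obtain ⟨m₀, hm₀⟩ : ∃ m₀, m₀ = min (min (min r₁ r₂) (min r₃ (min (x - A) (B - x))))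
      (min (min lam lam) (min (1 - (u₀ + φ)) (min (u₀ - (x + s)) (ℓ - (u₀ - (x + s)))))) := ⟨_, rfl⟩
  have hm0 : 0 < m₀ := by
    rw [hm₀]
    refine lt_min (lt_min (lt_min hr₁ hr₂) (lt_min hr₃ (lt_min ?_ ?_)))
      (lt_min (lt_min hlam hlam) (lt_min ?_ (lt_min ?_ ?_)))
    · linarith only [hxA]
    · linarith only [hxB]
    · linarith only [hφ1]
    · linarith only [hu]
    · linarith only [hℓ]
  have y0 := hm₀.le
  simp only [le_min_iff] at y0
  obtain ⟨⟨⟨y1, y2⟩, y3, y4, y5⟩, ⟨-, y7⟩, y8, y9, y10⟩ := y0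
  have y6 := hφ
  have hSR : 0 < S * R := mul_pos hSp hR0
  obtain ⟨β, hβ⟩ : ∃ β, β = min β₁ (m₀ / (20 * (S * R) + 200 * (N + 1))) := ⟨_, rfl⟩
  have hRp : 0 < 20 * (S * R) + 200 * ((N : ℝ) + 1) := by linarith only [hSR, hN0]
  have hβ0 : 0 < β := by
    rw [hβ]
    exact lt_min hβ₁ (div_pos hm0 hRp)
  have hββ : β ≤ β₁ := by rw [hβ]; exact min_le_left _ _
  obtain ⟨r, hr⟩ : ∃ r, r = R * β := ⟨_, rfl⟩
  have hr0 : 0 < r := by rw [hr]; exact mul_pos hR0 hβ0
  have hNβ0 : 0 ≤ (N : ℝ) * β := mul_nonneg hN0 hβ0.le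
  have hrs : 20 * (S * r) + 200 * (N * β + β) ≤ m₀ := by
    have h1 : β ≤ m₀ / (20 * (S * R) + 200 * (N + 1)) := by rw [hβ]; exact min_le_right _ _
    rw [le_div_iff₀ hRp] at h1
    rw [hr]
    linarith only [h1]
  have hrS : r ≤ S * r := by
    have h1 : 1 * r ≤ S * r := mul_le_mul_of_nonneg_right hS1.le hr0.le
    linarith only [h1]
  have hrm : 20 * r + 200 * β + 200 * (N * β) ≤ m₀ := by
    linarith only [hrs, hrS]
  obtain ⟨E, hE⟩ : ∃ E, E = θ * β := ⟨_, rfl⟩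
  have hE0 : 0 < E := by rw [hE]; exact mul_pos hθ0 hβ0
  have heE : e * r = E := by
    rw [hr, hE, ← heR]
    ring
  obtain ⟨T, hT⟩ : ∃ T, T = S * E := ⟨_, rfl⟩
  have hT1 : T ≤ 1 / 4 * β := by
    have h1 := mul_le_mul_of_nonneg_right hθ1 hβ0.le
    rw [hT, hE]
    linarith only [h1]
  have hET : E ≤ T := by
    have h1 : 1 * E ≤ S * E := mul_le_mul_of_nonneg_right hS1.le hE0.le
    rw [hT]
    linarith only [h1]
  have hT0 : 0 < T := lt_of_lt_of_le hE0 hET
  have hE1 : E ≤ 1 / 4 * β := hET.trans hT1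
  obtain ⟨h, hh⟩ : ∃ h, h = c * β := ⟨_, rfl⟩
  have hh0 : 0 < h := by rw [hh]; exact mul_pos hc hβ0
  have hh1 : h ≤ 1 / 1000 * β := by
    rw [hh]
    exact mul_le_mul_of_nonneg_right hc1 hβ0.le
  have hKE : 11 * T + 4 * (|2 - τ| * T) + 3 * (C * E) ≤ h := by
    have h1 : K * θ * β ≤ c * β := mul_le_mul_of_nonneg_right hθK hβ0.le
    have h2 : K * θ * β = 11 * (S * (θ * β)) + 4 * (|2 - τ| * (S * (θ * β))) +
        3 * (C * (θ * β)) := by
      rw [hK]
      ring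
    rw [← hE, ← hT] at h2
    rw [hh]
    linarith only [h1, h2]
  have hτE : 0 ≤ |2 - τ| * T := mul_nonneg hτ0 hT0.le
  have hCE : 0 ≤ C * E := mul_nonneg hC hE0.le
  -- the steps
  obtain ⟨a, ha⟩ : ∃ a, a = β / S := ⟨_, rfl⟩
  have haS : S * a = β := by
    rw [ha]
    field_simp
  have ha0 : 0 < a := by rw [ha]; exact div_pos hβ0 hSp
  have ha2 : E ≤ 1 / 4 * a := by
    have h1 : S * E ≤ S * (1 / 4 * a) := by
      rw [← hT]
      have h2 : S * (1 / 4 * a) = 1 / 4 * (S * a) := by ring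
      rw [h2, haS]
      exact hT1
    exact le_of_mul_le_mul_left h1 hSp
  obtain ⟨d, hd⟩ : ∃ d, d = β / (S - 1) := ⟨_, rfl⟩
  have hdS : (S - 1) * d = β := by
    rw [hd]
    field_simp
  have hd0 : 0 < d := by rw [hd]; exact div_pos hβ0 hS0
  have had' : a ≤ d := by
    have h1 : (S - 1) * a ≤ (S - 1) * d := by
      rw [hdS, ← haS]
      exact mul_le_mul_of_nonneg_right (by linarith only) ha0.le
    exact le_of_mul_le_mul_left h1 hS0
  have had : ∀ k ≤ mp, ((n k + ρ k : ℕ) : ℝ) * a ≤ n k * d := by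
    intro k hk
    obtain ⟨-, -, -, g4⟩ := hn k hk
    have h1 : (S - 1) * (((n k + ρ k : ℕ) : ℝ) * a) ≤ (S - 1) * (n k * d) := by
      have h2 : (S - 1) * (n k * d) = n k * ((S - 1) * d) := by ring
      rw [h2, hdS, ← haS]
      have h3 := mul_le_mul_of_nonneg_right g4 ha0.le
      push_cast
      linarith only [h3]
    exact le_of_mul_le_mul_left h1 hS0
  have hrd : r = 2 * (((N : ℝ) + 1) * d) := by
    have h1 : (S - 1) * r = (S - 1) * (2 * (((N : ℝ) + 1) * d)) := by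
      have h2 : (S - 1) * r = R * (S - 1) * β := by rw [hr]; ring
      have h3 : (S - 1) * (2 * (((N : ℝ) + 1) * d)) = 2 * (N + 1) * ((S - 1) * d) := by ring
      rw [h2, h3, hRS, hdS]
    exact mul_left_cancel₀ hS0.ne' h1
  have hNd0 : 0 ≤ (N : ℝ) * d := mul_nonneg hN0 hd0.le
  have hEd : E ≤ 1 / 4 * d := by linarith only [ha2, had']
  -- the windows
  obtain ⟨W, hW1, hW2⟩ := exists_rat_btwn (show x - E < x by linarith only [hE0])
  have hX : ∀ j : ℕ, ∃ X : ℚ, x + j * a < X ∧ (X : ℝ) < x + j * a + E := fun j =>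
    exists_rat_btwn (by linarith only [hE0])
  choose X' hX1 hX2 using hX
  have hDD : ∀ k : ℕ, ∃ X : ℚ, x + n k * d + 2 * E < X ∧ (X : ℝ) < x + n k * d + 3 * E := fun k =>
    exists_rat_btwn (by linarith only [hE0])
  choose Df hD1 hD2 using hDD
  obtain ⟨O, hO1, hO2⟩ := exists_rat_btwn (show x + ((N : ℝ) + 1) * d < x + ((N : ℝ) + 1) * d + E
    by linarith only [hE0])
  obtain ⟨q₁, hq1, hq2⟩ := exists_rat_btwn (show x + E < x + 2 * E by linarith only [hE0])
  obtain ⟨g, hg1, hg2⟩ := exists_rat_btwn (show φ - 3 * E < φ - 2 * E by linarith only [hE0])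
  obtain ⟨Xf, hXf⟩ : ∃ Xf : ℕ → ℚ, Xf = fun j => if j = 0 then W else X' j := ⟨_, rfl⟩
  have hX0 : Xf 0 = W := by rw [hXf]; simp
  have hXj : ∀ j, j ≠ 0 → Xf j = X' j := fun j hj => by rw [hXf]; simp [hj]
  -- bounds of the windows
  have hXl : ∀ j : ℕ, x + j * a - E ≤ Xf j ∧ (Xf j : ℝ) ≤ x + j * a + E := by
    intro j
    by_cases hj : j = 0
    · rw [hj, hX0]
      push_cast
      constructor <;> linarith only [hW1, hW2, hE0]
    · rw [hXj j hj]
      have h1 := hX1 j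
      have h2 := hX2 j
      constructor <;> linarith only [h1, h2, hE0]
  have hXm : ∀ j j' : ℕ, j ≤ j' → Xf j ≤ Xf j' := by
    intro j j' hjj
    rcases eq_or_lt_of_le hjj with h1 | h1
    · rw [h1]
    have h2 : j' ≠ 0 := by omega
    have h3 := hX1 j'
    have h4 : ((j : ℝ) + 1) * a ≤ j' * a :=
      mul_le_mul_of_nonneg_right (by exact_mod_cast h1) ha0.le
    have h5 : (Xf j : ℝ) < Xf j' := by
      rw [hXj j' h2]
      have h6 := (hXl j).2
      linarith only [h3, h4, h6, ha2, ha0]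
    exact_mod_cast h5.le
  have hXr : ∀ j ≤ N, (j : ℝ) * a ≤ N * d := by
    intro j hj
    have h1 : (j : ℝ) * a ≤ N * a := mul_le_mul_of_nonneg_right (by exact_mod_cast hj) ha0.le
    have h2 : (N : ℝ) * a ≤ N * d := mul_le_mul_of_nonneg_left had' hN0
    linarith only [h1, h2]
  have hDr : ∀ k ≤ mp, (n k : ℝ) * d ≤ N * d ∧ 0 ≤ (n k : ℝ) * d := by
    intro k hk
    have h1 : n k ≤ N := by
      have := hn k hk
      omega
    exact ⟨mul_le_mul_of_nonneg_right (by exact_mod_cast h1) hd0.le, by positivity⟩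
  obtain ⟨q, hq⟩ : ∃ q : Bix mp N → ℚ, q = fun i => Sum.elim (fun j : Fin (N + 1) => Xf j.1)
    (fun k => Option.elim k O (fun k => Df k.1)) i := ⟨_, rfl⟩
  have hall : ∀ P : ℚ → Prop, (∀ j ≤ N, P (Xf j)) → (∀ k ≤ mp, P (Df k)) → P O →
      ∀ i, P (q i) := by
    intro P h1 h2 h3
    rw [hq]
    rintro (⟨j, hj⟩ | (_ | ⟨k, hk⟩))
    · exact h1 j (by omega)
    · exact h3
    · exact h2 k (by omega)
  have eX : ∀ j ≤ N, q (bX mp N j) = Xf j := by
    intro j hj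
    rw [hq]
    show Xf (min j N) = Xf j
    rw [min_eq_left hj]
  have eX0 : q (bX mp N 0) = W := by rw [eX 0 (Nat.zero_le _), hX0]
  have eD : ∀ k ≤ mp, q (bD mp N k) = Df k := by
    intro k hk
    rw [hq]
    show Df (min k mp) = Df k
    rw [min_eq_left hk]
  have eO : q (bO mp N) = O := by
    rw [hq]
    rfl
  have hWO : W ≤ O := by
    have h1 : (W : ℝ) ≤ O := by linarith only [hW2, hO1, hNd0, hd0]
    exact_mod_cast h1
  -- all windows are between `W` and `O`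
  have hlo : ∀ i, W ≤ q i := by
    refine hall (fun z => W ≤ z) (fun j hj => ?_) (fun k hk => ?_) hWO
    · rw [← hX0]
      exact hXm 0 j (Nat.zero_le _)
    · have h1 := hD1 k
      have h2 := (hDr k hk).2
      have h3 : (W : ℝ) ≤ Df k := by linarith only [hW2, h1, h2, hE0]
      exact_mod_cast h3
  have hhi : ∀ i, q i ≤ O := by
    refine hall (fun z => z ≤ O) (fun j hj => ?_) (fun k hk => ?_) le_rfl
    · have h1 := (hXl j).2
      have h2 := hXr j hj
      have h3 : (Xf j : ℝ) ≤ O := by linarith only [h1, h2, hO1, hEd, hd0]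
      exact_mod_cast h3
    · have h1 := hD2 k
      have h2 := (hDr k hk).1
      have h3 : (Df k : ℝ) ≤ O := by linarith only [h1, h2, hO1, hEd, hd0]
      exact_mod_cast h3
  have hWr : x - r ≤ W := by linarith only [hW1, hEd, hrd, hNd0, hd0]
  have hOr : (O : ℝ) ≤ x + r := by linarith only [hO2, hEd, hrd, hNd0, hd0]
  have hql : ∀ i, (W : ℝ) ≤ q i ∧ (q i : ℝ) ≤ O := fun i =>
    ⟨by exact_mod_cast hlo i, by exact_mod_cast hhi i⟩
  have hq1O : (q₁ : ℝ) ≤ O := by linarith only [hq2, hO1, hEd, hd0, hNd0]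
  have hq1W : (W : ℝ) ≤ q₁ := by linarith only [hq1, hW2, hE0]
  have rr₁ : r < r₁ := by linarith only [y1, hrm, hr0, hβ0, hNβ0]
  have rr₂ : r < r₂ := by linarith only [y2, hrm, hr0, hβ0, hNβ0]
  have rr₃ : r < r₃ := by linarith only [y3, hrm, hr0, hβ0, hNβ0]
  -- the numbers
  have hU : ∀ w : ℚ, (W : ℝ) ≤ w → (w : ℝ) ≤ O →
      (u₀ + S * (w - x) - E ≤ U w ∧ U w ≤ u₀ + S * (w - x) + E) ∧
      (u₀ + φ + S * (w - x) - E ≤ D w ∧ D w ≤ u₀ + φ + S * (w - x) + E) := by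
    intro w h1 h2
    obtain ⟨h3, h4⟩ := H1 r hr0 rr₁ w (by linarith only [h1, hWr]) (by linarith only [h2, hOr])
    rw [heE] at h3 h4
    have h5 := abs_le.1 h3
    have h6 := abs_le.1 h4
    exact ⟨⟨by linarith only [h5.1], by linarith only [h5.2]⟩,
      ⟨by linarith only [h6.1], by linarith only [h6.2]⟩⟩
  have hn1 : ∀ w o : ℚ, (W : ℝ) ≤ w → w ≤ o → (o : ℝ) ≤ O → GC U D g w o ∧
      |nJ g w o - fJ * (o - w)| ≤ C * E ∧ |nD g w o - fD * (o - w)| ≤ C * E := by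
    intro w o h1 h2 h3
    obtain ⟨h4, h5⟩ := H2 r hr0 rr₂ w o (by linarith only [h1, hWr]) h2
      (by linarith only [h3, hOr])
    rw [heE] at h4 h5
    exact ⟨h4 g hg2, h5 g (by linarith only [hg1, hE0]) hg2⟩
  have hS2E : ∀ z : ℝ, 0 ≤ z → z ≤ E → 0 ≤ S * z ∧ S * z ≤ T := by
    intro z h1 h2
    rw [hT]
    exact ⟨mul_nonneg hSp.le h1, mul_le_mul_of_nonneg_left h2 hSp.le⟩
  have hSX : ∀ j : ℕ, j * β - T ≤ S * (Xf j - x) ∧ S * (Xf j - x) ≤ j * β + T := by
    intro j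
    have e1 : S * ((Xf j : ℝ) - x) = j * (S * a) + S * (Xf j - x - j * a) := by ring
    by_cases hj : j = 0
    · rw [hj, hX0]
      have h1 := hS2E (x - W) (by linarith only [hW2]) (by linarith only [hW1])
      push_cast
      constructor <;> linarith only [h1.1, h1.2, hT0]
    · rw [e1, haS, hXj j hj]
      have h1 := hX1 j
      have h2 := hX2 j
      have h3 := hS2E ((X' j : ℝ) - x - j * a) (by linarith only [h1]) (by linarith only [h2])
      constructor <;> linarith only [h3.1, h3.2, hT0]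
  have hSW : -T ≤ S * (W - x) ∧ S * (W - x) ≤ 0 := by
    have h1 := hS2E (x - W) (by linarith only [hW2]) (by linarith only [hW1])
    constructor <;> linarith only [h1.1, h1.2]
  have hUW : u₀ - T - E ≤ U W ∧ U W ≤ u₀ + E := by
    have h1 := (hU W le_rfl (by exact_mod_cast hWO)).1
    constructor <;> linarith only [h1.1, h1.2, hSW.1, hSW.2]
  have hUWW : U W - W ≤ u₀ - x + E := by
    have h1 := (hU W le_rfl (by exact_mod_cast hWO)).1
    have h2 : (S - 1) * (W - x) ≤ 0 :=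
      mul_nonpos_of_nonneg_of_nonpos hS0.le (by linarith only [hW2])
    have h3 : S * ((W : ℝ) - x) = (S - 1) * (W - x) + (W - x) := by ring
    linarith only [h1.2, h2, h3]
  have hXO : ∀ j ≤ N, (W : ℝ) ≤ Xf j ∧ (Xf j : ℝ) ≤ O := by
    intro j hj
    rw [← eX j hj]
    exact hql _
  -- the difference of the numbers
  have hJD : ∀ j j' : ℕ, j ≤ j' → j' ≤ N →
      |(nJ g (Xf j) (Xf j') - nD g (Xf j) (Xf j')) -
        (2 - τ) * (((j' : ℝ) - j) * β * Real.log 2)| ≤ h := by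
    intro j j' hjj hj'
    obtain ⟨-, k1, k2⟩ := hn1 (Xf j) (Xf j') (hXO j (by omega)).1 (hXm j j' hjj) (hXO j' hj').2
    have s1 := hSX j
    have s2 := hSX j'
    obtain ⟨z, hz⟩ : ∃ z, z = S * ((Xf j' : ℝ) - Xf j) - (((j' : ℝ) - j) * β) := ⟨_, rfl⟩
    have z1 : |z| ≤ 2 * T := by
      rw [hz, abs_le]
      constructor <;> linarith only [s1.1, s1.2, s2.1, s2.2]
    have e1 : (nJ g (Xf j) (Xf j') - nD g (Xf j) (Xf j')) -
        (2 - τ) * (((j' : ℝ) - j) * β * Real.log 2) =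
        (nJ g (Xf j) (Xf j') - fJ * ((Xf j' : ℝ) - Xf j)) -
        (nD g (Xf j) (Xf j') - fD * ((Xf j' : ℝ) - Xf j)) + (2 - τ) * (z * Real.log 2) := by
      have h1 : fJ * ((Xf j' : ℝ) - Xf j) - fD * ((Xf j' : ℝ) - Xf j) =
          (2 - τ) * (S * Real.log 2) * ((Xf j' : ℝ) - Xf j) := by
        rw [← hτ]
        ring
      rw [hz]
      linear_combination h1
    have z2 : |(2 - τ) * (z * Real.log 2)| ≤ |2 - τ| * (2 * T) := by
      rw [abs_mul]
      refine mul_le_mul_of_nonneg_left ?_ hτ0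
      rw [abs_mul, abs_of_nonneg hlg0]
      calc |z| * Real.log 2 ≤ 2 * T * 1 :=
            mul_le_mul z1 hlg hlg0 (by linarith only [hT0])
        _ = 2 * T := mul_one _
    rw [e1]
    have k3 := abs_le.1 k1
    have k4 := abs_le.1 k2
    have k5 := abs_le.1 z2
    have e2 : |2 - τ| * (2 * T) = 2 * (|2 - τ| * T) := by ring
    rw [e2] at k5
    rw [abs_le]
    constructor <;> linarith only [k3.1, k3.2, k4.1, k4.2, k5.1, k5.2, hKE, hT0, hCE, hτE]
  have hadd : ∀ f : ℝ, ∀ nn : ℚ → ℚ → ℚ → ℝ, (∀ w o : ℚ, (W : ℝ) ≤ w → w ≤ o → (o : ℝ) ≤ O →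
      |nn g w o - f * (o - w)| ≤ C * E) → ∀ i j k, q i ≤ q j → q j ≤ q k →
      |nn g (q i) (q k) - nn g (q i) (q j) - nn g (q j) (q k)| ≤ h := by
    intro f nn hnn i j k h1 h2
    have k1 := abs_le.1 (hnn (q i) (q k) (hql i).1 (h1.trans h2) (hql k).2)
    have k2 := abs_le.1 (hnn (q i) (q j) (hql i).1 h1 (hql j).2)
    have k3 := abs_le.1 (hnn (q j) (q k) (hql j).1 h2 (hql k).2)
    rw [abs_le]
    constructor <;> linarith only [k1.1, k1.2, k2.1, k2.2, k3.1, k3.2, hKE, hT0, hτE]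
  refine ⟨β, g, q, q₁, x + s + E, hββ, ?_, ?_, ?_⟩
  · rw [← hh]
    refine
      { β0 := hβ0
        h0 := hh0
        hβ := by linarith only [hh1]
        g0 := ?_
        qAB := fun i => ⟨?_, ?_⟩
        q1B := ?_
        Wb := ?_
        bb := by linarith only [hE0]
        b2 := by linarith only [hq1]
        nN := fun k hk => ⟨(hn k hk).1, (hn k hk).2.1⟩
        XO := fun j _ => ?_
        mX := fun j j' h1 h2 => ?_
        mW := fun i => ?_
        mO := fun i => ?_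
        mD := fun k hk => ⟨?_, ?_⟩
        aX := fun j hj => ?_
        aD := fun k hk => ?_
        aO := ?_
        u1 := ?_
        d1 := ?_
        gc := fun i j hij => (hn1 (q i) (q j) (hql i).1 hij (hql j).2).1
        cl := fun i j hij => ?_
        lamN := ?_
        one := ?_
        b2N := ?_
        ub := ?_
        addJ := hadd fJ nJ fun w o h1 h2 h3 => (hn1 w o h1 h2 h3).2.1
        addD := hadd fD nD fun w o h1 h2 h3 => (hn1 w o h1 h2 h3).2.2
        upp := fun j j' h1 h2 => ?_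
        low := ?_ }
    · linarith only [hg1, y6, hKE, hT0, hET, hτE, hCE]
    · have := (hql i).1
      linarith only [this, hWr, y4, hrm, hr0, hβ0, hNβ0]
    · have := (hql i).2
      linarith only [this, hOr, y5, hrm, hr0, hβ0, hNβ0]
    · linarith only [hq1O, hOr, y5, hrm, hr0, hβ0, hNβ0]
    · rw [eX0]
      linarith only [hW2]
    · unfold bX bO
      exact Sum.inl_ne_inr
    · rw [eX j (h1.trans h2), eX j' h2]
      exact hXm j j' h1
    · rw [eX0]
      exact hlo i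
    · rw [eO]
      exact hhi i
    · obtain ⟨g1, g2, g3, -⟩ := hn k hk
      rw [eX _ g1, eD k hk]
      have h1 := (hXl (n k + γ k)).2
      have h2 := hD1 k
      have h3 : ((n k + γ k : ℕ) : ℝ) * a ≤ ((n k + ρ k : ℕ) : ℝ) * a :=
        mul_le_mul_of_nonneg_right (by exact_mod_cast (by omega : n k + γ k ≤ n k + ρ k)) ha0.le
      have h4 := had k hk
      have h5 : (Xf (n k + γ k) : ℝ) ≤ Df k := by linarith only [h1, h2, h3, h4, hE0]
      exact_mod_cast h5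
    · obtain ⟨g1, g2, g3, -⟩ := hn k hk
      rw [eX _ g2, eD k hk]
      have h1 := (hXl (n k + ρ k)).2
      have h2 := hD1 k
      have h4 := had k hk
      have h5 : (Xf (n k + ρ k) : ℝ) ≤ Df k := by linarith only [h1, h2, h4, hE0]
      exact_mod_cast h5
    · rw [eX j hj, eX0]
      have h1 := (hU (Xf j) (hXO j hj).1 (hXO j hj).2).1
      have h2 := hSX j
      rw [abs_le]
      constructor <;>
        linarith only [h1.1, h1.2, h2.1, h2.2, hUW.1, hUW.2, hKE, hT0, hET, hτE, hCE]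
    · rw [eD k hk, eX0]
      have h0 := hql (bD mp N k)
      rw [eD k hk] at h0
      have h1 := (hU (Df k) h0.1 h0.2).1
      have h2 := hD1 k
      have h3 := hD2 k
      obtain ⟨z, hz⟩ : ∃ z, z = (Df k : ℝ) - x - n k * d := ⟨_, rfl⟩
      have z1 : 2 * E ≤ z := by rw [hz]; linarith only [h2]
      have z2 : z ≤ 3 * E := by rw [hz]; linarith only [h3]
      have e1 : S * ((Df k : ℝ) - x) = (Df k - x) + (n k * ((S - 1) * d) + (S - 1) * z) := by
        rw [hz]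
        ring
      rw [hdS] at e1
      have z3 : (S - 1) * z ≤ 3 * T := by
        have z5 : S * z ≤ S * (3 * E) := mul_le_mul_of_nonneg_left z2 hSp.le
        have z6 : S * (3 * E) = 3 * T := by rw [hT]; ring
        linarith only [z5, z6, z1, hE0]
      have z4 : 0 ≤ (S - 1) * z := mul_nonneg hS0.le (by linarith only [z1, hE0])
      constructor
      · rw [abs_le]
        constructor <;>
          linarith only [h1.1, h1.2, e1, z2, z3, z4, hUW.1, hUW.2, hKE, hT0, hET, hτE, hCE]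
      · rw [abs_le]
        constructor <;>
          linarith only [h1.1, h1.2, e1, z2, z3, z4, hUW.1, hUW.2, hKE, hT0, hET, hτE, hCE]
    · rw [eX0, eO]
      have h1 := (hU O (by exact_mod_cast hWO) le_rfl).1
      have h2 : (S - 1) * (((N : ℝ) + 1) * d) ≤ (S - 1) * (O - x) :=
        mul_le_mul_of_nonneg_left (by linarith only [hO1]) hS0.le
      have h3 : (S - 1) * (((N : ℝ) + 1) * d) = (N + 1) * ((S - 1) * d) := by ring
      rw [h3, hdS] at h2
      have h4 : S * ((O : ℝ) - x) = (S - 1) * (O - x) + (O - x) := by ring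
      linarith only [h1.1, h2, h4, hUWW, hE1, hh1, hβ0]
    · rw [eX0]
      have h1 := (hU q₁ hq1W hq1O).1
      have h2 : S * ((q₁ : ℝ) - x) ≤ 2 * T := by
        have h3 : S * ((q₁ : ℝ) - x) ≤ S * (2 * E) :=
          mul_le_mul_of_nonneg_left (by linarith only [hq2]) hSp.le
        have h4 : S * (2 * E) = 2 * T := by rw [hT]; ring
        linarith only [h3, h4]
      linarith only [h1.2, h2, hUW.1, hKE, hT0, hET, hτE, hCE]
    · rw [eX0]
      have h1 := (hU q₁ hq1W hq1O).2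
      have h2 : S * ((q₁ : ℝ) - x) ≤ 2 * T := by
        have h3 : S * ((q₁ : ℝ) - x) ≤ S * (2 * E) :=
          mul_le_mul_of_nonneg_left (by linarith only [hq2]) hSp.le
        have h4 : S * (2 * E) = 2 * T := by rw [hT]; ring
        linarith only [h3, h4]
      linarith only [h1.2, h2, hUW.1, hKE, hT0, hET, hτE, hCE, hg1]
    · have h1 := (hU (q i) (hql i).1 (hql i).2).1
      have h2 := (hU (q j) (hql j).1 (hql j).2).1
      have h3 : S * ((q j : ℝ) - q i) ≤ 2 * (S * r) := by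
        have a1 := (hql i).1
        have a2 := (hql j).2
        have a3 : S * ((q j : ℝ) - q i) ≤ S * (2 * r) :=
          mul_le_mul_of_nonneg_left (by linarith only [a1, a2, hWr, hOr]) hSp.le
        linarith only [a3]
      have h4 := (hql j).2
      have h5 : U (q j) - U (q i) ≤ 2 * (S * r) + 2 * E := by linarith only [h1.1, h2.2, h3]
      rw [← sub_lt_iff_lt_add', lt_min_iff]
      constructor
      · linarith only [h5, y7, hrs, hrS, hE1, hr0, hβ0, hNβ0]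
      · linarith only [h5, y6, y8, y9, hrs, hrS, hE1, hr0, hβ0, hNβ0, h4, hOr, hφ1, hu]
    · linarith only [hNβ0, y7, hrm, hh1, hβ0, hr0]
    · rw [eX0]
      linarith only [hUW.2, hg2, hNβ0, y8, hrm, hh1, hβ0, hr0, hE1, hE0]
    · linarith only [hNβ0, y6, y9, hrm, hh1, hβ0, hr0, hE1, hE0, hφ1, hu]
    · rw [eX0]
      linarith only [hUW.1, y9, hrm, hh1, hβ0, hr0, hE1, hE0, hT1, hNβ0]
    · rw [eX j (h1.trans h2), eX j' h2]
      have h3 := abs_le.1 (hJD j j' h1 h2)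
      linarith only [h3.2]
    · have g1 := (hn mp le_rfl).1
      rw [eX (n mp) (by omega), eX (n mp + γ mp) g1]
      have h3 := abs_le.1 (hJD (n mp) (n mp + γ mp) (Nat.le_add_right _ _) g1)
      have e1 : ((n mp + γ mp : ℕ) : ℝ) - n mp = γ mp := by
        push_cast
        ring
      rw [e1] at h3
      linarith only [h3.1]
  · rw [eX0, eO]
    have h1 := H3 r hr0 rr₃ W O hWr hWO hOr
    have h2 : c * (S - 1) / (2 * (N + 1)) * r = c * β := by
      rw [hrd, ← hdS]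
      field_simp
    rw [h2] at h1
    exact h1
  · rw [eX0, ← hh]
    linarith only [hUWW, hNβ0, y10, hrm, hh1, hβ0, hr0, hE1, hE0]

end Pool.OWN17
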