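import Pool.Agent.H43.OWN.P5

/-!
# Numbers from a deficit of the entropy

`num_sum`: a zoom with exactness behind a record: if the coordinates have at most
`(n - G) log 2 J` bits given the visible variable, the sum of the numbers in a greedy order is at
least `G`.
`num_def`: three coordinates `y`, `u`, `v` of a zoom, `y` is active: if `y` has at most
`(1 - Y) log 2 J` bits given the visible variable and `u`, `v` have at most `(2 - E) log 2 J` bits
given `y`, and the number of `u` over `y` is at most `U`, then the number of `v` over `y`, `u` is at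
least `Y + E - U - sc w`, or the number of `u` over `y`, `v`.
-/

set_option autoImplicit false

namespace Pool.P62

open Finset Real
open Pool.Agent.H49.Ent Pool.Agent.H32.Dense Pool.STK Pool.KA Pool.KSAT Pool.K2S Pool.PB Pool.S6C
open Pool.GEN Pool.REX Pool.REX83 Pool.OWN43

variable {m n : ℕ}

/-- Two bounds of the same statistic on a nonempty class. -/
theorem of_two {S : PCl m} (hne : S.Ne) {a b : ℝ} {f : ∀ (J : ℕ) (F : Fam m J), (F.Ω → Prop) → ℝ}
    (h1 : ∀ ρ : ℝ, 0 < ρ → Bas S (fun J F A => (a - ρ) * Real.log 2 * J ≤ f J F A))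
    (h2 : ∀ ρ : ℝ, 0 < ρ → Bas S (fun J F A => f J F A ≤ (b + ρ) * Real.log 2 * J)) : a ≤ b := by
  have hl2 : 0 < Real.log 2 := Real.log_pos one_lt_two
  by_contra hcon
  push Not at hcon
  obtain ⟨ρ, hρ⟩ : ∃ ρ, ρ = (a - b) / 4 := ⟨_, rfl⟩
  have hρ0 : 0 < ρ := by rw [hρ]; linarith only [hcon]
  obtain ⟨τ₁, hτ₁, J₁, b₁⟩ := h1 ρ hρ0
  obtain ⟨τ₂, hτ₂, J₂, b₂⟩ := h2 ρ hρ0
  obtain ⟨J, hJ, F, A, hA⟩ := hne (min τ₁ τ₂) (lt_min hτ₁ hτ₂) (J₁ + J₂ + 1)
  have a1 := b₁ J (by omega) F A (S.mono (min_le_left _ _) hA)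
  have a2 := b₂ J (by omega) F A (S.mono (min_le_right _ _) hA)
  have hJ1 : (1 : ℝ) ≤ J := by exact_mod_cast (by omega : 1 ≤ J)
  have hc : 0 < Real.log 2 * (J : ℝ) := mul_pos hl2 (by linarith only [hJ1])
  have a3 : (a - ρ) * (Real.log 2 * J) ≤ (b + ρ) * (Real.log 2 * J) := by
    rw [← mul_assoc, ← mul_assoc]
    exact a1.trans a2
  have a4 := le_of_mul_le_mul_right a3 hc
  rw [hρ] at a4
  linarith only [a4, hcon]

/-- **The sum of the numbers of a zoom with a record.** -/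
theorem num_sum {S : PCl m} (hne : S.Ne) {v : Vz m} {ε : Fin n → Fin m} {p : ℝ} {κ : Fin n}
    {L : Finset (Fin n) → Fin n → ℝ → ℝ → ℝ} (h : RDt S v ε p κ L) {G : ℝ}
    (hG : ∀ ρ : ℝ, 0 < ρ → Bas S (fun J F A =>
      CH (Pool.Agent.H49.Ent.cond F.p A True) (fun ω j => F.X J ω (ε j))
        (fun ω => (v.y J F ω, F.W ω)) ≤ ((n - G) + ρ) * Real.log 2 * J)) :
    ∃ D : Set ℝ, D.Countable ∧ ∀ w : ℝ, 0 < w → w < 1 → w ∉ D →
      ∃ σ : Equiv.Perm (Fin n), w ∈ Wv L (fun j => σ j) ∧ (∀ j : Fin n, (j : ℕ) = 0 → σ j = κ) ∧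
        G ≤ ∑ j : Fin n, (v.b + (1 - v.b) * (p + (1 - p) * vs L (fun j => σ j) w (j + 1))) := by
  obtain ⟨D, hD, hex⟩ := h.exa
  refine ⟨D, hD, fun w hw0 hw1 hwD => ?_⟩
  obtain ⟨σ, h1, h2, h3⟩ := hex w hw0 hw1 hwD
  refine ⟨σ, h1, h2, ?_⟩
  have h4 := of_two hne h3 hG
  rw [Finset.sum_sub_distrib] at h4
  simp only [Finset.sum_const, Finset.card_univ, Fintype.card_fin, nsmul_eq_mul, mul_one] at h4
  linarith only [h4]

/-- The first two numbers of a greedy order which begins with the active coordinate. -/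
theorem vs_three {L : Finset (Fin 3) → Fin 3 → ℝ → ℝ → ℝ} {w : ℝ} {σ : Equiv.Perm (Fin 3)}
    (h0 : σ 0 = 0) (hw : L ∅ 0 w w = w) :
    vs L (fun j => σ j) w 1 = w ∧ vs L (fun j => σ j) w 2 = L {0} (σ 1) w w ∧
      vs L (fun j => σ j) w 3 = L {0, σ 1} (σ 2) w (L {0} (σ 1) w w) := by
  have hv1 : vs L (fun j => σ j) w 1 = w := by
    have h2 := vs_succ L (fun j => σ j) w (0 : Fin 3)
    simp only [Fin.isValue, Fin.val_zero, zero_add] at h2
    rw [h2]
    unfold vn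
    have e1 : ((Finset.Iio (0 : Fin 3)).image fun j => σ j) = ∅ := by
      ext a
      simp
    rw [e1, h0]
    exact hw
  have hv2 : vs L (fun j => σ j) w 2 = L {0} (σ 1) w w := by
    have h2 := vs_succ L (fun j => σ j) w (1 : Fin 3)
    simp only [Fin.isValue, Fin.val_one] at h2
    rw [h2]
    unfold vn
    have e1 : ((Finset.Iio (1 : Fin 3)).image fun j => σ j) = {0} := by
      have e2 : Finset.Iio (1 : Fin 3) = {0} := by decide
      rw [e2, Finset.image_singleton, h0]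
    rw [e1]
    simp only [Fin.isValue, Fin.val_one]
    rw [hv1]
  refine ⟨hv1, hv2, ?_⟩
  have h2 := vs_succ L (fun j => σ j) w (2 : Fin 3)
  simp only [Fin.isValue, Fin.val_two] at h2
  rw [h2]
  unfold vn
  have e1 : ((Finset.Iio (2 : Fin 3)).image fun j => σ j) = {0, σ 1} := by
    have e2 : Finset.Iio (2 : Fin 3) = {0, 1} := by decide
    rw [e2, Finset.image_insert, Finset.image_singleton, h0]
  rw [e1]
  simp only [Fin.isValue, Fin.val_two]
  rw [hv2]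

/-- **Numbers from a deficit.** -/
theorem num_def {S : PCl m} (hne : S.Ne) {C₀ : ℝ} (htm : TmC S C₀) {v : Vz m}
    {ε : Fin 3 → Fin m} {p : ℝ} {L : Finset (Fin 3) → Fin 3 → ℝ → ℝ → ℝ} (h : RDt S v ε p 0 L)
    {Y E U w₀ : ℝ}
    (hy : ∀ ρ : ℝ, 0 < ρ → Bas S (fun J F A => CH (Pool.Agent.H49.Ent.cond F.p A True)
      (fun ω => F.X J ω (ε 0)) (fun ω => (v.y J F ω, F.W ω)) ≤ (1 - Y + ρ) * Real.log 2 * J))
    (huv : ∀ ρ : ℝ, 0 < ρ → Bas S (fun J F A => CH (Pool.Agent.H49.Ent.cond F.p A True)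
      (fun ω => (F.X J ω (ε 1), F.X J ω (ε 2)))
      (fun ω => (F.X J ω (ε 0), (v.y J F ω, F.W ω))) ≤ (2 - E + ρ) * Real.log 2 * J))
    (hU : ∀ w : ℝ, 0 < w → w < w₀ → v.b + (1 - v.b) * (p + (1 - p) * L {0} 1 w w) ≤ U) :
    ∃ D : Set ℝ, D.Countable ∧ ∀ w : ℝ, 0 < w → w < 1 → w < w₀ → w ∉ D →
      (L {0} 1 w w ≤ L {0} 2 w w ∧
        Y + E - U - (v.b + (1 - v.b) * (p + (1 - p) * w)) ≤
          v.b + (1 - v.b) * (p + (1 - p) * L {0, 1} 2 w (L {0} 1 w w))) ∨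
      (L {0} 2 w w ≤ L {0} 1 w w ∧
        Y + E - U - (v.b + (1 - v.b) * (p + (1 - p) * w)) ≤
          v.b + (1 - v.b) * (p + (1 - p) * L {0, 2} 1 w (L {0} 2 w w))) := by
  have hl2 : 0 < Real.log 2 := Real.log_pos one_lt_two
  have hb := v.b0
  have hb1 := v.b1
  have hsum := num_sum hne h (G := Y + E) (fun ρ hρ => by
    refine Bas.mono 0 ((hy (ρ / 2) (by linarith)).and (huv (ρ / 2) (by linarith))) ?_
    rintro J - F A ⟨h2, h3⟩
    have hJ : (0 : ℝ) ≤ J := Nat.cast_nonneg J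
    have h0 : ∀ ω, 0 ≤ Pool.Agent.H49.Ent.cond F.p A True ω := fun ω =>
      cond_nonneg F.isLaw.nonneg A True ω
    have h4 : CH (Pool.Agent.H49.Ent.cond F.p A True) (fun ω (j : Fin 3) => F.X J ω (ε j))
        (fun ω => (v.y J F ω, F.W ω)) ≤ CH (Pool.Agent.H49.Ent.cond F.p A True)
          (fun ω => ((F.X J ω (ε 1), F.X J ω (ε 2)), F.X J ω (ε 0)))
          (fun ω => (v.y J F ω, F.W ω)) := by
      refine CH_mono_left h0 ?_
      intro a a' _ _ h
      simp only [Prod.mk.injEq] at h ⊢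
      funext j
      fin_cases j
      · exact h.1.2
      · exact h.1.1.1
      · exact h.1.1.2
    have h5 := CH_chain h0 (fun ω => (F.X J ω (ε 1), F.X J ω (ε 2))) (fun ω => F.X J ω (ε 0))
      (fun ω => (v.y J F ω, F.W ω))
    have e1 : (((3 : ℕ) : ℝ) - (Y + E) + ρ) * Real.log 2 * J =
        (1 - Y + ρ / 2) * Real.log 2 * J + (2 - E + ρ / 2) * Real.log 2 * J := by
      push_cast
      ring
    rw [e1]
    linarith only [h2, h3, h4, h5])
  obtain ⟨D, hD, hex⟩ := hsum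
  refine ⟨D, hD, fun w hw0 hw1 hww hwD => ?_⟩
  obtain ⟨σ, h1, h2, h3⟩ := hex w hw0 hw1 hwD
  obtain ⟨p0, p1, hL, ⟨Na, al, g₀, hal, hg₀, hM, hB⟩, -⟩ := h
  have hw : L ∅ 0 w w = w := act_num hne htm (atp v p p0.le (p1.trans (by norm_num))) ε hL hal
    hg₀ hM hB hw0.le hw1
  have h0 : σ 0 = 0 := h2 0 rfl
  obtain ⟨hv1, hv2, hv3⟩ := vs_three h0 hw
  have hgr : L {0} (σ 1) w w ≤ L {0} (σ 2) w w := by
    have g1 := h1.2.2.1 1 2 (by decide)
    simp only [Fin.isValue, Fin.val_one] at g1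
    have g2 : vs L (fun j => σ j) w (1 + 1) = vs L (fun j => σ j) w 2 := rfl
    rw [g2, hv2] at g1
    unfold vn at g1
    have e1 : ((Finset.Iio (1 : Fin 3)).image fun j => σ j) = {0} := by
      have e2 : Finset.Iio (1 : Fin 3) = {0} := by decide
      rw [e2, Finset.image_singleton, h0]
    rw [e1] at g1
    simp only [Fin.isValue, Fin.val_one] at g1
    rw [hv1] at g1
    exact g1
  rw [Fin.sum_univ_three] at h3
  simp only [Fin.isValue, Fin.val_zero, zero_add, Fin.val_one, Fin.val_two] at h3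
  have g2 : vs L (fun j => σ j) w (1 + 1) = vs L (fun j => σ j) w 2 := rfl
  have g3 : vs L (fun j => σ j) w (2 + 1) = vs L (fun j => σ j) w 3 := rfl
  rw [g2, g3, hv1, hv2, hv3] at h3
  have hUw := hU w hw0 hww
  have hcases : (σ 1 = 1 ∧ σ 2 = 2) ∨ (σ 1 = 2 ∧ σ 2 = 1) := by
    have n1 : σ 1 ≠ 0 := fun h => by
      have := σ.injective (h.trans h0.symm)
      exact absurd this (by decide)
    have n2 : σ 2 ≠ 0 := fun h => by
      have := σ.injective (h.trans h0.symm)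
      exact absurd this (by decide)
    have n3 : σ 1 ≠ σ 2 := fun h => by
      have := σ.injective h
      exact absurd this (by decide)
    generalize σ 1 = a at n1 n3
    generalize σ 2 = b at n2 n3
    revert n1 n2 n3
    revert a b
    decide
  rcases hcases with ⟨c1, c2⟩ | ⟨c1, c2⟩
  · left
    rw [c1, c2] at hgr h3
    exact ⟨hgr, by linarith only [h3, hUw]⟩
  · right
    rw [c1, c2] at hgr h3
    refine ⟨hgr, ?_⟩
    have hq : v.b + (1 - v.b) * (p + (1 - p) * L {0} 2 w w) ≤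
        v.b + (1 - v.b) * (p + (1 - p) * L {0} 1 w w) := by
      have q1 : (1 - p) * L {0} 2 w w ≤ (1 - p) * L {0} 1 w w :=
        mul_le_mul_of_nonneg_left hgr (by linarith only [p1])
      have q2 : (1 - v.b) * (p + (1 - p) * L {0} 2 w w) ≤
          (1 - v.b) * (p + (1 - p) * L {0} 1 w w) :=
        mul_le_mul_of_nonneg_left (by linarith only [q1]) (by linarith only [hb1])
      linarith only [q2]
    linarith only [h3, hUw, hq]

/-- **Numbers from a deficit**, at small windows of the zoom. -/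
theorem p3_num {S : PCl m} (hne : S.Ne) {C₀ : ℝ} (htm : TmC S C₀) {v : Vz m}
    {ε : Fin 3 → Fin m} {p : ℝ} {L : Finset (Fin 3) → Fin 3 → ℝ → ℝ → ℝ} (h : RDt S v ε p 0 L)
    {Y E Q : ℝ}
    (hy : ∀ ρ : ℝ, 0 < ρ → Bas S (fun J F A => CH (Pool.Agent.H49.Ent.cond F.p A True)
      (fun ω => F.X J ω (ε 0)) (fun ω => (v.y J F ω, F.W ω)) ≤ (1 - Y + ρ) * Real.log 2 * J))
    (huv : Bas S (fun J F A => CH (Pool.Agent.H49.Ent.cond F.p A True)
      (fun ω => (F.X J ω (ε 1), F.X J ω (ε 2)))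
      (fun ω => (F.X J ω (ε 0), (v.y J F ω, F.W ω))) ≤ (2 - E) * Real.log 2 * J))
    (hU : ∃ w₀ : ℝ, 0 < w₀ ∧ ∀ w : ℝ, 0 < w → w < w₀ →
      v.b + (1 - v.b) * (p + (1 - p) * L {0} 1 w w) ≤ Q) {ρ : ℝ} (hρ : 0 < ρ)
    {D : Set ℝ} (hD : D.Countable) {w₁ : ℝ} (hw₁ : 0 < w₁) :
    ∃ w : ℝ, 0 < w ∧ w < w₁ ∧ w < 1 ∧ w ∉ D ∧
      ((L {0} 1 w w ≤ L {0} 2 w w ∧ Y + E - (v.b + (1 - v.b) * p) - Q - ρ ≤
        v.b + (1 - v.b) * (p + (1 - p) * L {0, 1} 2 w (L {0} 1 w w))) ∨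
      (L {0} 2 w w ≤ L {0} 1 w w ∧ Y + E - (v.b + (1 - v.b) * p) - Q - ρ ≤
        v.b + (1 - v.b) * (p + (1 - p) * L {0, 2} 1 w (L {0} 2 w w)))) := by
  have hl2 : 0 < Real.log 2 := Real.log_pos one_lt_two
  obtain ⟨w₀, hw₀, hU⟩ := hU
  obtain ⟨p0, p1, -⟩ := id h
  have hb := v.b0
  have hb1 := v.b1
  obtain ⟨D', hD', hnum⟩ := num_def hne htm h (Y := Y) (E := E) (U := Q) (w₀ := w₀) hy
    (fun r hr => huv.mono 0 (by
      rintro J - F A h2
      refine h2.trans ?_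
      refine mul_le_mul_of_nonneg_right (mul_le_mul_of_nonneg_right ?_ hl2.le)
        (Nat.cast_nonneg J)
      linarith only [hr])) hU
  obtain ⟨w, a1, a2, a3⟩ := small_win (hD'.union hD) (x := min (min w₀ w₁) (min 1 ρ))
    (lt_min (lt_min hw₀ hw₁) (lt_min one_pos hρ))
  have b1 : w < w₀ ∧ w < w₁ ∧ w < 1 ∧ w < ρ := by
    simp only [lt_min_iff] at a2
    tauto
  obtain ⟨b1, b2, b3, b4⟩ := b1
  have a4 : w ∉ D' ∧ w ∉ D := by
    simpa only [Set.mem_union, not_or] using a3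
  have hc : (1 - v.b) * ((1 - p) * w) ≤ w := by
    have h1 : (1 - v.b) * (1 - p) ≤ 1 :=
      mul_le_one₀ (by linarith only [hb]) (by linarith only [p1]) (by linarith only [p0])
    have h2 := mul_le_mul_of_nonneg_right h1 a1.le
    linarith only [h2]
  refine ⟨w, a1, b2, b3, a4.2, ?_⟩
  rcases hnum w a1 b3 b1 a4.1 with ⟨c1, c2⟩ | ⟨c1, c2⟩
  · exact Or.inl ⟨c1, by linarith only [c2, hc, b4]⟩
  · exact Or.inr ⟨c1, by linarith only [c2, hc, b4]⟩

end Pool.P62
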