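import Pool.Agent.H6.OWN.TieD
import Pool.Agent.H99.GEN.Gr

/-!
# The composition of two closed labels

`comp_fam`: a label of `k` over `ι` and `I`, with the derivative at most `c` in the direction of `ι`,
and a label of `ι` over `I` give a label of `k` over `I`, on one half of the event.
-/

set_option autoImplicit false

namespace Pool.P62

open Finset MvPolynomial
open Pool.Agent.H49.Ent Pool.Agent.H32.Dense Pool.STK Pool.KA Pool.KSAT Pool.K2S Pool.PB Pool.GEN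
open Pool.S6C
open Pool.FLF (Fam.sub)

variable {m J : ℕ}

/-- The substitution of a polynomial for the coordinate `ι`. -/
noncomputable def sb (ι : Fin m) (P : MvPolynomial (Option (Fin m)) ℝ) (o : Option (Fin m)) :
    MvPolynomial (Option (Fin m)) ℝ :=
  if o = some ι then P else X o

theorem eval_sb (ι : Fin m) (P : MvPolynomial (Option (Fin m)) ℝ) (b : Option (Fin m) → ℝ) :
    (fun o => eval b (sb ι P o)) = Function.update b (some ι) (eval b P) := by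
  funext o
  unfold sb
  by_cases ho : o = some ι
  · rw [if_pos ho, ho, Function.update_self]
  · rw [if_neg ho, Function.update_of_ne ho, eval_X]

theorem deg_sb {ι : Fin m} {P : MvPolynomial (Option (Fin m)) ℝ} {K : ℕ} (hK : 1 ≤ K)
    (hP : P.totalDegree ≤ K) (o : Option (Fin m)) : (sb ι P o).totalDegree ≤ K := by
  unfold sb
  split_ifs
  · exact hP
  · rw [totalDegree_X]
    exact hK

theorem pd_sb (ι : Fin m) (P : MvPolynomial (Option (Fin m)) ℝ) (b : Option (Fin m) → ℝ)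
    (i o : Option (Fin m)) {M : ℝ} (hM : |eval b (pderiv o P)| ≤ M) (hM0 : 0 ≤ M) :
    |eval b (pderiv o (sb ι P i))| ≤ M + 1 := by
  classical
  unfold sb
  split_ifs
  · exact hM.trans (by linarith only)
  · rw [pderiv_X, Pi.single_apply]
    split_ifs
    · rw [map_one, abs_one]
      linarith only [hM0]
    · rw [map_zero, abs_zero]
      linarith only [hM0]

/-- **The composition of two closed labels.** -/
theorem comp_fam (m K : ℕ) (hK : 1 ≤ K) : ∃ C : ℝ, 1 ≤ C ∧ ∀ {J : ℕ} (F : Fam m J)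
    (A : F.Ω → Prop) (hA : 0 < Pe F.p A) {I : Finset (Fin m)} {ι k : Fin m}
    {e₁ e₂ r w ρ₁ ρ₂ P₁ P₂ : ℕ} {V₁ V₂ : Type}
    {z₁ : PtT F → V₁} {z₁' : LnT F → V₁} {G₁ : V₁ → MvPolynomial (Option (Fin m)) ℝ}
    {z₂ : PtT F → V₂} {z₂' : LnT F → V₂} {G₂ : V₂ → MvPolynomial (Option (Fin m)) ℝ}
    {c θ : ℝ},
    LbOK F (insert ι I) k K e₁ r w ρ₁ P₁ A z₁ z₁' G₁ → LbOK F I ι K e₂ r w ρ₂ P₂ A z₂ z₂' G₂ →
    0 ≤ c →
    (∀ ω, A ω → ∀ b : Option (Fin m) → ℝ, (∀ o, |b o - bt F ω o| ≤ 1 / 2 ^ ρ₁) →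
      |eval b (pderiv (some ι) (G₁ (z₁' (slam F w ω))))| ≤ c) →
    w ≤ J → 0 ≤ θ → (Fam.sub F A hA).Tm θ → C * (θ + 1) ≤ ((J : ℝ) - w) * Real.log 2 →
    ρ₁ + 1 ≤ P₂ → ∀ {e ρ P : ℕ}, ((m : ℝ) + 1) * 2 ^ e₁ * (2 ^ e₂ + 1) ≤ 2 ^ e → ρ₁ ≤ ρ → ρ₂ ≤ ρ →
    ((m : ℝ) + 1) * 2 ^ e₂ / 2 ^ ρ ≤ 1 / 2 ^ (ρ₁ + 1) →
    Real.exp (C * (θ + 1)) * (1 / 2 ^ P₁ + c / 2 ^ P₂) ≤ 1 / 2 ^ P →
    ∃ B : F.Ω → Prop, Sub B A ∧ Pe F.p A / 2 ≤ Pe F.p B ∧ Lb F I k (K * K) e r w ρ P B := by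
  classical
  obtain ⟨C, hC, hvel⟩ := Pool.GRD.vel_one m (K * K)
  refine ⟨C, hC, ?_⟩
  intro J F A hA I ι k e₁ e₂ r w ρ₁ ρ₂ P₁ P₂ V₁ V₂ z₁ z₁' G₁ z₂ z₂' G₂ c θ h₁ h₂ hc hcb hw hθ hTm
    hJ hP₂ e ρ P he hρ₁ hρ₂ hρ hP
  obtain ⟨G, hG⟩ : ∃ G : V₁ × V₂ → MvPolynomial (Option (Fin m)) ℝ, G = fun x =>
    aeval (sb ι (G₂ x.2)) (G₁ x.1) := ⟨_, rfl⟩
  have hGe : ∀ x b, eval b (G x) = eval (Function.update b (some ι) (eval b (G₂ x.2))) (G₁ x.1) := by
    intro x b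
    rw [hG]
    show eval b (aeval (sb ι (G₂ x.2)) (G₁ x.1)) = _
    rw [eval_aevalσ, eval_sb]
  have hGd : ∀ x, (G x).totalDegree ≤ K * K := by
    intro x
    rw [hG]
    exact totalDegree_aevalσ (deg_sb hK (h₂.deg _)) (h₁.deg _)
  have p2 : (0 : ℝ) < 2 ^ P₂ := by positivity
  have p1 : (0 : ℝ) < 2 ^ P₁ := by positivity
  have pr : (0 : ℝ) < 2 ^ ρ₁ := by positivity
  -- positions of the second coordinate
  have hpos2 : ∀ ω, A ω → |eval (bt F ω) (G₂ (z₂' (slam F w ω))) - F.x ω ι| ≤ 1 / 2 ^ P₂ := by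
    intro ω hω
    rw [abs_sub_comm]
    exact h₂.pos ω hω
  have hhalf : (1 : ℝ) / 2 ^ (ρ₁ + 1) + 1 / 2 ^ (ρ₁ + 1) = 1 / 2 ^ ρ₁ := by
    rw [pow_succ]
    field_simp
    norm_num
  -- positions
  have hpos : ∀ ω, A ω → |F.x ω k - eval (bt F ω) (G (z₁' (slam F w ω), z₂' (slam F w ω)))| ≤
      1 / 2 ^ P₁ + c / 2 ^ P₂ := by
    intro ω hω
    have a1 := h₁.pos ω hω
    have a2 := hpos2 ω hω
    obtain ⟨g, hg⟩ : ∃ g, g = eval (bt F ω) (G₂ (z₂' (slam F w ω))) := ⟨_, rfl⟩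
    rw [← hg] at a2
    have a3 := Pool.MIC6.mva (G₁ (z₁' (slam F w ω))) (bt F ω)
      (Function.update (bt F ω) (some ι) g) (fun o => if o = some ι then c else 0) (by
        intro y hy i hi
        have hi' : i = some ι := by
          by_contra h
          exact hi (Function.update_of_ne h _ _)
        show _ ≤ if i = some ι then c else 0
        rw [if_pos hi', hi']
        refine hcb ω hω y fun o => (hy o).trans ?_
        by_cases ho : o = some ι
        · rw [ho, Function.update_self]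
          refine a2.trans (inv_mono (by omega))
        · rw [Function.update_of_ne ho, sub_self, abs_zero]
          positivity)
    have a4 : ∑ o, (if o = some ι then c else 0) *
        |Function.update (bt F ω) (some ι) g o - bt F ω o| ≤ c / 2 ^ P₂ := by
      rw [Finset.sum_eq_single (some ι) (fun o _ ho => by rw [if_neg ho, zero_mul])
        (fun h => absurd (Finset.mem_univ _) h), if_pos rfl, Function.update_self,
        div_eq_mul_one_div]
      exact mul_le_mul_of_nonneg_left a2 hc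
    rw [hGe]
    show |F.x ω k - eval (Function.update (bt F ω) (some ι)
      (eval (bt F ω) (G₂ (z₂' (slam F w ω))))) (G₁ (z₁' (slam F w ω)))| ≤ _
    rw [← hg]
    have e1 : F.x ω k - eval (Function.update (bt F ω) (some ι) g) (G₁ (z₁' (slam F w ω))) =
      (F.x ω k - eval (bt F ω) (G₁ (z₁' (slam F w ω)))) -
      (eval (Function.update (bt F ω) (some ι) g) (G₁ (z₁' (slam F w ω))) -
        eval (bt F ω) (G₁ (z₁' (slam F w ω)))) := by ring
    rw [e1]
    exact (abs_sub _ _).trans (add_le_add a1 (a3.trans a4))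
  have hS0 : (0 : ℝ) < 1 / 2 ^ P₁ + c / 2 ^ P₂ := by positivity
  obtain ⟨B, hBA, hPB, hB⟩ := hvel J F A hA w (fun s => G (z₁' s, z₂' s)) k
    (1 / 2 ^ P₁ + c / 2 ^ P₂) θ hw (fun s => hGd _) hS0 hθ hTm hJ hpos
  have hE1 : (1 : ℝ) ≤ Real.exp (C * (θ + 1)) := Real.one_le_exp (by positivity)
  refine ⟨B, hBA, hPB, V₁ × V₂, fun x => (z₁ x, z₂ x), fun s => (z₁' s, z₂' s), G,
    ⟨hGd, fun x b b' hn hb => ?_, fun ω hω => ?_, fun ω hω => ?_, fun ω hω => ?_,
      fun ω hω b hb o => ?_⟩⟩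
  · rw [hGe, hGe, h₂.dep x.2 b b' hn hb]
    refine h₁.dep x.1 _ _ ?_ fun i hi => ?_
    · rw [Function.update_of_ne (by simp), Function.update_of_ne (by simp)]
      exact hn
    · by_cases h : i = ι
      · rw [h, Function.update_self, Function.update_self]
      · have h' : (some i : Option (Fin m)) ≠ some ι := fun hh => h (Option.some_injective _ hh)
        rw [Function.update_of_ne h', Function.update_of_ne h']
        exact hb i (Finset.mem_of_mem_insert_of_ne hi h)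
  · exact Prod.ext (h₁.cls ω (hBA ω hω)) (h₂.cls ω (hBA ω hω))
  · refine (hpos ω (hBA ω hω)).trans (le_trans ?_ hP)
    exact le_mul_of_one_le_left hS0.le hE1
  · refine (hB ω hω).trans ?_
    have h1 := mul_le_mul_of_nonneg_left hP (by positivity : (0 : ℝ) ≤ 2 ^ w)
    calc Real.exp (C * (θ + 1)) * 2 ^ w * (1 / 2 ^ P₁ + c / 2 ^ P₂) =
          2 ^ w * (Real.exp (C * (θ + 1)) * (1 / 2 ^ P₁ + c / 2 ^ P₂)) := by ring
      _ ≤ 2 ^ w * (1 / 2 ^ P) := h1
      _ = 2 ^ w / 2 ^ P := by ring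
  · have hAω := hBA ω hω
    obtain ⟨x, hx⟩ : ∃ x : V₁ × V₂, x = (z₁' (slam F w ω), z₂' (slam F w ω)) := ⟨_, rfl⟩
    have hx1 : G₁ (z₁' (slam F w ω)) = G₁ x.1 := by rw [hx]
    have hx2 : G₂ (z₂' (slam F w ω)) = G₂ x.2 := by rw [hx]
    have hlip1 := h₁.lip ω hAω
    have hlip2 := h₂.lip ω hAω
    have hp2 := hpos2 ω hAω
    rw [hx1] at hlip1
    rw [hx2] at hlip2 hp2
    show |eval b (pderiv o (G (z₁' (slam F w ω), z₂' (slam F w ω))))| ≤ 2 ^ e
    rw [← hx]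
    have hb2 : ∀ o, |b o - bt F ω o| ≤ 1 / 2 ^ ρ₂ := fun o => (hb o).trans (inv_mono hρ₂)
    -- the moved point
    have hmv : |eval b (G₂ x.2) - F.x ω ι| ≤ 1 / 2 ^ ρ₁ := by
      have a1 := mvσ (G₂ x.2) (bt F ω) b (2 ^ e₂) (fun y hy i =>
        hlip2 y (fun o => (hy o).trans (hb2 o)) i)
      have a2 : (2 : ℝ) ^ e₂ * ∑ i, |b i - bt F ω i| ≤ ((m : ℝ) + 1) * 2 ^ e₂ / 2 ^ ρ := by
        have a3 : ∑ i, |b i - bt F ω i| ≤ ∑ _i : Option (Fin m), (1 : ℝ) / 2 ^ ρ :=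
          Finset.sum_le_sum fun i _ => hb i
        rw [Finset.sum_const, Finset.card_univ, Fintype.card_option, Fintype.card_fin,
          nsmul_eq_mul] at a3
        push_cast at a3
        have a4 := mul_le_mul_of_nonneg_left a3 (by positivity : (0 : ℝ) ≤ 2 ^ e₂)
        refine a4.trans (le_of_eq ?_)
        ring
      have a5 : |eval b (G₂ x.2) - F.x ω ι| ≤ |eval b (G₂ x.2) - eval (bt F ω) (G₂ x.2)| +
          |eval (bt F ω) (G₂ x.2) - F.x ω ι| := abs_sub_le _ _ _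
      have a6 : (1 : ℝ) / 2 ^ P₂ ≤ 1 / 2 ^ (ρ₁ + 1) := inv_mono hP₂
      linarith only [a1, a2, a5, a6, hρ, hp2, hhalf]
    have hG' : eval b (pderiv o (G x)) = ∑ i, eval (Function.update b (some ι)
        (eval b (G₂ x.2))) (pderiv i (G₁ x.1)) * eval b (pderiv o (sb ι (G₂ x.2) i)) := by
      rw [hG]
      show eval b (pderiv o (aeval (sb ι (G₂ x.2)) (G₁ x.1))) = _
      rw [pd_aeval, map_sum]
      refine Finset.sum_congr rfl fun i _ => ?_
      rw [map_mul, eval_aevalσ, eval_sb]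
    rw [hG']
    have hball : ∀ i, |Function.update b (some ι) (eval b (G₂ x.2)) i - bt F ω i| ≤ 1 / 2 ^ ρ₁ := by
      intro i
      by_cases hi : i = some ι
      · rw [hi, Function.update_self]
        exact hmv
      · rw [Function.update_of_ne hi]
        exact (hb i).trans (inv_mono hρ₁)
    have hterm : ∀ i, |eval (Function.update b (some ι) (eval b (G₂ x.2))) (pderiv i (G₁ x.1)) *
        eval b (pderiv o (sb ι (G₂ x.2) i))| ≤ 2 ^ e₁ * (2 ^ e₂ + 1) := by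
      intro i
      rw [abs_mul]
      exact mul_le_mul (hlip1 _ hball i) (pd_sb ι (G₂ x.2) b i o (hlip2 b hb2 o) (by positivity))
        (abs_nonneg _) (by positivity)
    refine (Finset.abs_sum_le_sum_abs _ _).trans ?_
    refine (Finset.sum_le_sum fun i _ => hterm i).trans ?_
    rw [Finset.sum_const, Finset.card_univ, Fintype.card_option, Fintype.card_fin, nsmul_eq_mul]
    push_cast
    calc ((m : ℝ) + 1) * (2 ^ e₁ * (2 ^ e₂ + 1)) = ((m : ℝ) + 1) * 2 ^ e₁ * (2 ^ e₂ + 1) := by ring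
      _ ≤ 2 ^ e := he

end Pool.P62
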