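import Pool.Agent.H62.P3.NumC
import Pool.Agent.H6.OWN.Zcr
import Pool.Agent.H6.OWN.Swp

/-!
# The inversion of the affine labels of a zoom

`AfCn.swap`: an affine label of `u` over `y`, `v` is solved for `v`. `inv_cls`: the coefficient of
`v` is not small, if the number of `u` over `y` is less than the number of `v` over `y` plus `x₂`.
-/

set_option autoImplicit false

namespace Pool.P62

open Finset MvPolynomial
open Pool.Agent.H49.Ent Pool.Agent.H32.Dense Pool.STK Pool.KA Pool.KSAT Pool.K2S Pool.PB Pool.GEN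
open Pool.S6C Pool.REX Pool.MIC6
open Pool.FLF (Fam.sub)
open Pool.GRD (LbP)

variable {m n J : ℕ}

/-- Monotonicity of the affine labels of a zoom. -/
theorem AfCn.mono {F : Fam m J} {B P : ℕ} {hP : P ≤ J - B} {Y : Type} {yy : F.Ω → Y}
    {ε : Fin n → Fin m} {κ ι k : Fin n} {w Q Q' e e' : ℕ} {A : F.Ω → Prop}
    {V : Type} {zp : PtT (zmV F hP yy ε) → V} {zs : LnT (zmV F hP yy ε) → V}
    {cf : V → Fin 4 → ℝ} (h : AfCn F hP yy ε κ ι k w Q e A zp zs cf) (hQ : Q' ≤ Q) (he : e ≤ e') :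
    AfCn F hP yy ε κ ι k w Q' e' A zp zs cf :=
  ⟨h.1.mono (Finset.Subset.refl _) le_rfl hQ, fun ω hω =>
    ⟨(h.2 ω hω).1.trans (pow_le_pow_right₀ (by norm_num) he), fun σ hσ =>
      ((h.2 ω hω).2 σ hσ).trans (inv_mono hQ)⟩⟩

/-- **The inversion of an affine label of a zoom.** -/
theorem AfCn.swap {F : Fam m J} {B P : ℕ} {hP : P ≤ J - B} {Y : Type} {yy : F.Ω → Y}
    {ε : Fin n → Fin m} {κ ι k : Fin n} {w Q e g Q' e' : ℕ} {A : F.Ω → Prop}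
    {V : Type} {zp : PtT (zmV F hP yy ε) → V} {zs : LnT (zmV F hP yy ε) → V}
    {cf : V → Fin 4 → ℝ} (h : AfCn F hP yy ε κ ι k w Q e A zp zs cf)
    (h2 : ∀ ω, A ω → |cf (zs (slam (zmV F hP yy ε) w ω)) 2| ≤ 2 ^ e')
    (h3 : ∀ ω, A ω → 1 / 2 ^ g ≤ |cf (zs (slam (zmV F hP yy ε) w ω)) 3|) (hQ : Q' + g ≤ Q) :
    AfCn F hP yy ε κ k ι w Q' g A zp zs (icf cf) ∧
      ∀ ω, A ω → |icf cf (zs (slam (zmV F hP yy ε) w ω)) 2| ≤ 2 ^ (e' + g) := by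
  have hgQ : (2 : ℝ) ^ g * (1 / 2 ^ Q) ≤ 1 / 2 ^ Q' := by
    rw [mul_one_div, div_le_div_iff₀ (by positivity) (by positivity), one_mul, ← pow_add]
    exact pow_le_pow_right₀ (by norm_num) (by omega)
  obtain ⟨h1, h4⟩ := h
  have pg : (0 : ℝ) < 1 / 2 ^ g := by positivity
  refine ⟨⟨⟨fun x => deg_afq _ _ _ _ _ _, fun x b b' hn hb => ?_, h1.cls, fun ω hω => ?_⟩,
    fun ω hω => ⟨?_, fun σ hσ => ?_⟩⟩, fun ω hω => ?_⟩
  · rw [eval_afq, eval_afq, hn, hb κ (Finset.mem_insert_self _ _),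
      hb k (Finset.mem_insert_of_mem (Finset.mem_singleton_self _))]
  · have k1 := h1.pos ω hω
    rw [eval_afq] at k1 ⊢
    exact (icf_val k1 (h3 ω hω)).trans hgQ
  · have k1 := h3 ω hω
    rw [icf3, abs_div, abs_one]
    rw [div_le_iff₀ (pg.trans_le k1)]
    have := mul_le_mul_of_nonneg_left k1 (by positivity : (0 : ℝ) ≤ 2 ^ g)
    rw [mul_one_div, div_self (by positivity)] at this
    exact this
  · have k1 := (h4 ω hω).2 σ hσ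
    rw [eval_afq] at k1 ⊢
    exact (icf_val k1 (h3 ω hω)).trans hgQ
  · have k1 := h3 ω hω
    have k2 := h2 ω hω
    rw [icf2, abs_div, abs_neg, div_le_iff₀ (pg.trans_le k1)]
    refine k2.trans ?_
    have := mul_le_mul_of_nonneg_left k1 (by positivity : (0 : ℝ) ≤ 2 ^ (e' + g))
    refine le_trans (le_of_eq ?_) this
    rw [pow_add]
    field_simp

/-- The error of a composition with a small coefficient. -/
theorem comp_err' {X : ℝ} {N g P P₁ P₂ : ℕ} (hX : X ≤ 2 ^ N) (h1 : P + N + 1 ≤ P₁)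
    (h2 : P + N + 1 ≤ P₂ + g) : X * (1 / 2 ^ P₁ + 1 / 2 ^ g / 2 ^ P₂) ≤ 1 / 2 ^ P := by
  have a1 : (1 : ℝ) / 2 ^ P₁ ≤ 1 / 2 ^ (P + N + 1) := inv_mono h1
  have a2 : (1 : ℝ) / 2 ^ g / 2 ^ P₂ ≤ 1 / 2 ^ (P + N + 1) := by
    rw [div_div, ← pow_add]
    exact inv_mono (by omega)
  calc X * (1 / 2 ^ P₁ + 1 / 2 ^ g / 2 ^ P₂) ≤ 2 ^ N * (1 / 2 ^ P₁ + 1 / 2 ^ g / 2 ^ P₂) :=
        mul_le_mul_of_nonneg_right hX (by positivity)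
    _ ≤ 2 ^ N * (1 / 2 ^ (P + N + 1) + 1 / 2 ^ (P + N + 1)) :=
        mul_le_mul_of_nonneg_left (add_le_add a1 a2) (by positivity)
    _ = 1 / 2 ^ P := by
        rw [pow_succ, pow_add]
        field_simp
        norm_num

/-- **The inversion of the affine labels of the zooms of a class.** -/
theorem inv_cls {S : PCl m} {C₀ : ℝ} (hC₀ : 0 ≤ C₀) (htm : TmC S C₀)
    {L : Finset (Fin m) → Fin m → ℝ → ℝ → ℝ} (hL : LamW S L) (v : Vz m)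
    (ε : Fin n → Fin m) {L' : Finset (Fin n) → Fin n → ℝ → ℝ → ℝ} (hL' : LamW (RecV S v ε) L')
    {κ ι k : Fin n} (hκι : κ ≠ ι) (hact : ActZ S v ε κ) (hactF : ActF S (ε κ))
    {w' w r' a₀ a w₁ r₁ r₀ x₂ x₃ : ℝ} (hw' : w' < w) (hw0 : 0 < w) (hw1 : w < 1)
    (hcont : ContinuousAt (fun W => L {ε κ} (ε ι) W 0) (v.tm w))
    (hUt : v.tm w < L {ε κ} (ε ι) (v.tm w) 0)
    (hUx : L {ε κ} (ε ι) (v.tm w) 0 + v.p * (1 - v.b) < 1)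
    (hLu : ∀ s : ℝ, 0 < s → ∃ w₁ r₁ : ℝ, w₁ < w ∧
      L {ε κ} (ε ι) (v.tm w) 0 + v.p * (1 - v.b) - s ≤ v.sc (L' {κ} ι w₁ r₁))
    (ha0 : 0 ≤ a₀) (ha : a₀ < a) (ha1 : a < 1)
    (hdeep : L {ε κ} (ε ι) (v.tm w) 0 - v.tm w + v.p * (1 - v.b) < L {ε κ} (ε ι) a₀ a₀ - a)
    (hw₁0 : 0 < w₁) (hw₁ : w₁ < w) (hr₁ : r₁ ≤ r₀) (hr₀ : 0 ≤ r₀) (hx₂ : 0 ≤ x₂) (hx₃ : 0 < x₃)
    (hq0 : x₂ + x₃ ≤ v.sc (L' {κ, ι} k w' r') - v.p * (1 - v.b) - v.tm w)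
    (hn1 : v.sc (L' {κ} k w r₀) < v.sc (L' {κ, ι} k w' r'))
    (hn2 : v.sc (L' {κ} k w r₀) < v.sc (L' {κ} ι w₁ r₁) + x₂) :
    Bas S (fun J F A => ∀ hP : v.P J ≤ J - v.B J,
      ∃ B : F.Ω → Prop, Sub B A ∧ Pe F.p A ≤ 2560 * Pe F.p B ∧
        ∃ (V : Type) (zp : PtT (zmV F hP (v.y J F) ε) → V)
          (zs : LnT (zmV F hP (v.y J F) ε) → V) (cf : V → Fin 4 → ℝ),
          AfCn F hP (v.y J F) ε κ k ι (⌊w * v.R J⌋₊ + 2) (⌊w * v.R J⌋₊ +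
              ⌊(v.sc (L' {κ, ι} k w' r') - v.p * (1 - v.b) - v.tm w - x₂ - x₃) * J⌋₊)
            ⌊(x₂ + x₃) * J⌋₊ B zp zs cf ∧ ∀ ω, B ω →
            |cf (zs (slam (zmV F hP (v.y J F) ε) (⌊w * v.R J⌋₊ + 2) ω)) 2| ≤
              2 ^ ⌊(x₂ + x₃) * J⌋₊) := by
  classical
  have hb := v.b0
  have hb1 := v.b1
  have hp := v.p0
  have hp1 := v.p1
  obtain ⟨c, hc⟩ : ∃ c, c = (1 - v.b) * (1 - v.p) := ⟨_, rfl⟩
  obtain ⟨Pr, hPr⟩ : ∃ Pr, Pr = v.p * (1 - v.b) := ⟨_, rfl⟩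
  have hc0 : 0 < c := by rw [hc]; exact mul_pos (by linarith) (by linarith)
  have hc1 : c ≤ 1 := by rw [hc]; exact mul_le_one₀ (by linarith) (by linarith) (by linarith)
  have hPr0 : 0 ≤ Pr := by rw [hPr]; exact mul_nonneg hp (by linarith)
  have hsum : v.b + c + Pr = 1 := by rw [hc, hPr]; ring
  have htm' : ∀ t, v.tm t = v.b + c * t := fun t => by rw [hc]; rfl
  have hsc' : ∀ t, v.sc t = v.b + Pr + c * t := fun t => by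
    rw [hc, hPr]
    unfold Vz.sc
    ring
  obtain ⟨Λ, hΛ⟩ : ∃ Λ, Λ = v.sc (L' {κ, ι} k w' r') := ⟨_, rfl⟩
  obtain ⟨l, hl⟩ : ∃ l, l = L' {κ} k w r₀ := ⟨_, rfl⟩
  obtain ⟨l₂, hl₂⟩ : ∃ l₂, l₂ = L' {κ} ι w₁ r₁ := ⟨_, rfl⟩
  obtain ⟨U, hU⟩ : ∃ U, U = L {ε κ} (ε ι) (v.tm w) 0 := ⟨_, rfl⟩
  obtain ⟨Dp', hDp'⟩ : ∃ D, D = L {ε κ} (ε ι) a₀ a₀ := ⟨_, rfl⟩
  obtain ⟨T, hT⟩ : ∃ T, T = v.tm w := ⟨_, rfl⟩
  have hTe : T = v.b + c * w := by rw [hT, htm']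
  have hL'1 : L' {κ, ι} k w' r' ≤ 1 := hL'.le1 _ _ _ _
  have hΛ1 : Λ ≤ 1 := by
    rw [hΛ, hsc']
    have := mul_le_mul_of_nonneg_left hL'1 hc0.le
    linarith only [this, hsum]
  have hlw : w ≤ l := by rw [hl]; exact hL'.low _ _ _ _ hw1.le
  have hl₂w : w₁ ≤ l₂ := by rw [hl₂]; exact hL'.low _ _ _ _ (by linarith only [hw₁, hw1])
  have hl₂1 : l₂ ≤ 1 := by rw [hl₂]; exact hL'.le1 _ _ _ _
  rw [← hl, ← hΛ, hsc'] at hn1
  rw [← hl, ← hl₂, hsc', hsc'] at hn2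
  -- the gap
  obtain ⟨G, hG⟩ : ∃ G, G = min (Λ - (v.b + Pr + c * l)) (c * l₂ + x₂ - c * l) := ⟨_, rfl⟩
  have hG0 : 0 < G := by
    rw [hG]
    exact lt_min (by linarith only [hn1]) (by linarith only [hn2])
  have hG1 : v.b + Pr + c * l + G ≤ Λ := by
    have : G ≤ Λ - (v.b + Pr + c * l) := by rw [hG]; exact min_le_left _ _
    linarith only [this]
  have hG2 : c * l + G ≤ c * l₂ + x₂ := by
    have : G ≤ c * l₂ + x₂ - c * l := by rw [hG]; exact min_le_right _ _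
    linarith only [this]
  obtain ⟨h, hh⟩ : ∃ h, h = l + G / (2 * c) := ⟨_, rfl⟩
  have hch : c * h = c * l + G / 2 := by
    rw [hh]
    field_simp
  have hlh : l < h := by rw [hh]; linarith only [div_pos hG0 (by positivity : 0 < 2 * c)]
  have hh1 : h ≤ 1 := by
    have h1 : c * h ≤ c * 1 := by
      rw [hch]
      linarith only [hG1, hΛ1, hsum, hG0]
    exact le_of_mul_le_mul_left h1 hc0
  have hh0 : 0 ≤ h := by linarith only [hlh, hlw, hw0]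
  obtain ⟨d, hd0, hd1, habs⟩ := hL'.abs {κ} k w r₀ h (by rw [← hl]; exact hlh) hh1
  obtain ⟨e, he⟩ : ∃ e, e = min (min (d / 16) (G / 16)) (w₁ / 4) := ⟨_, rfl⟩
  have he0 : 0 < e := by
    rw [he]
    exact lt_min (lt_min (by linarith only [hd0]) (by linarith only [hG0]))
      (by linarith only [hw₁0])
  have e0 : e ≤ d / 16 ∧ e ≤ G / 16 ∧ e ≤ w₁ / 4 := by
    have := he.le
    simp only [le_min_iff] at this
    tauto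
  obtain ⟨e1, e2, e3⟩ := e0
  -- the parameter of the affine label
  have hTΛ : 0 < Λ - Pr - T := by
    rw [hTe]
    have := mul_le_mul_of_nonneg_left hlw hc0.le
    linarith only [hn1, this]
  rw [← hU, ← hT] at hUt
  rw [← hU, ← hPr] at hUx
  rw [← hU, ← hT, ← hPr, ← hDp'] at hdeep
  obtain ⟨x, hx⟩ : ∃ x, x = min (min (min (c * w) ((Λ - Pr - T) / 3)) (min (1 - (U + Pr))
    ((Dp' - a - (U - T + Pr)) / 4))) (min (min (c * d / 4) (G / 16)) (x₃ / 4)) := ⟨_, rfl⟩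
  have hx0 : 0 < x := by
    rw [hx]
    exact lt_min (lt_min (lt_min (by positivity) (by linarith only [hTΛ]))
      (lt_min (by linarith only [hUx]) (by linarith only [hdeep])))
      (lt_min (lt_min (by positivity) (by linarith only [hG0])) (by linarith only [hx₃]))
  have x0 : x ≤ c * w ∧ x ≤ (Λ - Pr - T) / 3 ∧ x ≤ 1 - (U + Pr) ∧
      x ≤ (Dp' - a - (U - T + Pr)) / 4 ∧ x ≤ c * d / 4 ∧ x ≤ G / 16 ∧ x ≤ x₃ / 4 := by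
    have := hx.le
    simp only [le_min_iff] at this
    tauto
  obtain ⟨x1, x2, x3, x4, x5, x6, x7⟩ := x0
  obtain ⟨q, hq⟩ : ∃ q, q = Λ - Pr - T - x := ⟨_, rfl⟩
  obtain ⟨s₀, hs₀, haff⟩ := aff_zcr hC₀ htm hL v ε hL' hκι hact hactF (k := k) (w' := w') (w := w)
    (r' := r') (x := x) (q := q) hw' hw0 hw1 hx0 (by rw [← hc]; exact x1)
    (by rw [hq]; linarith only [x2, hTΛ]) (by rw [← hΛ, ← hPr, ← hT, hq]; linarith only) hcont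
    (by rw [← hU, ← hT]; exact hUt) (by rw [← hU, ← hPr]; linarith only [x3]) hLu
  rw [← hU, ← hT, ← hPr] at haff
  obtain ⟨s, hs⟩ : ∃ s, s = min s₀ (min ((a - a₀) / 3) (x / 4)) := ⟨_, rfl⟩
  have hs0 : 0 < s := by
    rw [hs]
    exact lt_min hs₀ (lt_min (by linarith only [ha]) (by linarith only [hx0]))
  have s0 : s ≤ s₀ ∧ s ≤ (a - a₀) / 3 ∧ s ≤ x / 4 := by
    have := hs.le
    simp only [le_min_iff] at this
    tauto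
  obtain ⟨s1, s2, s3⟩ := s0
  have hdp := dp_cls hL (ε κ) (ε ι) (a₀ := a₀) (a := a) (e := s) ha0 ha ha1 hs0
    (by linarith only [s2]) (by
      rw [← hDp']
      have : 0 ≤ U - T + Pr := by linarith only [hUt, hPr0]
      linarith only [this, x4, s3, hx0])
  rw [← hDp'] at hdp
  -- the label of `ι`
  obtain ⟨K₂, hK₂⟩ := hL'.att {κ} ι w₁ w r₁ e hw0 hw1.le hw₁ he0
  rw [← hl₂] at hK₂
  obtain ⟨C, hC, hcomp⟩ := comp_fam n (K₂ + 1) (by omega)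
  obtain ⟨ℓ, hℓ⟩ : ∃ ℓ : ℕ, (n : ℝ) + 1 ≤ 2 ^ ℓ := by
    obtain ⟨ℓ, hℓ⟩ := pow_unbounded_of_one_lt ((n : ℝ) + 1) (by norm_num : (1 : ℝ) < 2)
    exact ⟨ℓ, hℓ.le⟩
  obtain ⟨τ₁, hτ₁, J₁, b₁⟩ := haff
  obtain ⟨τ₂, hτ₂, J₂, b₂⟩ := hdp
  obtain ⟨τ₃, hτ₃, J₃, b₃⟩ := bas_recV hK₂
  obtain ⟨τ₄, hτ₄, J₄, b₄⟩ := bas_recV (habs d le_rfl ((K₂ + 1) * (K₂ + 1)))
  obtain ⟨τ, hτ⟩ : ∃ τ, τ = min (min τ₁ τ₂) (min (min (τ₃ / 2) (τ₄ / 2))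
    (e * c / 16 / (C * (C₀ + 1)))) := ⟨_, rfl⟩
  have hD0 : 0 < C * (C₀ + 1) := by positivity
  have hτ0 : 0 < τ := by
    rw [hτ]
    exact lt_min (lt_min hτ₁ hτ₂) (lt_min (lt_min (by linarith only [hτ₃])
      (by linarith only [hτ₄])) (by positivity))
  have t0 : τ ≤ τ₁ ∧ τ ≤ τ₂ ∧ τ ≤ τ₃ / 2 ∧ τ ≤ τ₄ / 2 ∧ τ ≤ e * c / 16 / (C * (C₀ + 1)) := by
    have := hτ.le
    simp only [le_min_iff] at this
    tauto
  obtain ⟨t1, t2, t3, t4, t5⟩ := t0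
  rw [le_div_iff₀ hD0] at t5
  obtain ⟨J₅, hJ₅⟩ := exists_nat_ge (max (max (16 * C / (e * c)) (Real.log 5120 / τ))
    (max ((ℓ + 40 : ℝ) / (e * c)) (40 / (x / 32))))
  refine ⟨τ, hτ0, J₁ + J₂ + J₃ + J₄ + J₅, ?_⟩
  intro J hJ F A hA hP
  have hJ0 : (0 : ℝ) ≤ J := Nat.cast_nonneg J
  have hJ5 : (J₅ : ℝ) ≤ J := by exact_mod_cast (by omega : J₅ ≤ J)
  have hec : 0 < e * c := mul_pos he0 hc0
  have hx32 : 0 < x / 32 := by linarith only [hx0]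
  have j5 : 16 * C / (e * c) ≤ J ∧ Real.log 5120 / τ ≤ J ∧ (ℓ + 40 : ℝ) / (e * c) ≤ J ∧
      40 / (x / 32) ≤ J := by
    have := hJ₅.trans hJ5
    simp only [max_le_iff] at this
    tauto
  obtain ⟨q1, q2, q3, q4⟩ := j5
  rw [div_le_iff₀ hec] at q1 q3
  rw [div_le_iff₀ hτ0] at q2
  rw [div_le_iff₀ hx32] at q4
  have l2 := Real.log_two_gt_d9
  have l2' := Real.log_two_lt_d9
  have hA0 := (htm τ J F A hτ0 hA).1
  obtain ⟨kB, kP, -⟩ := v.floor_le J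
  obtain ⟨r1, r2, r3, r4, r5⟩ := vz_real v J
  rw [← hc] at r4 r5
  have hRJ : v.R J = J - v.B J - v.P J := rfl
  have hR0 : (0 : ℝ) ≤ v.R J := Nat.cast_nonneg _
  have hres : ∀ (B' : F.Ω → Prop), Sub B' A → Pe F.p A ≤ 5120 * Pe F.p B' →
      S.St (2 * τ) J F B' := fun B' h1 h2 => res_of hτ0.le hA h1 (by norm_num)
        (by linarith only [q2]) h2
  -- the slopes and the labels
  obtain ⟨au, cu, hau⟩ := b₂ J (by omega) F A (S.mono t2 hA)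
  obtain ⟨B₁, a1, a2, V, zp, zs, cf, a3, a4⟩ := b₁ J (by omega) F A (S.mono t1 hA) au cu _ _
    (Nat.floor_le_floor (mul_le_mul_of_nonneg_right s1 hJ0)) (by
      refine Nat.floor_le_floor (mul_le_mul_of_nonneg_right ?_ hJ0)
      linarith only [x4, s3, hx0]) hau hP
  -- the numbers
  have hqJ : q * (J : ℝ) = Λ * J - Pr * J - T * J - x * J := by rw [hq]; ring
  have hTJ : T * (J : ℝ) = v.b * J + c * w * J := by rw [hTe]; ring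
  have f1 : (⌊w * (v.R J : ℝ)⌋₊ : ℝ) ≤ w * v.R J := Nat.floor_le (by positivity)
  have f1' : w * (v.R J : ℝ) - 1 < ⌊w * (v.R J : ℝ)⌋₊ := Nat.sub_one_lt_floor _
  have f2 : q * (J : ℝ) - 1 < ⌊q * (J : ℝ)⌋₊ := Nat.sub_one_lt_floor _
  have f3 : (⌊x / 32 * (J : ℝ)⌋₊ : ℝ) ≤ x / 32 * J := Nat.floor_le (by positivity)
  have f4 : (⌊x₂ * (J : ℝ)⌋₊ : ℝ) ≤ x₂ * J := Nat.floor_le (by positivity)
  have f4' : x₂ * (J : ℝ) - 1 < ⌊x₂ * (J : ℝ)⌋₊ := Nat.sub_one_lt_floor _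
  have f5 : (l₂ - e) * (v.R J : ℝ) - 1 < ⌊(l₂ - e) * (v.R J : ℝ)⌋₊ := Nat.sub_one_lt_floor _
  have f6 : (⌊e * (v.R J : ℝ)⌋₊ : ℝ) ≤ e * v.R J := Nat.floor_le (by positivity)
  have f6' : e * (v.R J : ℝ) - 1 < ⌊e * (v.R J : ℝ)⌋₊ := Nat.sub_one_lt_floor _
  have f7 : d * (v.R J : ℝ) - 1 < ⌊d * (v.R J : ℝ)⌋₊ := Nat.sub_one_lt_floor _
  have f8 : (r₀ + d) * (v.R J : ℝ) - 1 < ⌊(r₀ + d) * (v.R J : ℝ)⌋₊ := Nat.sub_one_lt_floor _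
  have f9 : (⌊h * (v.R J : ℝ)⌋₊ : ℝ) ≤ h * v.R J := Nat.floor_le (mul_nonneg hh0 hR0)
  have f10 : (w + d) * (v.R J : ℝ) - 1 < ⌊(w + d) * (v.R J : ℝ)⌋₊ := Nat.sub_one_lt_floor _
  have g1 : w * (c * J - 1) ≤ w * v.R J := mul_le_mul_of_nonneg_left r4 hw0.le
  have g3 : e * (c * J - 1) ≤ e * v.R J := mul_le_mul_of_nonneg_left r4 he0.le
  have g4 : e * (v.R J : ℝ) ≤ e * (c * J + 2) := mul_le_mul_of_nonneg_left r5 he0.le
  have g5 : l₂ * (c * J - 1) ≤ l₂ * v.R J :=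
    mul_le_mul_of_nonneg_left r4 (by linarith only [hl₂w, hw₁0])
  have g6 : h * (v.R J : ℝ) ≤ h * (c * J + 2) := mul_le_mul_of_nonneg_left r5 hh0
  have g7 : e * (v.R J : ℝ) ≤ d / 16 * v.R J := mul_le_mul_of_nonneg_right e1 hR0
  have g8 : d * (c * J - 1) ≤ d * v.R J := mul_le_mul_of_nonneg_left r4 hd0.le
  have g9 : x * (J : ℝ) ≤ c * d / 4 * J := mul_le_mul_of_nonneg_right x5 hJ0
  have g10 : x * (J : ℝ) ≤ G / 16 * J := mul_le_mul_of_nonneg_right x6 hJ0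
  have g11 : e * (J : ℝ) ≤ G / 16 * J := mul_le_mul_of_nonneg_right e2 hJ0
  have g12 : e * c * (J : ℝ) ≤ e * J := by
    have := mul_le_mul_of_nonneg_left hc1 (mul_nonneg he0.le hJ0)
    linarith only [this]
  have g13 : (w + d) * (v.R J : ℝ) ≤ 1 * v.R J := mul_le_mul_of_nonneg_right hd1 hR0
  have g14 : c * h * (J : ℝ) = c * l * J + G / 2 * J := by rw [hch]; ring
  have g15 : (v.b + Pr + c * l + G) * (J : ℝ) ≤ Λ * J := mul_le_mul_of_nonneg_right hG1 hJ0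
  have g16 : (c * l + G) * (J : ℝ) ≤ (c * l₂ + x₂) * J := mul_le_mul_of_nonneg_right hG2 hJ0
  have g17 : (x : ℝ) * J ≤ (Λ - Pr - T) / 3 * J := mul_le_mul_of_nonneg_right x2 hJ0
  have d1 : d ≤ 1 := by linarith only [hd1, hw0]
  have hecJ : (ℓ : ℝ) + 40 ≤ e * c * J := by linarith only [q3]
  have hℓ0 : (0 : ℝ) ≤ ℓ := Nat.cast_nonneg ℓ
  have g19 : e * (c * (J : ℝ)) ≤ d / 16 * (c * J) := mul_le_mul_of_nonneg_right e1 (by positivity)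
  have g20 : 0 ≤ r₀ * (v.R J : ℝ) := mul_nonneg hr₀ hR0
  have g21 : 3 * e * (v.R J : ℝ) ≤ (l₂ - e) * v.R J :=
    mul_le_mul_of_nonneg_right (by linarith only [e3, hl₂w, he0]) hR0
  have he1 : e ≤ 1 := by linarith only [e1, d1]
  have hbigR : 39 ≤ e * (v.R J : ℝ) := by linarith only [g3, hecJ, hℓ0, he1]
  obtain ⟨N, hN⟩ : ∃ N, N = ⌊e * (v.R J : ℝ)⌋₊ := ⟨_, rfl⟩
  rw [← hN] at f6 f6'
  obtain ⟨θ, hθ⟩ : ∃ θ, θ = C₀ * (2 * τ) * J := ⟨_, rfl⟩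
  have hθ0 : 0 ≤ θ := by rw [hθ]; positivity
  have hCθ : C * (θ + 1) ≤ e * c * J / 4 := by
    have h1 : τ * (C * (C₀ + 1)) * J ≤ e * c / 16 * J := mul_le_mul_of_nonneg_right t5 hJ0
    have h2 : 0 ≤ τ * C * J := by positivity
    have h3 : 0 ≤ e * c * (J : ℝ) := by positivity
    rw [hθ]
    linarith only [h1, h2, h3, q1]
  have hCN : C * (θ + 1) ≤ N * Real.log 2 := by
    have h1 : (N : ℝ) * 0.69 ≤ N * Real.log 2 :=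
      mul_le_mul_of_nonneg_left (by linarith only [l2]) (Nat.cast_nonneg N)
    linarith only [hCθ, h1, f6', g3, he1, hecJ, hℓ0]
  obtain ⟨g, hg⟩ : ∃ g, g = ⌊x₂ * (J : ℝ)⌋₊ := ⟨_, rfl⟩
  rw [← hg] at f4 f4'
  have hwR : ⌊w * (v.R J : ℝ)⌋₊ + 2 ≤ v.R J := by
    rw [← Nat.cast_le (α := ℝ)]
    push_cast
    linarith only [f1, g13, g7, hbigR]
  have hPQ : ⌊h * (v.R J : ℝ)⌋₊ + N + 2 ≤ ⌊w * (v.R J : ℝ)⌋₊ + ⌊q * (J : ℝ)⌋₊ := by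
    rw [← Nat.cast_le (α := ℝ)]
    push_cast
    linarith only [f9, g6, f6, g4, f1', g1, f2, hqJ, hTJ, g14, g15, g10, g11, g12, hh1, he1,
      hecJ, hℓ0, hw1]
  have hPQ2 : ⌊h * (v.R J : ℝ)⌋₊ + N + 1 ≤ ⌊(l₂ - e) * (v.R J : ℝ)⌋₊ + g := by
    rw [← Nat.cast_le (α := ℝ)]
    push_cast
    linarith only [f9, g6, f6, g4, f5, g5, f4', g14, g16, g11, g12, hh1, he1, hecJ, hℓ0, hl₂1]
  have hq3 : 3 ≤ ⌊q * (J : ℝ)⌋₊ := by
    refine Nat.le_floor ?_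
    push_cast
    linarith only [hqJ, g17, q4]
  have hwin : ⌊w * (v.R J : ℝ)⌋₊ + 2 ≤ ⌊(w + d) * (v.R J : ℝ)⌋₊ := by
    rw [← Nat.cast_le (α := ℝ)]
    push_cast
    linarith only [f1, f10, g7, hbigR]
  have hwin' : ⌊(w + d) * (v.R J : ℝ)⌋₊ ≤ v.R J := by
    refine Nat.floor_le_of_le ?_
    linarith only [g13]
  -- the coefficient is not small
  have hB₁0 : 0 < Pe F.p B₁ := by linarith only [a2, hA0]
  have hparts := Pe_parts (p := F.p) (B := B₁)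
    (B' := fun ω => B₁ ω ∧ |cf (zs (slam (zmV F hP (v.y J F) ε) (⌊w * v.R J⌋₊ + 2) ω)) 3| <
      1 / 2 ^ g) fun ω hω => hω.1
  have hsmall : Pe F.p (fun ω => B₁ ω ∧ |cf (zs (slam (zmV F hP (v.y J F) ε)
      (⌊w * v.R J⌋₊ + 2) ω)) 3| < 1 / 2 ^ g) < Pe F.p B₁ / 2 := by
    by_contra hcon
    rw [not_lt] at hcon
    obtain ⟨B₂, hB₂⟩ : ∃ B₂ : F.Ω → Prop, B₂ = fun ω => B₁ ω ∧ |cf (zs (slam
      (zmV F hP (v.y J F) ε) (⌊w * v.R J⌋₊ + 2) ω)) 3| < 1 / 2 ^ g := ⟨_, rfl⟩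
    rw [← hB₂] at hcon
    have hB₂1 : Sub B₂ B₁ := fun ω hω => by
      rw [hB₂] at hω
      exact hω.1
    have hB₂s : ∀ ω, B₂ ω → |cf (zs (slam (zmV F hP (v.y J F) ε)
        (⌊w * v.R J⌋₊ + 2) ω)) 3| < 1 / 2 ^ g := fun ω hω => by
      rw [hB₂] at hω
      exact hω.2
    have hB₂A : Sub B₂ A := fun ω hω => a1 ω (hB₂1 ω hω)
    have hB₂0 : 0 < Pe F.p B₂ := by linarith only [hcon, hB₁0]
    have hSB₂ := hres B₂ hB₂A (by linarith only [a2, hcon, hB₂0])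
    have lab1 : LbOK (zmV F hP (v.y J F) ε) (insert ι {κ}) k (K₂ + 1) (⌊x / 32 * (J : ℝ)⌋₊ + 3)
        (v.R J) (⌊w * (v.R J : ℝ)⌋₊ + 2) 0 (⌊w * (v.R J : ℝ)⌋₊ + ⌊q * (J : ℝ)⌋₊ - 1) B₂ zp zs
        (fun y => afq κ ι (cf y 0) (cf y 1) (cf y 2) (cf y 3)) := by
      rw [Finset.pair_comm ι κ]
      have h0 := lb_afq (e := ⌊x / 32 * (J : ℝ)⌋₊) (P := ⌊w * (v.R J : ℝ)⌋₊ +
        ⌊q * (J : ℝ)⌋₊ - 1) (a3.sub hB₂1).1 (fun ω hω => ⟨a4 ω (hB₂1 ω hω),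
        ((a3.sub hB₂1).2 ω hω).1⟩) (fun ω hω => ((a3.sub hB₂1).2 ω hω).2) (by omega) (by omega) 0
      exact h0.mono (Finset.Subset.refl _) (by omega) le_rfl le_rfl le_rfl
    obtain ⟨V₂, z₂, z₂', G₂, lab2⟩ : Lb (zmV F hP (v.y J F) ε) {κ} ι (K₂ + 1) N (v.R J)
        (⌊w * (v.R J : ℝ)⌋₊ + 2) ⌊(r₁ + e) * (v.R J : ℝ)⌋₊ ⌊(l₂ - e) * (v.R J : ℝ)⌋₊ B₂ :=
      Lb.mono (b₃ J (by omega) F B₂ (S.mono (by linarith only [t3]) hSB₂) hP)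
        (Finset.Subset.refl _) (by omega) (by rw [hN]) le_rfl (by omega) hwR le_rfl le_rfl
    obtain ⟨B₃, c1, c2, c3⟩ := hcomp (zmV F hP (v.y J F) ε) B₂ hB₂0 lab1 lab2
      (c := 1 / 2 ^ g) (by positivity) (fun ω hω b _ => by
        show |eval b (pderiv (some ι) (afq κ ι _ _ _ _))| ≤ _
        rw [pd_afq_some, if_neg hκι.symm, if_pos rfl, zero_add]
        exact (hB₂s ω hω).le) hwR hθ0 (by
        rw [hθ]
        exact zoom_tm htm v ε (by linarith only [hτ0]) hSB₂ hP hB₂0) (by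
        refine hCN.trans (mul_le_mul_of_nonneg_right ?_ (by linarith only [l2]))
        rw [← hRJ]
        push_cast
        linarith only [f1, g13, g7, hbigR, f6]) (by
        rw [← Nat.cast_le (α := ℝ)]
        push_cast
        linarith only [f5, g21, hbigR]) (e := ⌊d * (v.R J : ℝ)⌋₊)
      (ρ := ⌊(r₀ + d) * (v.R J : ℝ)⌋₊) (P := ⌊h * (v.R J : ℝ)⌋₊) (comp_exp hℓ (by
        rw [← Nat.cast_le (α := ℝ)]
        push_cast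
        linarith only [f3, f7, f6, g7, g8, g9, g19, hecJ, hℓ0, d1, hbigR])) (Nat.zero_le _)
      (Nat.floor_le_floor (mul_le_mul_of_nonneg_right (by linarith only [hr₁, e1, hd0]) hR0))
      (comp_rad hℓ (by
        rw [← Nat.cast_le (α := ℝ)]
        push_cast
        linarith only [f8, f6, g7, g8, g19, g20, hecJ, hℓ0, d1, hbigR]))
      (comp_err' (exp_le_two hCN) (by omega) hPQ2)
    have c2' : Pe F.p B₂ / 2 ≤ Pe F.p B₃ := c2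
    refine b₄ J (by omega) F B₃ (S.mono (by linarith only [t4]) (hres B₃
      (fun ω hω => hB₂A ω (c1 ω hω)) (by linarith only [a2, hcon, c2']))) hP ?_
    exact Lb.mono c3 (Finset.Subset.refl _) le_rfl le_rfl le_rfl hwin hwin' le_rfl le_rfl
  -- the inversion
  obtain ⟨B₄, hB₄⟩ : ∃ B₄ : F.Ω → Prop, B₄ = fun ω => B₁ ω ∧ ¬ (B₁ ω ∧ |cf (zs (slam
    (zmV F hP (v.y J F) ε) (⌊w * v.R J⌋₊ + 2) ω)) 3| < 1 / 2 ^ g) := ⟨_, rfl⟩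
  rw [← hB₄] at hparts
  have hB₄1 : Sub B₄ B₁ := fun ω hω => by
    rw [hB₄] at hω
    exact hω.1
  have hB₄s : ∀ ω, B₄ ω → 1 / 2 ^ g ≤ |cf (zs (slam (zmV F hP (v.y J F) ε)
      (⌊w * v.R J⌋₊ + 2) ω)) 3| := fun ω hω => by
    rw [hB₄] at hω
    by_contra h1
    exact hω.2 ⟨hω.1, not_le.1 h1⟩
  rw [← hPr, ← hT, ← hΛ] at hq0 ⊢
  obtain ⟨d1', d2'⟩ := AfCn.swap (g := g) (Q' := ⌊w * (v.R J : ℝ)⌋₊ +
    ⌊(Λ - Pr - T - x₂ - x₃) * (J : ℝ)⌋₊) (a3.sub hB₄1) (fun ω hω => a4 ω (hB₄1 ω hω)) hB₄s (by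
    have h1 : ⌊(Λ - Pr - T - x₂ - x₃) * (J : ℝ)⌋₊ + g ≤ ⌊q * (J : ℝ)⌋₊ := by
      refine Nat.le_floor ?_
      push_cast
      have h2 : (⌊(Λ - Pr - T - x₂ - x₃) * (J : ℝ)⌋₊ : ℝ) ≤ (Λ - Pr - T - x₂ - x₃) * J :=
        Nat.floor_le (mul_nonneg (by linarith only [hq0]) hJ0)
      have h3 : x * (J : ℝ) ≤ x₃ / 4 * J := mul_le_mul_of_nonneg_right x7 hJ0
      have h4 : 0 ≤ x₃ * (J : ℝ) := mul_nonneg hx₃.le hJ0
      linarith only [h2, h3, h4, hqJ, f4]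
    omega)
  have hex : ⌊x / 32 * (J : ℝ)⌋₊ + g ≤ ⌊(x₂ + x₃) * (J : ℝ)⌋₊ := by
    refine Nat.le_floor ?_
    push_cast
    have h3 : x * (J : ℝ) ≤ x₃ / 4 * J := mul_le_mul_of_nonneg_right x7 hJ0
    have h4 : 0 ≤ x₃ * (J : ℝ) := mul_nonneg hx₃.le hJ0
    linarith only [f3, f4, h3, h4]
  exact ⟨B₄, fun ω hω => a1 ω (hB₄1 ω hω), by linarith only [a2, hparts, hsmall], V, zp, zs,
    icf cf, AfCn.mono d1' le_rfl (by omega), fun ω hω =>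
      (d2' ω hω).trans (pow_le_pow_right₀ (by norm_num) hex)⟩

end Pool.P62
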