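import Pool.Agent.H62.P3.Low2

/-!
# The natural label in a zoom: classes

`nat_low`: the number of `u` over the active coordinate `y` in the zooms with all the coordinates is
at least the number of the class, plus the width of the tube.
-/

set_option autoImplicit false

namespace Pool.P62

open Finset MvPolynomial
open Pool.Agent.H49.Ent Pool.Agent.H32.Dense Pool.STK Pool.KA Pool.KSAT Pool.K2S Pool.PB Pool.GEN
open Pool.S6C Pool.REX Pool.MIC6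
open Pool.FLF (Fam.sub)
open Pool.GRD (LbP)

variable {m J : ℕ}

/-- **The slope of an affine label is near to the slope at the exact point**: otherwise the active
velocity has few values. -/
theorem slope_ev {F : Fam m J} {κ ι : Fin m} {w Q e e' M g : ℕ} {au cu : PtT F → ℝ}
    {A : F.Ω → Prop} {V : Type} {zp : PtT F → V} {zs : LnT F → V} {cf : V → Fin 4 → ℝ}
    (hlab : AfO F κ ι w Q e A zp zs cf) (hdp : Dp F A κ ι e' M au cu) (hM : Q ≤ M + w)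
    (hbad : ∀ ω, A ω → 6 * 2 ^ (w + g) / 2 ^ Q <
      |au (ptr F J ω) - cf (zs (slam F w ω)) 2|) (hA0 : 0 < Pe F.p A) :
    CH (Pool.Agent.H49.Ent.cond F.p A True) (fun ω => F.D g ω κ) (ptr F J) ≤ Real.log 3 := by
  have hq := isLaw_cond F.isLaw hA0
  have hsup : ∀ ω, 0 < Pool.Agent.H49.Ent.cond F.p A True ω → A ω := fun ω hω =>
    of_eq_true ((cond_pos_iff F.isLaw.nonneg A True ω).1 hω).2
  have pQ : (0 : ℝ) < 2 ^ Q := by positivity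
  have pw : (0 : ℝ) < 2 ^ w := by positivity
  have pg : (0 : ℝ) < 2 ^ g := by positivity
  have hsm : ∀ ω, A ω → |cu (ptr F J ω) - cf (zp (ptr F J ω)) 1 +
      (au (ptr F J ω) - cf (zp (ptr F J ω)) 2) * F.d ω κ| ≤ 3 * (2 ^ w / 2 ^ Q) := by
    intro ω hω
    have h1 := win_vel (hlab.2.2 ω hω).2
    have h2 := (hdp ω hω).2.2
    rw [hlab.1.cls ω hω, hlab.2.1, zero_mul, add_zero] at *
    have h3 : (1 : ℝ) / 2 ^ M ≤ 2 ^ w / 2 ^ Q := by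
      rw [div_le_div_iff₀ (by positivity) pQ, one_mul, ← pow_add]
      exact pow_le_pow_right₀ (by norm_num) (by omega)
    have h4 : (2 : ℝ) ^ w * (2 / 2 ^ Q) = 2 * (2 ^ w / 2 ^ Q) := by ring
    rw [h4] at h1
    have e1 : cu (ptr F J ω) - cf (zs (slam F w ω)) 1 +
        (au (ptr F J ω) - cf (zs (slam F w ω)) 2) * F.d ω κ =
        (F.d ω ι - (cf (zs (slam F w ω)) 1 + cf (zs (slam F w ω)) 2 * F.d ω κ)) -
        (F.d ω ι - cu (ptr F J ω) - au (ptr F J ω) * F.d ω κ) := by ring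
    rw [e1]
    refine (abs_sub _ _).trans ?_
    linarith only [h1, h2, h3]
  have b1 := CH_le_int hq.nonneg hq.sum_one (fun ω => F.D g ω κ) (ptr F J) (fun _ => 1) (by
    intro ω ω' hω hω' h
    have a1 := hsm ω (hsup ω hω)
    have a2 := hsm ω' (hsup ω' hω')
    have a3 := hbad ω (hsup ω hω)
    rw [← hlab.1.cls ω (hsup ω hω)] at a3
    rw [← h] at a2
    obtain ⟨c, hc⟩ : ∃ c, c = cu (ptr F J ω) - cf (zp (ptr F J ω)) 1 := ⟨_, rfl⟩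
    obtain ⟨s, hs⟩ : ∃ s, s = au (ptr F J ω) - cf (zp (ptr F J ω)) 2 := ⟨_, rfl⟩
    rw [← hc, ← hs] at a1 a2
    rw [← hs] at a3
    have a4 : |s| * |F.d ω κ - F.d ω' κ| ≤ 6 * (2 ^ w / 2 ^ Q) := by
      rw [← abs_mul]
      have e1 : s * (F.d ω κ - F.d ω' κ) = (c + s * F.d ω κ) - (c + s * F.d ω' κ) := by ring
      rw [e1]
      exact (abs_sub _ _).trans (by linarith only [a1, a2])
    have a5 : (2 : ℝ) ^ g * |F.d ω κ - F.d ω' κ| < 1 := by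
      by_contra hcon
      rw [not_lt] at hcon
      have k1 : 0 < |s| := lt_of_le_of_lt (by positivity) a3
      have k2 : |s| * 1 ≤ |s| * (2 ^ g * |F.d ω κ - F.d ω' κ|) :=
        mul_le_mul_of_nonneg_left hcon k1.le
      have k3 : |s| * (2 ^ g * |F.d ω κ - F.d ω' κ|) = 2 ^ g * (|s| * |F.d ω κ - F.d ω' κ|) := by
        ring
      have k4 := mul_le_mul_of_nonneg_left a4 pg.le
      have k5 : (2 : ℝ) ^ g * (6 * (2 ^ w / 2 ^ Q)) = 6 * 2 ^ (w + g) / 2 ^ Q := by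
        rw [pow_add]
        ring
      linarith only [k2, k3, k4, k5, a3]
    have a6 : |⌊(2 : ℝ) ^ g * F.d ω κ⌋ - ⌊(2 : ℝ) ^ g * F.d ω' κ⌋| ≤ 1 := by
      refine fl_near ?_
      rw [← mul_sub, abs_mul, abs_of_pos pg]
      exact a5
    have a7 : |F.D g ω κ - F.D g ω' κ| ≤ 1 := a6
    exact_mod_cast a7)
  rw [Ex_const hq.sum_one] at b1
  refine b1.trans (le_of_eq ?_)
  norm_num

theorem AfO.sub' {F : Fam m J} {κ ι : Fin m} {w Q e : ℕ} {A B : F.Ω → Prop} {V : Type}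
    {zp : PtT F → V} {zs : LnT F → V} {cf : V → Fin 4 → ℝ} (h : AfO F κ ι w Q e A zp zs cf)
    (hB : Sub B A) : AfO F κ ι w Q e B zp zs cf :=
  ⟨h.1.sub hB, h.2.1, fun ω hω => h.2.2 ω (hB ω hω)⟩

/-- **The natural label in the zooms with all the coordinates.** -/
theorem nat_low {S : PCl m} (hne : S.Ne) {C₀ : ℝ} (hC₀ : 0 ≤ C₀) (htm : TmC S C₀)
    {L : Finset (Fin m) → Fin m → ℝ → ℝ → ℝ} (hL : LamW S L) {y u : Fin m} (hact : ActF S y)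
    (v : Vz m) {L' : Finset (Fin m) → Fin m → ℝ → ℝ → ℝ}
    (hL' : LamW (RecV S v (id : Fin m → Fin m)) L') {w₀ w r₀ r a₀ a Q x : ℝ} (hw₀ : 0 ≤ w₀)
    (hww : w₀ < w) (hw1 : w < 1) (hQ : Q ≤ L {y} u (v.tm w₀) r₀) (hx : 0 < x) (ha0 : 0 ≤ a₀)
    (ha : a₀ < a) (ha1 : a < 1)
    (hdeep : Q - v.tm w₀ + v.p * (1 - v.b) + x ≤ L {y} u a₀ a₀ - a)
    (hQ1 : Q + v.p * (1 - v.b) ≤ 1) :
    Q + v.p * (1 - v.b) - x ≤ v.sc (L' {y} u w r) := by
  classical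
  have hb := v.b0
  have hb1 := v.b1
  have hp := v.p0
  have hp1 := v.p1
  obtain ⟨c, hc⟩ : ∃ c, c = (1 - v.b) * (1 - v.p) := ⟨_, rfl⟩
  obtain ⟨Pr, hPr⟩ : ∃ Pr, Pr = v.p * (1 - v.b) := ⟨_, rfl⟩
  have hc0 : 0 < c := by rw [hc]; exact mul_pos (by linarith) (by linarith)
  have hc1 : c ≤ 1 := by rw [hc]; exact mul_le_one₀ (by linarith) (by linarith) (by linarith)
  have hPr0 : 0 ≤ Pr := by rw [hPr]; exact mul_nonneg hp (by linarith)
  have hsum : v.b + c + Pr = 1 := by rw [hc, hPr]; ring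
  rw [← hPr] at hdeep hQ1 ⊢
  have htm' : ∀ t, v.tm t = v.b + c * t := fun t => by rw [hc]; rfl
  have hsc' : ∀ t, v.sc t = v.b + Pr + c * t := fun t => by
    rw [hc, hPr]
    unfold Vz.sc
    ring
  rw [htm'] at hQ hdeep
  rw [hsc']
  have hw0 : 0 < w := lt_of_le_of_lt hw₀ hww
  obtain ⟨l, hl⟩ : ∃ l, l = L' {y} u w r := ⟨_, rfl⟩
  have hlw : w ≤ l := by rw [hl]; exact hL'.low _ _ _ _ hw1.le
  rw [← hl]
  by_contra hcon
  push Not at hcon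
  -- the numbers
  have hcw : c * w ≤ c * l := mul_le_mul_of_nonneg_left hlw hc0.le
  have hcww : c * w₀ < c * w := mul_lt_mul_of_pos_left hww hc0
  have hcw₀ : 0 ≤ c * w₀ := mul_nonneg hc0.le hw₀
  have hQt : v.b + c * w + x < Q := by linarith only [hcon, hcw]
  obtain ⟨La, hLa⟩ : ∃ La, La = L {y} u a₀ a₀ := ⟨_, rfl⟩
  rw [← hLa] at hdeep
  obtain ⟨s, hs⟩ : ∃ s, s = x / 64 := ⟨_, rfl⟩
  have hs0 : 0 < s := by rw [hs]; linarith only [hx]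
  have hxs : x = 64 * s := by rw [hs]; ring
  obtain ⟨δ, hδ⟩ : ∃ δ, δ = min s ((c * w - c * w₀) / 2) := ⟨_, rfl⟩
  have hδ0 : 0 < δ := by rw [hδ]; exact lt_min hs0 (by linarith only [hcww])
  have hδs : δ ≤ s := by rw [hδ]; exact min_le_left _ _
  have hδw : δ ≤ (c * w - c * w₀) / 2 := by rw [hδ]; exact min_le_right _ _
  obtain ⟨W, hW⟩ : ∃ W, W = v.b + c * w - δ := ⟨_, rfl⟩
  have hW' : v.b + c * w₀ < W := by rw [hW]; linarith only [hδw, hδ0, hcww]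
  have hW0 : 0 < W := by linarith only [hW', hb, hcw₀]
  obtain ⟨q, hq⟩ : ∃ q, q = Q - s := ⟨_, rfl⟩
  have hWq : W ≤ q := by rw [hW, hq]; linarith only [hQt, hxs, hδ0, hs0]
  -- the absence of a better label
  obtain ⟨h, hh⟩ : ∃ h, h = (l + (Q - v.b - x) / c) / 2 := ⟨_, rfl⟩
  have hch : c * h = (c * l + (Q - v.b - x)) / 2 := by
    rw [hh]
    field_simp
  have hlQ : c * l < Q - v.b - x := by linarith only [hcon]
  have hlh : l < h := by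
    have h1 : c * l < c * h := by rw [hch]; linarith only [hlQ]
    exact lt_of_mul_lt_mul_left h1 hc0.le
  have hh1 : h ≤ 1 := by
    have h1 : c * h ≤ c * 1 := by rw [hch]; linarith only [hlQ, hQ1, hsum, hx]
    exact le_of_mul_le_mul_left h1 hc0
  obtain ⟨d, hd0, hd1, habs⟩ := hL'.abs {y} u w r h (by rw [← hl]; exact hlh) hh1
  -- the affine labels
  obtain ⟨e₀, he₀, he₀s, hocn⟩ := aff_ocn hC₀ htm hL (ι := u) hact (W' := v.b + c * w₀) (W := W)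
    (r' := r₀) (x := s) (q := q) hW' hW0 hs0 hWq (by rw [hq]; linarith only [hQ])
  obtain ⟨e₁, he₁⟩ : ∃ e₁, e₁ = min (min e₀ (s / 8)) (min ((a - a₀) / 3) (d * c / 8)) := ⟨_, rfl⟩
  have he₁0 : 0 < e₁ := by
    rw [he₁]
    exact lt_min (lt_min he₀ (by linarith only [hs0])) (lt_min (by linarith only [ha])
      (by positivity))
  have e1s : e₁ ≤ e₀ ∧ e₁ ≤ s / 8 ∧ e₁ ≤ (a - a₀) / 3 ∧ e₁ ≤ d * c / 8 := by
    have := he₁.le
    simp only [le_min_iff] at this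
    tauto
  obtain ⟨k1, k2, k3, k4⟩ := e1s
  have hdp := dp_cls hL y u (a₀ := a₀) (a := a) (e := e₁) ha0 ha ha1 he₁0 (by linarith only [k3])
    (by rw [← hLa]; linarith only [hdeep, hQt, hcww, hPr0, hx, k2, hxs, hs0])
  rw [← hLa] at hdp
  -- the activity
  obtain ⟨ca, hca0, hcaB⟩ := hact s hs0
  obtain ⟨τ₁, hτ₁, J₁, b₁⟩ := hocn
  obtain ⟨τ₂, hτ₂, J₂, b₂⟩ := hdp
  obtain ⟨τ₃, hτ₃, J₃, b₃⟩ := hcaB
  obtain ⟨τ₄, hτ₄, J₄, b₄⟩ := bas_recV (habs d le_rfl 1)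
  obtain ⟨τ, hτ⟩ : ∃ τ, τ = min (min τ₁ τ₂) (min (τ₃ / 2) (τ₄ / (2 * C₀ + 2))) := ⟨_, rfl⟩
  have hτ0 : 0 < τ := by
    rw [hτ]
    exact lt_min (lt_min hτ₁ hτ₂) (lt_min (by linarith only [hτ₃]) (by positivity))
  have t0 : τ ≤ τ₁ ∧ τ ≤ τ₂ ∧ τ ≤ τ₃ / 2 ∧ τ ≤ τ₄ / (2 * C₀ + 2) := by
    have := hτ.le
    simp only [le_min_iff] at this
    tauto
  obtain ⟨t1, t2, t3, t4⟩ := t0
  have t4' : τ + (2 * C₀ + 1) * τ ≤ τ₄ := by
    rw [le_div_iff₀ (by positivity)] at t4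
    linarith only [t4]
  obtain ⟨J₅, hJ₅⟩ := exists_nat_ge (max (max (200 / δ) (20 / ((1 - w) * c)))
    (max (20 / (d * c)) (max ((Real.log 360 + m * k99 + Real.log 2) / τ) (2 / ca))))
  obtain ⟨J, hJ, F, A, hA⟩ := hne τ hτ0 (J₁ + J₂ + J₃ + J₄ + J₅)
  have hJ0 : (0 : ℝ) ≤ J := Nat.cast_nonneg J
  have hJ5 : (J₅ : ℝ) ≤ J := by exact_mod_cast (by omega : J₅ ≤ J)
  have j5 : 200 / δ ≤ J ∧ 20 / ((1 - w) * c) ≤ J ∧ 20 / (d * c) ≤ J ∧
      (Real.log 360 + m * k99 + Real.log 2) / τ ≤ J ∧ 2 / ca ≤ J := by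
    have := hJ₅.trans hJ5
    simp only [max_le_iff] at this
    tauto
  obtain ⟨q1, q2, q3, q4, q5⟩ := j5
  have hw1c : 0 < (1 - w) * c := mul_pos (by linarith only [hw1]) hc0
  rw [div_le_iff₀ hδ0] at q1
  rw [div_le_iff₀ hw1c] at q2
  rw [div_le_iff₀ (by positivity)] at q3
  rw [div_le_iff₀ hτ0] at q4
  rw [div_le_iff₀ hca0] at q5
  have l2 := Real.log_two_gt_d9
  have k99n : 0 ≤ (m : ℝ) * k99 := mul_nonneg (Nat.cast_nonneg m) k99_nonneg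
  have hl360 : Real.log 40 ≤ Real.log 360 := Real.log_le_log (by norm_num) (by norm_num)
  have hl40 : 0 ≤ Real.log 40 := Real.log_nonneg (by norm_num)
  have hA0 := (htm τ J F A hτ0 hA).1
  obtain ⟨kB, kP, -⟩ := v.floor_le J
  obtain ⟨r1, r2, r3, r4, r5⟩ := vz_real v J
  rw [← hc] at r4 r5
  rw [← hPr] at r3
  have hRJ : v.R J = J - v.B J - v.P J := rfl
  have r6 : (v.P J : ℝ) = (J : ℝ) - v.B J - v.R J := by
    rw [hRJ, Nat.cast_sub kP, Nat.cast_sub kB]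
    ring
  have r7 : Pr * J - 2 ≤ v.P J := by
    rw [r6]
    have : Pr * (J : ℝ) = J - v.b * J - c * J := by
      rw [show Pr = 1 - v.b - c by linarith only [hsum]]
      ring
    linarith only [this, r2, r5]
  -- the slopes and the labels
  obtain ⟨au, cu, hau⟩ := b₂ J (by omega) F A (S.mono t2 hA)
  have f0 : ∀ z : ℝ, 0 ≤ z → (⌊z * (J : ℝ)⌋₊ : ℝ) ≤ z * J := fun z hz =>
    Nat.floor_le (mul_nonneg hz hJ0)
  have f0' : ∀ z : ℝ, z * (J : ℝ) - 1 < ⌊z * (J : ℝ)⌋₊ := fun z => Nat.sub_one_lt_floor _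
  have hδJ : δ * (J : ℝ) ≤ s * J := mul_le_mul_of_nonneg_right hδs hJ0
  have he₁J : e₁ * (J : ℝ) ≤ s / 8 * J := mul_le_mul_of_nonneg_right k2 hJ0
  have hdeepJ : (Q - (v.b + c * w₀) + Pr + x) * J ≤ (La - a) * J :=
    mul_le_mul_of_nonneg_right hdeep hJ0
  have hQtJ : (v.b + c * w + x) * J ≤ Q * J := mul_le_mul_of_nonneg_right hQt.le hJ0
  have hW'J : (v.b + c * w₀) * J ≤ W * J := mul_le_mul_of_nonneg_right hW'.le hJ0
  have hxJ : x * (J : ℝ) = 64 * (s * J) := by rw [hxs]; ring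
  have hWJ : W * (J : ℝ) = (v.b + c * w) * J - δ * J := by rw [hW]; ring
  have hqJ : q * (J : ℝ) = Q * J - s * J := by rw [hq]; ring
  have hPJ0 : 0 ≤ Pr * (J : ℝ) := mul_nonneg hPr0 hJ0
  have hsJ0 : 0 ≤ s * (J : ℝ) := mul_nonneg hs0.le hJ0
  have hbJ0 : 0 ≤ v.b * (J : ℝ) := mul_nonneg hb hJ0
  have hcwJ0 : 0 ≤ c * w * (J : ℝ) := mul_nonneg (mul_nonneg hc0.le hw0.le) hJ0
  have hQ1J : (Q + Pr) * (J : ℝ) ≤ 1 * J := mul_le_mul_of_nonneg_right hQ1 hJ0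
  obtain ⟨B₁, a1, a2, V, zp, zs, cf, hlab⟩ := b₁ J (by omega) F A (S.mono t1 hA) au cu
    ⌊e₁ * J⌋₊ ⌊(La - a - 4 * e₁) * J⌋₊
    (Nat.floor_le_floor (mul_le_mul_of_nonneg_right k1 hJ0)) (by
      refine Nat.floor_le_floor ?_
      linarith only [hdeepJ, hW'J, hqJ, hxJ, he₁J, hPJ0, hsJ0]) hau
  obtain ⟨w₁, hw₁⟩ : ∃ w₁, w₁ = ⌊W * (J : ℝ)⌋₊ + 2 := ⟨_, rfl⟩
  obtain ⟨QJ, hQJ⟩ : ∃ QJ, QJ = ⌊q * (J : ℝ)⌋₊ := ⟨_, rfl⟩
  obtain ⟨g, hg⟩ : ∃ g, g = ⌊s * (J : ℝ)⌋₊ := ⟨_, rfl⟩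
  obtain ⟨M, hM⟩ : ∃ M, M = ⌊(La - a - 4 * e₁) * (J : ℝ)⌋₊ := ⟨_, rfl⟩
  obtain ⟨e, he⟩ : ∃ e, e = ⌊e₁ * (J : ℝ)⌋₊ := ⟨_, rfl⟩
  obtain ⟨wz, hwz⟩ : ∃ wz, wz = ⌊w * (v.R J : ℝ)⌋₊ := ⟨_, rfl⟩
  rw [← hw₁, ← hQJ, ← he] at hlab
  rw [← he, ← hM] at hau
  have g1 := f0 W hW0.le
  have g1' := f0' W
  have g2 := f0 q (by linarith only [hWq, hW0])
  have g2' := f0' q
  have g3 := f0 s hs0.le
  have g3' := f0' s
  have g4' := f0' (La - a - 4 * e₁)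
  have g5 := f0 e₁ he₁0.le
  have g6 : (⌊w * (v.R J : ℝ)⌋₊ : ℝ) ≤ w * v.R J := Nat.floor_le (by positivity)
  have g6' : w * (v.R J : ℝ) - 1 < ⌊w * (v.R J : ℝ)⌋₊ := Nat.sub_one_lt_floor _
  have g7 : w * (c * J - 1) ≤ w * v.R J := mul_le_mul_of_nonneg_left r4 hw0.le
  have g8 : w * (v.R J : ℝ) ≤ w * (c * J + 2) := mul_le_mul_of_nonneg_left r5 hw0.le
  have g9 : (1 - w) * (c * J - 1) ≤ (1 - w) * v.R J :=
    mul_le_mul_of_nonneg_left r4 (by linarith only [hw1])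
  -- the events
  have hlog : Real.log 360 ≤ τ * J := by
    have := Real.log_nonneg (by norm_num : (1 : ℝ) ≤ 2)
    linarith only [q4, k99n, this]
  have hres : ∀ (B' : F.Ω → Prop), Sub B' A → Pe F.p A ≤ 360 * Pe F.p B' →
      S.St (2 * τ) J F B' := fun B' h1 h2 => res_of hτ0.le hA h1 (by norm_num) hlog h2
  have hparts := Pe_parts (p := F.p) (B := B₁)
    (B' := fun ω => B₁ ω ∧ ¬ |au (ptr F J ω) - cf (zs (slam F w₁ ω)) 2| ≤
      6 * 2 ^ (w₁ + g) / 2 ^ QJ) fun ω hω => hω.1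
  have hB₁0 : 0 < Pe F.p B₁ := by linarith only [a2, hA0]
  have hsmall : Pe F.p (fun ω => B₁ ω ∧ ¬ |au (ptr F J ω) - cf (zs (slam F w₁ ω)) 2| ≤
      6 * 2 ^ (w₁ + g) / 2 ^ QJ) < Pe F.p B₁ / 2 := by
    by_contra hcon2
    rw [not_lt] at hcon2
    obtain ⟨B₀, hB₀⟩ : ∃ B₀ : F.Ω → Prop, B₀ = fun ω => B₁ ω ∧
      ¬ |au (ptr F J ω) - cf (zs (slam F w₁ ω)) 2| ≤ 6 * 2 ^ (w₁ + g) / 2 ^ QJ := ⟨_, rfl⟩
    rw [← hB₀] at hcon2
    have hB₀1 : Sub B₀ B₁ := fun ω hω => by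
      rw [hB₀] at hω
      exact hω.1
    have hB₀A : Sub B₀ A := fun ω hω => a1 ω (hB₀1 ω hω)
    have hB₀0 : 0 < Pe F.p B₀ := by linarith only [hcon2, hB₁0]
    have h1 := b₃ J (by omega) F B₀ (S.mono (by linarith only [t3])
      (hres B₀ hB₀A (by linarith only [a2, hcon2, hB₀0])))
    have h1' : ca * J ≤ CH (Pool.Agent.H49.Ent.cond F.p B₀ True) (fun ω => F.D g ω y)
        (ptr F J) := by
      rw [hg]
      exact h1
    have h2 := slope_ev (g := g) (AfO.sub' hlab hB₀1) (hau.sub hB₀A) (by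
      rw [← Nat.cast_le (α := ℝ)]
      push_cast [hQJ, hM, hw₁]
      linarith only [g2, g4', g1', hdeepJ, hW'J, hqJ, hxJ, he₁J, hPJ0, hsJ0]) (fun ω hω => by
      rw [hB₀] at hω
      exact not_le.1 hω.2) hB₀0
    have h3 : Real.log 3 ≤ 3 - 1 := Real.log_le_sub_one_of_pos (by norm_num)
    have h4 : Real.log 3 < 2 := by
      have h5 : Real.log 3 < Real.log (2 ^ 2 : ℝ) := Real.log_lt_log (by norm_num) (by norm_num)
      rw [Real.log_pow] at h5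
      have h6 := Real.log_two_lt_d9
      push_cast at h5
      linarith only [h5, h6]
    linarith only [h1', h2, h4, q5]
  obtain ⟨B₂, hB₂⟩ : ∃ B₂ : F.Ω → Prop, B₂ = fun ω => B₁ ω ∧ ¬ (B₁ ω ∧
    ¬ |au (ptr F J ω) - cf (zs (slam F w₁ ω)) 2| ≤ 6 * 2 ^ (w₁ + g) / 2 ^ QJ) := ⟨_, rfl⟩
  rw [← hB₂] at hparts
  have hB₂1 : Sub B₂ B₁ := fun ω hω => by
    rw [hB₂] at hω
    exact hω.1
  have hB₂A : Sub B₂ A := fun ω hω => a1 ω (hB₂1 ω hω)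
  have hPB₂ : Pe F.p A ≤ 40 * Pe F.p B₂ := by linarith only [hparts, hsmall, a2]
  have hB₂0 : 0 < Pe F.p B₂ := by linarith only [hPB₂, hA0]
  have hsl : ∀ ω, B₂ ω → |au (ptr F J ω) - cf (zs (slam F w₁ ω)) 2| ≤
      6 * 2 ^ (w₁ + g) / 2 ^ QJ := by
    intro ω hω
    rw [hB₂] at hω
    by_contra h1
    exact hω.2 ⟨hω.1, h1⟩
  -- the numbers
  have n1 : w₁ + g + 4 ≤ QJ + v.P J := by
    rw [← Nat.cast_le (α := ℝ)]
    push_cast [hQJ, hg, hw₁]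
    linarith only [g1, g2', g3, r7, hPJ0, hWJ, hqJ, hQtJ, hxJ, hsJ0, hδJ, q1]
  have n2 : QJ + v.P J - (w₁ + g + 4) + 3 ≤ M := by
    have h1 : QJ + v.P J + 3 ≤ M + (w₁ + g + 4) := by
      rw [← Nat.cast_le (α := ℝ)]
      push_cast [hQJ, hg, hw₁, hM]
      linarith only [g2, g1', g3', g4', r3, hdeepJ, hW'J, hqJ, hxJ, he₁J, hsJ0, hδJ, q1]
    omega
  have n3 : w₁ + 2 ≤ v.B J + wz := by
    rw [← Nat.cast_le (α := ℝ)]
    push_cast [hwz, hw₁]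
    linarith only [g1, g6', g7, r1, hWJ, q1, hw1]
  have n4 : wz + 1 ≤ J - v.B J - v.P J := by
    rw [← hRJ, ← Nat.cast_le (α := ℝ)]
    push_cast [hwz]
    linarith only [g6, g9, q2, hw0]
  have n5 : QJ + v.P J - (w₁ + g + 4) + w₁ + e + 4 ≤ J := by
    have h1 : QJ + v.P J + e ≤ J + g := by
      rw [← Nat.cast_le (α := ℝ)]
      push_cast [hQJ, hg, he]
      linarith only [g2, g3', g5, r3, hQ1J, hqJ, he₁J, hsJ0, hδJ, q1]
    omega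
  have n6 : v.B J + g + 6 ≤ QJ := by
    rw [← Nat.cast_le (α := ℝ)]
    push_cast [hQJ, hg]
    linarith only [g2', g3, r2, hqJ, hQtJ, hxJ, hsJ0, hδJ, q1, hcwJ0]
  have n7 : wz + (v.B J + g + 6) ≤ QJ := by
    rw [← Nat.cast_le (α := ℝ)]
    push_cast [hQJ, hg, hwz]
    linarith only [g2', g3, g6, g8, r2, hqJ, hQtJ, hxJ, hsJ0, hδJ, q1, hw1]
  obtain ⟨A', c1, c2, c3⟩ := low_fam F kP kB (v.y J F) (v.line J F) (e' := e) (g := g)
    (N := QJ + v.P J - (w₁ + g + 4)) (N' := QJ + v.P J - (w₁ + g + 4) + w₁) (wz := wz)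
    (θ := C₀ * (2 * τ) * J) (Q' := QJ - (v.B J + g + 6)) hB₂0
    (fun ω hω => hlab.1.cls ω (hB₂1 ω hω)) (fun ω hω => (hlab.2.2 ω (hB₂1 ω hω)).1)
    (hau.sub hB₂A) hsl (by omega) n2 rfl n3 n4 n5 (fun A' h1 h2 => by
      have h3 := hres A' (fun ω hω => hB₂A ω (h1 ω hω)) (by linarith only [h2, hPB₂])
      have h4 := htm (2 * τ) J F A' (by linarith only [hτ0]) h3
      exact h4.2 (isLaw_cond F.isLaw h4.1)) (by omega) (by omega)
  -- the class of the event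
  have hSA' : S.St τ₄ J F A' := by
    refine S.mono t4' (S.res (by positivity) hA (fun ω hω => hB₂A ω (c1 ω hω)) ?_)
    have h1 : Real.log 360 + (m * k99 + C₀ * (2 * τ) * J + Real.log 2) ≤
        (2 * C₀ + 1) * τ * J := by
      have : (2 * C₀ + 1) * τ * J = C₀ * (2 * τ) * J + τ * J := by ring
      linarith only [this, q4]
    have h2 : Real.exp (-((2 * C₀ + 1) * τ * J)) * Pe F.p A ≤
        1 / 360 * Real.exp (-(m * k99 + C₀ * (2 * τ) * J + Real.log 2)) * Pe F.p A := by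
      refine mul_le_mul_of_nonneg_right ?_ hA0.le
      rw [show (1 : ℝ) / 360 = Real.exp (-Real.log 360) by
        rw [Real.exp_neg, Real.exp_log (by norm_num)]
        norm_num, ← Real.exp_add]
      refine Real.exp_le_exp.2 ?_
      linarith only [h1]
    refine h2.trans ?_
    have h3 := mul_le_mul_of_nonneg_left hPB₂
      (Real.exp_pos (-(m * k99 + C₀ * (2 * τ) * J + Real.log 2))).le
    linarith only [h3, c2]
  refine b₄ J (by omega) F A' hSA' kP ?_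
  have hR0 : (0 : ℝ) ≤ v.R J := Nat.cast_nonneg _
  have hdR : d * (c * J - 1) ≤ d * v.R J := mul_le_mul_of_nonneg_left r4 hd0.le
  have f3 : d * (v.R J : ℝ) - 1 < ⌊d * (v.R J : ℝ)⌋₊ := Nat.sub_one_lt_floor _
  have d1 : d ≤ 1 := by linarith only [hd1, hw0]
  have he₁dJ : e₁ * (J : ℝ) ≤ d * c / 8 * J := mul_le_mul_of_nonneg_right k4 hJ0
  refine Lb.mono (c3 ⌊(r + d) * v.R J⌋₊) (Finset.Subset.refl _) le_rfl ?_ le_rfl ?_ ?_ le_rfl ?_
  · rw [← Nat.cast_le (α := ℝ)]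
    push_cast [he]
    linarith only [g5, f3, hdR, he₁dJ, q3, d1]
  · rw [hwz]
    exact Nat.floor_le_floor (mul_le_mul_of_nonneg_right (by linarith only [hd0]) hR0)
  · refine Nat.floor_le_of_le ?_
    exact mul_le_of_le_one_left hR0 hd1
  · have hhR : h * (v.R J : ℝ) ≤ (Q - v.b - x) * J + 2 := by
      have hhc : c * h ≤ Q - v.b - x := by rw [hch]; linarith only [hlQ]
      have h0 : 0 ≤ h := by linarith only [hlh, hlw, hw0]
      have h1 := mul_le_mul_of_nonneg_left r5 h0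
      have h2 := mul_le_mul_of_nonneg_right hhc hJ0
      linarith only [h1, h2, hh1]
    have h0 : 0 ≤ h := by linarith only [hlh, hlw, hw0]
    have f6 : (⌊h * (v.R J : ℝ)⌋₊ : ℝ) ≤ h * v.R J := Nat.floor_le (mul_nonneg h0 hR0)
    have h1 : ⌊h * (v.R J : ℝ)⌋₊ + (v.B J + g + 6) ≤ QJ := by
      rw [← Nat.cast_le (α := ℝ)]
      push_cast [hQJ, hg]
      linarith only [f6, hhR, g2', g3, r2, hqJ, hxJ, hsJ0, hδJ, q1]
    omega

end Pool.P62
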