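import Pool.Agent.H6.OWN.NgD
import Pool.Agent.H45.EXA.Prj

/-!
# The numbers of the zooms of some of the coordinates

`lb_zsub`: a label in the zoom of the coordinates `ε ∘ f` is a label in the zoom of the coordinates
`ε`. `num_sub`: the numbers of the zooms of the coordinates `ε ∘ f` are at most the numbers of the
zooms of the coordinates `ε`.
-/

set_option autoImplicit false

namespace Pool.P62

open Finset Real MvPolynomial
open Pool.Agent.H49.Ent Pool.Agent.H32.Dense Pool.STK Pool.KA Pool.KSAT Pool.K2S Pool.PB Pool.S6C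
open Pool.GEN Pool.REX Pool.MIC6

variable {m n n' J : ℕ}

section

variable (F : Fam m J) {B P : ℕ} (hP : P ≤ J - B) {Y : Type} (yy : F.Ω → Y)
  (ε : Fin n' → Fin m) (f : Fin n → Fin n')

theorem bt_zsub (ω : F.Ω) (o : Option (Fin n)) :
    bt (zmV F hP yy fun j => ε (f j)) ω o = bt (zmV F hP yy ε) ω (Option.map f o) := by
  cases o <;> rfl

theorem bd_zsub (ω : F.Ω) (o : Option (Fin n)) :
    bd (zmV F hP yy fun j => ε (f j)) ω o = bd (zmV F hP yy ε) ω (Option.map f o) := by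
  cases o <;> rfl

end

/-- **A label in the zoom of some coordinates is a label in the zoom of more coordinates.** -/
theorem lb_zsub {F : Fam m J} {B P : ℕ} {hP : P ≤ J - B} {Y : Type} {yy : F.Ω → Y}
    {ε : Fin n' → Fin m} {f : Fin n → Fin n'} (hinj : Function.Injective f)
    {I : Finset (Fin n)} {k : Fin n} {K e r w ρ Q : ℕ} {A : F.Ω → Prop}
    (h : Lb (zmV F hP yy fun j => ε (f j)) I k K e r w ρ Q A) :
    Lb (zmV F hP yy ε) (I.image f) (f k) K e r w ρ Q A := by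
  classical
  obtain ⟨V, z, z', G, h⟩ := h
  obtain ⟨z₁, hz₁⟩ : ∃ z₁ : PtT (zmV F hP yy ε) → V, z₁ = fun y => z (fun i => y.1 (f i),
      (y.2.1, ((fun j => y.2.2.1.1 (f j), fun j => y.2.2.1.2 (f j)), y.2.2.2))) := ⟨_, rfl⟩
  obtain ⟨z₁', hz₁'⟩ : ∃ z₁' : LnT (zmV F hP yy ε) → V, z₁' = fun s =>
      z' ((fun i => s.1.1 (f i), fun i => s.1.2 (f i)),
        (((fun j => s.2.1.1.1 (f j), fun j => s.2.1.1.2 (f j)), s.2.1.2), s.2.2)) := ⟨_, rfl⟩
  have e1 : ∀ ω, z₁ (ptr (zmV F hP yy ε) r ω) =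
      z (ptr (zmV F hP yy fun j => ε (f j)) r ω) := by
    intro ω
    rw [hz₁]
    rfl
  have e2 : ∀ ω, z₁' (slam (zmV F hP yy ε) w ω) =
      z' (slam (zmV F hP yy fun j => ε (f j)) w ω) := by
    intro ω
    rw [hz₁']
    rfl
  have e3 : ∀ ω : F.Ω, (fun o => bt (zmV F hP yy ε) ω (Option.map f o)) =
      bt (zmV F hP yy fun j => ε (f j)) ω := by
    intro ω
    funext o
    exact (bt_zsub F hP yy ε f ω o).symm
  refine ⟨V, z₁, z₁', fun v => rename (Option.map f) (G v), fun v => ?_, fun v b b' hn hb => ?_,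
    fun ω hω => ?_, fun ω hω => ?_, fun ω hω => ?_, fun ω hω b hb o => ?_⟩
  · exact (totalDegree_rename_le _ _).trans (h.deg v)
  · rw [eval_up, eval_up]
    exact h.dep v _ _ hn fun i hi => hb (f i) (Finset.mem_image_of_mem f hi)
  · rw [e1, e2]
    exact h.cls ω hω
  · rw [e2, eval_up, e3]
    exact h.pos ω hω
  · have h1 := h.vel ω hω
    have e4 : ∑ o, bd (zmV F hP yy ε) ω o * eval (bt (zmV F hP yy ε) ω)
        (pderiv o (rename (Option.map f) (G (z₁' (slam (zmV F hP yy ε) w ω))))) =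
        ∑ o, bd (zmV F hP yy fun j => ε (f j)) ω o *
          eval (bt (zmV F hP yy fun j => ε (f j)) ω)
            (pderiv o (G (z' (slam (zmV F hP yy fun j => ε (f j)) w ω)))) := by
      rw [e2]
      have e5 : ∀ o : Option (Fin n), bd (zmV F hP yy fun j => ε (f j)) ω o *
          eval (bt (zmV F hP yy fun j => ε (f j)) ω)
            (pderiv o (G (z' (slam (zmV F hP yy fun j => ε (f j)) w ω)))) =
          bd (zmV F hP yy ε) ω (Option.map f o) * eval (bt (zmV F hP yy ε) ω)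
          (pderiv (Option.map f o) (rename (Option.map f)
            (G (z' (slam (zmV F hP yy fun j => ε (f j)) w ω))))) := by
        intro o
        rw [pd_up hinj, e3, bd_zsub]
      rw [Finset.sum_congr rfl fun o _ => e5 o]
      symm
      refine Finset.sum_of_injOn (Option.map f) (Option.map_injective hinj).injOn
        (fun _ _ => Finset.mem_coe.2 (Finset.mem_univ _)) (fun o _ ho => ?_) (fun o _ => rfl)
      rw [pd_up_ne (G (z' (slam (zmV F hP yy fun j => ε (f j)) w ω))) (fun o' ho' =>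
        ho ⟨o', Finset.mem_coe.2 (Finset.mem_univ _), ho'⟩), map_zero, mul_zero]
    rw [e4]
    exact h1
  · rw [e2]
    by_cases ho : ∃ o', Option.map f o' = o
    · obtain ⟨o', rfl⟩ := ho
      rw [pd_up hinj]
      refine h.lip ω hω _ (fun o => ?_) o'
      rw [← e3]
      exact hb _
    · push Not at ho
      rw [pd_up_ne _ ho, map_zero, abs_zero]
      positivity

/-- **The numbers of the zooms of some coordinates are at most the numbers of the zooms of more
coordinates.** -/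
theorem num_sub {S : PCl m} (hne : S.Ne) {v : Vz m} {ε : Fin n' → Fin m} {f : Fin n → Fin n'}
    (hinj : Function.Injective f) {L₁ : Finset (Fin n) → Fin n → ℝ → ℝ → ℝ}
    (hL₁ : LamW (RecV S v fun j => ε (f j)) L₁) {L : Finset (Fin n') → Fin n' → ℝ → ℝ → ℝ}
    (hL : LamW (RecV S v ε) L) (I : Finset (Fin n)) (k : Fin n) {w' w r' r : ℝ} (hw0 : 0 < w)
    (hw1 : w ≤ 1) (hww : w' < w) (hrr : r' ≤ r) : L₁ I k w' r' ≤ L (I.image f) (f k) w r := by
  classical
  by_contra hcon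
  push Not at hcon
  obtain ⟨l, hl⟩ : ∃ l, l = L (I.image f) (f k) w r := ⟨_, rfl⟩
  obtain ⟨l₁, hl₁⟩ : ∃ l₁, l₁ = L₁ I k w' r' := ⟨_, rfl⟩
  rw [← hl, ← hl₁] at hcon
  have hl11 : l₁ ≤ 1 := by rw [hl₁]; exact hL₁.le1 _ _ _ _
  obtain ⟨d, hd0, hd1, habs⟩ := hL.abs (I.image f) (f k) w r ((l + l₁) / 2)
    (by rw [← hl]; linarith only [hcon]) (by linarith only [hcon, hl11])
  obtain ⟨e, he⟩ : ∃ e, e = min d ((l₁ - l) / 2) := ⟨_, rfl⟩
  have he0 : 0 < e := by rw [he]; exact lt_min hd0 (by linarith only [hcon])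
  have hed : e ≤ d := by rw [he]; exact min_le_left _ _
  have hel : e ≤ (l₁ - l) / 2 := by rw [he]; exact min_le_right _ _
  obtain ⟨K, hK⟩ := hL₁.att I k w' w r' e hw0 hw1 hww he0
  rw [← hl₁] at hK
  obtain ⟨τ₁, hτ₁, J₁, b₁⟩ := bas_recV hK
  obtain ⟨τ₂, hτ₂, J₂, b₂⟩ := bas_recV (habs d le_rfl K)
  obtain ⟨J, hJ, F, A, hA⟩ := hne (min τ₁ τ₂) (lt_min hτ₁ hτ₂) (J₁ + J₂)
  obtain ⟨-, k2, -⟩ := v.floor_le J
  have a1 := b₁ J (by omega) F A (S.mono (min_le_left _ _) hA) k2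
  refine b₂ J (by omega) F A (S.mono (min_le_right _ _) hA) k2 ?_
  have hR0 : (0 : ℝ) ≤ v.R J := Nat.cast_nonneg _
  refine Lb.mono (lb_zsub hinj a1) (Finset.Subset.refl _) le_rfl ?_ le_rfl ?_ ?_ ?_ ?_
  · exact Nat.floor_le_floor (mul_le_mul_of_nonneg_right hed hR0)
  · exact Nat.floor_le_floor (mul_le_mul_of_nonneg_right (by linarith only [hd0]) hR0)
  · refine Nat.floor_le_of_le ?_
    exact mul_le_of_le_one_left hR0 hd1
  · exact Nat.floor_le_floor (mul_le_mul_of_nonneg_right (by linarith only [hrr, hed]) hR0)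
  · exact Nat.floor_le_floor (mul_le_mul_of_nonneg_right (by linarith only [hel]) hR0)

/-- The numbers of the zooms of some coordinates and of the zooms of all coordinates. -/
theorem num_id {S : PCl m} (hne : S.Ne) {v : Vz m} {ε : Fin n → Fin m}
    (hinj : Function.Injective ε) {L₁ : Finset (Fin n) → Fin n → ℝ → ℝ → ℝ}
    (hL₁ : LamW (RecV S v ε) L₁) {L : Finset (Fin m) → Fin m → ℝ → ℝ → ℝ}
    (hL : LamW (RecV S v (id : Fin m → Fin m)) L) (I : Finset (Fin n)) (k : Fin n)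
    {w' w r' r : ℝ} (hw0 : 0 < w) (hw1 : w ≤ 1) (hww : w' < w) (hrr : r' ≤ r) :
    L₁ I k w' r' ≤ L (I.image ε) (ε k) w r :=
  num_sub (ε := (id : Fin m → Fin m)) (f := ε) hne hinj hL₁ hL I k hw0 hw1 hww hrr

end Pool.P62
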