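import Pool.Agent.H62.P3.Inv
import Pool.Agent.H62.P3.Def
import Pool.Agent.H62.P3.Nid
import Pool.Agent.H62.P3.Low3

/-!
# The affine label over two coordinates from a deficit of the entropy

`p3_lab`: in a zoom with a tube and a record, if `y` and `u`, `z` have deficits `Y`, `E`, there is an
affine label of `z` over `y`, `u` of the precision which is expected from the numbers.
-/

set_option autoImplicit false

namespace Pool.P62

open Finset MvPolynomial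
open Pool.Agent.H49.Ent Pool.Agent.H32.Dense Pool.STK Pool.KA Pool.KSAT Pool.K2S Pool.PB Pool.GEN
open Pool.S6C Pool.REX Pool.MIC6 Pool.REX83 Pool.OWN43
open Pool.FLF (Fam.sub)
open Pool.GRD (LbP)

variable {m n J : ℕ}

/-- The numbers of the zoom in the limit of earlier windows. -/
theorem nat_lim {S : PCl m} (hne : S.Ne) {C₀ : ℝ} (hC₀ : 0 ≤ C₀) (htm : TmC S C₀)
    {L : Finset (Fin m) → Fin m → ℝ → ℝ → ℝ} (hL : LamW S L) {y u : Fin m} (hact : ActF S y)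
    (v : Vz m) {L' : Finset (Fin m) → Fin m → ℝ → ℝ → ℝ}
    (hL' : LamW (RecV S v (id : Fin m → Fin m)) L') {w a₀ a x : ℝ} (hw0 : 0 < w) (hw1 : w < 1)
    (hcont : ContinuousAt (fun W => L {y} u W 0) (v.tm w)) (hx : 0 < x) (ha0 : 0 ≤ a₀)
    (ha : a₀ < a) (ha1 : a < 1)
    (hdeep : L {y} u (v.tm w) 0 - v.b + v.p * (1 - v.b) + x ≤ L {y} u a₀ a₀ - a)
    (hQ1 : L {y} u (v.tm w) 0 + v.p * (1 - v.b) ≤ 1) {s : ℝ} (hs : 0 < s) :
    ∃ w₁ r₁ : ℝ, w₁ < w ∧ L {y} u (v.tm w) 0 + v.p * (1 - v.b) - s ≤ v.sc (L' {y} u w₁ r₁) := by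
  have hb := v.b0
  have hb1 := v.b1
  have hp := v.p0
  have hp1 := v.p1
  obtain ⟨c, hc⟩ : ∃ c, c = (1 - v.b) * (1 - v.p) := ⟨_, rfl⟩
  have hc0 : 0 < c := by rw [hc]; exact mul_pos (by linarith) (by linarith)
  have hc1 : c ≤ 1 := by rw [hc]; exact mul_le_one₀ (by linarith) (by linarith) (by linarith)
  have htm' : ∀ t, v.tm t = v.b + c * t := fun t => by rw [hc]; rfl
  obtain ⟨η, hη, hηc⟩ := Metric.continuousAt_iff.1 hcont (s / 2) (by linarith)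
  obtain ⟨o, ho⟩ : ∃ o, o = min (η / 2) (w / 2) := ⟨_, rfl⟩
  have ho0 : 0 < o := by rw [ho]; exact lt_min (by linarith) (by linarith)
  have ho1 : o ≤ η / 2 := by rw [ho]; exact min_le_left _ _
  have ho2 : o ≤ w / 2 := by rw [ho]; exact min_le_right _ _
  have h1 : |L {y} u (v.tm (w - o)) 0 - L {y} u (v.tm w) 0| < s / 2 := by
    have h2 := @hηc (v.tm (w - o)) (by
      rw [Real.dist_eq, htm', htm']
      have e1 : v.b + c * (w - o) - (v.b + c * w) = -(c * o) := by ring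
      rw [e1, abs_neg, abs_of_pos (mul_pos hc0 ho0)]
      have : c * o ≤ 1 * o := mul_le_mul_of_nonneg_right hc1 ho0.le
      linarith)
    rw [Real.dist_eq] at h2
    exact h2
  rw [abs_lt] at h1
  have h3 : L {y} u (v.tm (w - o)) 0 ≤ L {y} u (v.tm w) 0 := by
    refine hL.mono _ _ _ _ _ _ _ (Finset.Subset.refl _) ?_ le_rfl
    rw [htm', htm']
    have : c * (w - o) ≤ c * w := mul_le_mul_of_nonneg_left (by linarith only [ho0]) hc0.le
    linarith only [this]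
  have h4 : v.b ≤ v.tm (w - o) := by
    rw [htm']
    have : 0 ≤ c * (w - o) := mul_nonneg hc0.le (by linarith only [ho2, hw0])
    linarith only [this]
  refine ⟨w - o / 2, 0, by linarith only [ho0], ?_⟩
  have h5 := nat_low hne hC₀ htm hL hact v hL' (u := u) (w₀ := w - o) (w := w - o / 2) (r₀ := 0)
    (r := 0) (a₀ := a₀) (a := a) (Q := L {y} u (v.tm (w - o)) 0) (x := min x (s / 2))
    (by linarith only [ho2, hw0]) (by linarith only [ho0]) (by linarith only [hw1, ho0]) le_rfl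
    (lt_min hx (by linarith only [hs])) ha0 ha ha1 (by
      have := min_le_left x (s / 2)
      linarith only [hdeep, h3, h4, this]) (by linarith only [h3, hQ1])
  have h6 := min_le_right x (s / 2)
  linarith only [h5, h6, h1.1]

/-- **The affine label of the zooms from the numbers.** -/
theorem aff_lab {S : PCl m} {C₀ : ℝ} (hC₀ : 0 ≤ C₀) (htm : TmC S C₀)
    {L : Finset (Fin m) → Fin m → ℝ → ℝ → ℝ} (hL : LamW S L) (v : Vz m)
    (ε : Fin n → Fin m) {L' : Finset (Fin n) → Fin n → ℝ → ℝ → ℝ} (hL' : LamW (RecV S v ε) L')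
    {κ ι k : Fin n} (hκι : κ ≠ ι) (hact : ActZ S v ε κ) (hactF : ActF S (ε κ))
    {w' w r' a₀ a η : ℝ} (hw' : w' < w) (hw0 : 0 < w) (hw1 : w < 1)
    (hcont : ContinuousAt (fun W => L {ε κ} (ε ι) W 0) (v.tm w))
    (hUt : v.tm w < L {ε κ} (ε ι) (v.tm w) 0)
    (hUx : L {ε κ} (ε ι) (v.tm w) 0 + v.p * (1 - v.b) < 1)
    (hLu : ∀ s : ℝ, 0 < s → ∃ w₁ r₁ : ℝ, w₁ < w ∧
      L {ε κ} (ε ι) (v.tm w) 0 + v.p * (1 - v.b) - s ≤ v.sc (L' {κ} ι w₁ r₁))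
    (ha0 : 0 ≤ a₀) (ha : a₀ < a) (ha1 : a < 1)
    (hdeep : L {ε κ} (ε ι) (v.tm w) 0 - v.tm w + v.p * (1 - v.b) < L {ε κ} (ε ι) a₀ a₀ - a)
    (hη : 0 < η) (hpos : 0 < v.sc (L' {κ, ι} k w' r') - v.p * (1 - v.b) - v.tm w) :
    Bas S (fun J F A => ∀ hP : v.P J ≤ J - v.B J,
      ∃ B : F.Ω → Prop, Sub B A ∧ Pe F.p A ≤ 1280 * Pe F.p B ∧
        ∃ (V : Type) (zp : PtT (zmV F hP (v.y J F) ε) → V)
          (zs : LnT (zmV F hP (v.y J F) ε) → V) (cf : V → Fin 4 → ℝ),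
          AfCn F hP (v.y J F) ε κ ι k (⌊w * v.R J⌋₊ + 2) (⌊w * v.R J⌋₊ +
              ⌊(v.sc (L' {κ, ι} k w' r') - v.p * (1 - v.b) - v.tm w - η) * J⌋₊)
            ⌊η * J⌋₊ B zp zs cf ∧ ∀ ω, B ω →
            |cf (zs (slam (zmV F hP (v.y J F) ε) (⌊w * v.R J⌋₊ + 2) ω)) 2| ≤ 2 ^ ⌊η * J⌋₊) := by
  classical
  have hb := v.b0
  have hb1 := v.b1
  have hp := v.p0
  have hp1 := v.p1
  obtain ⟨c, hc⟩ : ∃ c, c = (1 - v.b) * (1 - v.p) := ⟨_, rfl⟩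
  obtain ⟨Pr, hPr⟩ : ∃ Pr, Pr = v.p * (1 - v.b) := ⟨_, rfl⟩
  have hc0 : 0 < c := by rw [hc]; exact mul_pos (by linarith) (by linarith)
  have hPr0 : 0 ≤ Pr := by rw [hPr]; exact mul_nonneg hp (by linarith)
  obtain ⟨Λ, hΛ⟩ : ∃ Λ, Λ = v.sc (L' {κ, ι} k w' r') := ⟨_, rfl⟩
  obtain ⟨U, hU⟩ : ∃ U, U = L {ε κ} (ε ι) (v.tm w) 0 := ⟨_, rfl⟩
  obtain ⟨Dq, hDq⟩ : ∃ D, D = L {ε κ} (ε ι) a₀ a₀ := ⟨_, rfl⟩
  obtain ⟨T, hT⟩ : ∃ T, T = v.tm w := ⟨_, rfl⟩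
  rw [← hΛ, ← hPr, ← hT] at hpos
  rw [← hU, ← hT] at hUt
  rw [← hU, ← hPr] at hUx
  rw [← hU, ← hT, ← hPr, ← hDq] at hdeep
  obtain ⟨x, hx⟩ : ∃ x, x = min (min (c * w) ((Λ - Pr - T) / 3)) (min (min (1 - (U + Pr))
    ((Dq - a - (U - T + Pr)) / 4)) η) := ⟨_, rfl⟩
  have hx0 : 0 < x := by
    rw [hx]
    exact lt_min (lt_min (by positivity) (by linarith only [hpos]))
      (lt_min (lt_min (by linarith only [hUx]) (by linarith only [hdeep])) hη)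
  have x0 : x ≤ c * w ∧ x ≤ (Λ - Pr - T) / 3 ∧ x ≤ 1 - (U + Pr) ∧
      x ≤ (Dq - a - (U - T + Pr)) / 4 ∧ x ≤ η := by
    have := hx.le
    simp only [le_min_iff] at this
    tauto
  obtain ⟨x1, x2, x3, x4, x5⟩ := x0
  obtain ⟨q, hq⟩ : ∃ q, q = Λ - Pr - T - x := ⟨_, rfl⟩
  obtain ⟨s₀, hs₀, haff⟩ := aff_zcr hC₀ htm hL v ε hL' hκι hact hactF (k := k) (w' := w') (w := w)
    (r' := r') (x := x) (q := q) hw' hw0 hw1 hx0 (by rw [← hc]; exact x1)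
    (by rw [hq]; linarith only [x2, hpos]) (by rw [← hΛ, ← hPr, ← hT, hq]; linarith only) hcont
    (by rw [← hU, ← hT]; exact hUt) (by rw [← hU, ← hPr]; linarith only [x3]) hLu
  rw [← hU, ← hT, ← hPr] at haff
  obtain ⟨s, hs⟩ : ∃ s, s = min s₀ (min ((a - a₀) / 3) (x / 4)) := ⟨_, rfl⟩
  have hs0 : 0 < s := by
    rw [hs]
    exact lt_min hs₀ (lt_min (by linarith only [ha]) (by linarith only [hx0]))
  have s0 : s ≤ s₀ ∧ s ≤ (a - a₀) / 3 ∧ s ≤ x / 4 := by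
    have := hs.le
    simp only [le_min_iff] at this
    tauto
  obtain ⟨s1, s2, s3⟩ := s0
  have hdp := dp_cls hL (ε κ) (ε ι) (a₀ := a₀) (a := a) (e := s) ha0 ha ha1 hs0
    (by linarith only [s2]) (by
      rw [← hDq]
      have : 0 ≤ U - T + Pr := by linarith only [hUt, hPr0]
      linarith only [this, x4, s3, hx0])
  rw [← hDq] at hdp
  rw [← hΛ, ← hPr, ← hT]
  refine Bas.mono 0 (haff.and hdp) ?_
  rintro J - F A ⟨h1, au, cu, hau⟩ hP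
  have hJ0 : (0 : ℝ) ≤ J := Nat.cast_nonneg J
  obtain ⟨B, b1, b2, V, zp, zs, cf, b3, b4⟩ := h1 au cu _ _
    (Nat.floor_le_floor (mul_le_mul_of_nonneg_right s1 hJ0)) (by
      refine Nat.floor_le_floor (mul_le_mul_of_nonneg_right ?_ hJ0)
      linarith only [x4, s3, hx0]) hau hP
  have he : ⌊x / 32 * (J : ℝ)⌋₊ ≤ ⌊η * (J : ℝ)⌋₊ :=
    Nat.floor_le_floor (mul_le_mul_of_nonneg_right (by linarith only [x5, hx0]) hJ0)
  refine ⟨B, b1, b2, V, zp, zs, cf, AfCn.mono b3 (Nat.add_le_add_left (Nat.floor_le_floor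
    (mul_le_mul_of_nonneg_right ?_ hJ0)) _) he, fun ω hω => (b4 ω hω).trans
      (pow_le_pow_right₀ (by norm_num) he)⟩
  rw [hq]
  linarith only [x5]

end Pool.P62
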