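import Pool.Agent.H6.OWN.Ngi
import Pool.Agent.H6.OWN.AfcF

/-!
# The natural label in a zoom: families

`ovl`, `ohg`: the own velocity and the own height (at the beginning of a window) of `ι` over an
affine closed label over `κ`. In the zoom with all the coordinates the own velocity is known to `P`
more digits: `near_v`, `near_h`: the rounded own velocity and the rounded own height are functions
of the exact point and of the visible digits of the direction, up to one unit.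
`low_fam`: so the zoom has an affine closed label of `ι` over `κ` of the precision `Q + P`.
-/

set_option autoImplicit false

namespace Pool.P62

open Finset MvPolynomial
open Pool.Agent.H49.Ent Pool.Agent.H32.Dense Pool.STK Pool.KA Pool.KSAT Pool.K2S Pool.PB Pool.GEN
open Pool.S6C Pool.REX Pool.MIC6
open Pool.FLF (Fam.sub)
open Pool.GRD (LbP)
open Pool.PB.Trl (rt rt_mem t_rt)

variable {m J : ℕ}

/-- One of three values is taken on a large part. -/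
theorem pick3 {Ω : Type} [Fintype Ω] {p : Ω → ℝ} (hp : IsLaw p) {B : Ω → Prop} {k : Ω → ℤ}
    (h : ∀ ω, B ω → |k ω| ≤ 1) : ∃ j : ℤ, Pe p B ≤ 3 * Pe p (fun ω => B ω ∧ k ω = j) := by
  by_contra hcon
  push Not at hcon
  have h1 := hcon (-1)
  have h2 := hcon 0
  have h3 := hcon 1
  have h4 := Pe_parts (p := p) (B := B) (B' := fun ω => B ω ∧ k ω = -1) (fun ω hω => hω.1)
  have h5 := Pe_parts (p := p) (B := fun ω => B ω ∧ ¬ (B ω ∧ k ω = -1))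
    (B' := fun ω => B ω ∧ k ω = 0) (fun ω hω => ⟨hω.1, fun h => by
      have h1 := hω.2
      have h2 := h.2
      omega⟩)
  have h6 : Pe p (fun ω => (B ω ∧ ¬ (B ω ∧ k ω = -1)) ∧ ¬ (B ω ∧ k ω = 0)) ≤
      Pe p (fun ω => B ω ∧ k ω = 1) := by
    refine Pe_mono hp fun ω hω => ⟨hω.1.1, ?_⟩
    have a1 : ¬ k ω = -1 := fun h => hω.1.2 ⟨hω.1.1, h⟩
    have a2 : ¬ k ω = 0 := fun h => hω.2 ⟨hω.1.1, h⟩
    have a3 := abs_le.1 (h ω hω.1.1)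
    omega
  linarith

/-- Near numbers have near floors. -/
theorem fl_near {a b : ℝ} (h : |a - b| < 1) : |⌊a⌋ - ⌊b⌋| ≤ 1 := by
  rw [abs_lt] at h
  have a1 := Int.floor_le a
  have a2 := Int.lt_floor_add_one a
  have b1 := Int.floor_le b
  have b2 := Int.lt_floor_add_one b
  have h1 : ((⌊a⌋ - ⌊b⌋ : ℤ) : ℝ) < 2 := by
    push_cast
    linarith only [h.2, a1, b2]
  have h2 : (-2 : ℝ) < ((⌊a⌋ - ⌊b⌋ : ℤ) : ℝ) := by
    push_cast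
    linarith only [h.1, a2, b1]
  have h3 : ⌊a⌋ - ⌊b⌋ < 2 := by exact_mod_cast h1
  have h4 : -2 < ⌊a⌋ - ⌊b⌋ := by exact_mod_cast h2
  rw [abs_le]
  omega

/-- The rounding of a number. -/
theorem fl_div {N : ℕ} (a : ℝ) : |a - (⌊(2 : ℝ) ^ N * a⌋ : ℝ) / 2 ^ N| ≤ 1 / 2 ^ N := by
  have pN : (0 : ℝ) < 2 ^ N := by positivity
  have a1 := Int.floor_le ((2 : ℝ) ^ N * a)
  have a2 := Int.lt_floor_add_one ((2 : ℝ) ^ N * a)
  have e1 : a - (⌊(2 : ℝ) ^ N * a⌋ : ℝ) / 2 ^ N = (2 ^ N * a - (⌊(2 : ℝ) ^ N * a⌋ : ℝ)) / 2 ^ N := by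
    field_simp
  rw [e1, abs_div, abs_of_pos pN]
  refine div_le_div_of_nonneg_right ?_ pN.le
  rw [abs_le]
  constructor <;> linarith only [a1, a2]

/-- The own velocity over an affine closed label. -/
noncomputable def ovl (F : Fam m J) (κ ι : Fin m) (w₁ : ℕ) {V : Type} (zs : LnT F → V)
    (cf : V → Fin 4 → ℝ) (ω : F.Ω) : ℝ :=
  F.d ω ι - cf (zs (slam F w₁ ω)) 1 - cf (zs (slam F w₁ ω)) 2 * F.d ω κ

/-- The own height over an affine closed label at the beginning of the window `W`. -/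
noncomputable def ohg (F : Fam m J) (κ ι : Fin m) (w₁ W : ℕ) {V : Type} (zs : LnT F → V)
    (cf : V → Fin 4 → ℝ) (ω : F.Ω) : ℝ :=
  wp F W ω 0 ι - (cf (zs (slam F w₁ ω)) 0 + cf (zs (slam F w₁ ω)) 1 * wt F W ω 0 +
    cf (zs (slam F w₁ ω)) 2 * wp F W ω 0 κ)

/-- The own velocity, from the exact point and the visible digits of the direction. -/
noncomputable def gv (F : Fam m J) (κ : Fin m) (P N : ℕ) (au cu : PtT F → ℝ) {V : Type}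
    (zp : PtT F → V) (cf : V → Fin 4 → ℝ) (p : PtT F) (D : Fin m → ℤ) : ℤ :=
  ⌊(2 : ℝ) ^ N * ((cu p - cf (zp p) 1) + (au p - cf (zp p) 2) * ((D κ : ℝ) / 2 ^ P))⌋

/-- The own height, from the exact point and the rounded own velocity. -/
noncomputable def gh (F : Fam m J) (κ ι : Fin m) (W N N' : ℕ) {V : Type}
    (zp : PtT F → V) (cf : V → Fin 4 → ℝ) (p : PtT F) (r : ℤ) : ℤ :=
  ⌊(2 : ℝ) ^ N' * (((p.1 ι : ℝ) / 2 ^ J - (cf (zp p) 0 + cf (zp p) 1 * ((p.2.1 : ℝ) / 2 ^ J) +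
    cf (zp p) 2 * ((p.1 κ : ℝ) / 2 ^ J))) - ((p.2.1 : ℝ) / 2 ^ J -
      ((p.2.1 / 2 ^ (J - W) : ℕ) : ℝ) / 2 ^ W) * ((r : ℝ) / 2 ^ N))⌋

/-- **The rounded own velocity is visible.** -/
theorem near_v {F : Fam m J} {κ ι : Fin m} {w₁ Q e M g P N : ℕ} {au cu : PtT F → ℝ}
    {A : F.Ω → Prop} {V : Type} {zp : PtT F → V} {zs : LnT F → V} {cf : V → Fin 4 → ℝ}
    (hcls : ∀ ω, A ω → zp (ptr F J ω) = zs (slam F w₁ ω)) (hdp : Dp F A κ ι e M au cu)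
    (hsl : ∀ ω, A ω → |au (ptr F J ω) - cf (zs (slam F w₁ ω)) 2| ≤ 6 * 2 ^ (w₁ + g) / 2 ^ Q)
    (hN : N + (w₁ + g) + 4 = Q + P) (hM : N + 3 ≤ M) (ω : F.Ω) (hω : A ω) :
    |⌊(2 : ℝ) ^ N * ovl F κ ι w₁ zs cf ω⌋ - gv F κ P N au cu zp cf (ptr F J ω) (F.D P ω)| ≤ 1 := by
  refine fl_near ?_
  have pN : (0 : ℝ) < 2 ^ N := by positivity
  have pP : (0 : ℝ) < 2 ^ P := by positivity
  have pQ : (0 : ℝ) < 2 ^ Q := by positivity
  obtain ⟨-, -, h1⟩ := hdp ω hω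
  have h2 := hsl ω hω
  rw [hcls ω hω]
  obtain ⟨c1, hc1⟩ : ∃ c, c = cf (zs (slam F w₁ ω)) 1 := ⟨_, rfl⟩
  obtain ⟨c2, hc2⟩ : ∃ c, c = cf (zs (slam F w₁ ω)) 2 := ⟨_, rfl⟩
  obtain ⟨a, ha⟩ : ∃ a, a = au (ptr F J ω) := ⟨_, rfl⟩
  obtain ⟨c, hc⟩ : ∃ c, c = cu (ptr F J ω) := ⟨_, rfl⟩
  unfold ovl
  rw [← hc1, ← hc2, ← ha, ← hc]
  rw [← ha, ← hc] at h1
  rw [← ha, ← hc2] at h2
  have hD : |F.d ω κ - (F.D P ω κ : ℝ) / 2 ^ P| ≤ 1 / 2 ^ P := fl_div (F.d ω κ)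
  rw [← mul_sub, abs_mul, abs_of_pos pN]
  have e1 : F.d ω ι - c1 - c2 * F.d ω κ - (c - c1 + (a - c2) * ((F.D P ω κ : ℝ) / 2 ^ P)) =
      (F.d ω ι - c - a * F.d ω κ) + (a - c2) * (F.d ω κ - (F.D P ω κ : ℝ) / 2 ^ P) := by ring
  rw [e1]
  have h3 : |(a - c2) * (F.d ω κ - (F.D P ω κ : ℝ) / 2 ^ P)| ≤
      6 * 2 ^ (w₁ + g) / 2 ^ Q * (1 / 2 ^ P) := by
    rw [abs_mul]
    exact mul_le_mul h2 hD (abs_nonneg _) (by positivity)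
  have h4 : (6 : ℝ) * 2 ^ (w₁ + g) / 2 ^ Q * (1 / 2 ^ P) = 3 / 8 * (1 / 2 ^ N) := by
    have h5 : (2 : ℝ) ^ Q * 2 ^ P = 2 ^ N * 2 ^ (w₁ + g) * 16 := by
      rw [← pow_add, ← hN, pow_add, pow_add]
      norm_num
    rw [div_mul_div_comm, mul_one, h5]
    field_simp
    norm_num
  have h5 : (1 : ℝ) / 2 ^ M ≤ 1 / 8 * (1 / 2 ^ N) := by
    refine (inv_mono hM).trans (le_of_eq ?_)
    rw [pow_add]
    field_simp
    norm_num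
  have h6 := (abs_add_le (F.d ω ι - c - a * F.d ω κ)
    ((a - c2) * (F.d ω κ - (F.D P ω κ : ℝ) / 2 ^ P))).trans (add_le_add (h1.trans h5)
      (h3.trans h4.le))
  refine lt_of_le_of_lt (mul_le_mul_of_nonneg_left h6 pN.le) ?_
  have h7 : (2 : ℝ) ^ N * (1 / 8 * (1 / 2 ^ N) + 3 / 8 * (1 / 2 ^ N)) = 1 / 2 := by
    field_simp
    norm_num
  rw [h7]
  norm_num

/-- **The rounded own height is visible.** -/
theorem near_h {F : Fam m J} {κ ι : Fin m} {w₁ e W N N' : ℕ}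
    {A : F.Ω → Prop} {V : Type} {zp : PtT F → V} {zs : LnT F → V} {cf : V → Fin 4 → ℝ}
    (hcls : ∀ ω, A ω → zp (ptr F J ω) = zs (slam F w₁ ω))
    (hc2 : ∀ ω, A ω → |cf (zs (slam F w₁ ω)) 2| ≤ 2 ^ e)
    (hN : N' = N + w₁) (hw : w₁ + 2 ≤ W) (hWJ : W ≤ J) (hJ : N' + e + 4 ≤ J) (ω : F.Ω)
    (hω : A ω) :
    |⌊(2 : ℝ) ^ N' * ohg F κ ι w₁ W zs cf ω⌋ - gh F κ ι W N N' zp cf (ptr F J ω)
      ⌊(2 : ℝ) ^ N * ovl F κ ι w₁ zs cf ω⌋| ≤ 1 := by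
  refine fl_near ?_
  have pN : (0 : ℝ) < 2 ^ N := by positivity
  have pN' : (0 : ℝ) < 2 ^ N' := by positivity
  have pJ : (0 : ℝ) < 2 ^ J := by positivity
  have pW : (0 : ℝ) < 2 ^ W := by positivity
  have h2 := hc2 ω hω
  rw [hcls ω hω]
  obtain ⟨v, hv⟩ : ∃ v, v = ovl F κ ι w₁ zs cf ω := ⟨_, rfl⟩
  have hr := fl_div (N := N) v
  rw [← hv]
  obtain ⟨r, hrr⟩ : ∃ r, r = ⌊(2 : ℝ) ^ N * v⌋ := ⟨_, rfl⟩
  rw [← hrr] at hr ⊢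
  unfold ovl at hv
  unfold ohg
  obtain ⟨c0, hc0⟩ : ∃ c, c = cf (zs (slam F w₁ ω)) 0 := ⟨_, rfl⟩
  obtain ⟨c1, hc1⟩ : ∃ c, c = cf (zs (slam F w₁ ω)) 1 := ⟨_, rfl⟩
  obtain ⟨c2, hc2'⟩ : ∃ c, c = cf (zs (slam F w₁ ω)) 2 := ⟨_, rfl⟩
  rw [← hc1, ← hc2'] at hv
  rw [← hc2'] at h2
  rw [← hc0, ← hc1, ← hc2']
  have hX : ∀ j, |F.x ω j - ((ptr F J ω).1 j : ℝ) / 2 ^ J| ≤ 1 / 2 ^ J := fun j => fl_div (F.x ω j)
  have hT : ((ptr F J ω).2.1 : ℝ) / 2 ^ J = F.t ω := rfl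
  have hT1 : (((ptr F J ω).2.1 / 2 ^ (J - W) : ℕ) : ℝ) / 2 ^ W = wt F W ω 0 := by
    unfold wt
    rw [mul_zero, add_zero]
    rfl
  rw [hT, hT1]
  have hwp : ∀ j, wp F W ω 0 j = F.x ω j + (wt F W ω 0 - F.t ω) * F.d ω j := by
    intro j
    unfold wp Fam.x
    ring
  have htt : |F.t ω - wt F W ω 0| ≤ 1 / 2 ^ W := by
    have e1 : F.t ω - wt F W ω 0 = 1 / 2 ^ W * rt F W ω := by
      rw [t_rt F hWJ ω]
      unfold wt
      ring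
    have e2 := rt_mem F W ω
    rw [e1, abs_mul, abs_of_pos (by positivity : (0 : ℝ) < 1 / 2 ^ W), abs_of_nonneg e2.1]
    exact mul_le_of_le_one_right (by positivity) e2.2
  rw [hwp, hwp, ← mul_sub, abs_mul, abs_of_pos pN']
  have e1 : F.x ω ι + (wt F W ω 0 - F.t ω) * F.d ω ι -
      (c0 + c1 * wt F W ω 0 + c2 * (F.x ω κ + (wt F W ω 0 - F.t ω) * F.d ω κ)) -
      (((ptr F J ω).1 ι : ℝ) / 2 ^ J - (c0 + c1 * F.t ω + c2 * (((ptr F J ω).1 κ : ℝ) / 2 ^ J)) -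
        (F.t ω - wt F W ω 0) * ((r : ℝ) / 2 ^ N)) =
      (F.x ω ι - ((ptr F J ω).1 ι : ℝ) / 2 ^ J) - c2 * (F.x ω κ - ((ptr F J ω).1 κ : ℝ) / 2 ^ J) -
        (F.t ω - wt F W ω 0) * (v - (r : ℝ) / 2 ^ N) := by
    rw [hv]
    ring
  rw [e1]
  have h3 : |c2 * (F.x ω κ - ((ptr F J ω).1 κ : ℝ) / 2 ^ J)| ≤ 2 ^ e * (1 / 2 ^ J) := by
    rw [abs_mul]
    exact mul_le_mul h2 (hX κ) (abs_nonneg _) (by positivity)
  have h4 : |(F.t ω - wt F W ω 0) * (v - (r : ℝ) / 2 ^ N)| ≤ 1 / 2 ^ W * (1 / 2 ^ N) := by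
    rw [abs_mul]
    exact mul_le_mul htt hr (abs_nonneg _) (by positivity)
  have h5 := hX ι
  have pe : (1 : ℝ) ≤ 2 ^ e := one_le_pow₀ (by norm_num)
  have h6 : (2 : ℝ) ^ N' * (2 ^ e * (1 / 2 ^ J)) ≤ 1 / 16 := by
    have k1 : (2 : ℝ) ^ N' * 2 ^ e * 16 ≤ 2 ^ J := by
      have : (2 : ℝ) ^ N' * 2 ^ e * 16 = 2 ^ (N' + e + 4) := by
        rw [pow_add, pow_add]
        norm_num
      rw [this]
      exact pow_le_pow_right₀ (by norm_num) hJ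
    rw [mul_one_div, mul_div_assoc', div_le_iff₀ pJ]
    linarith only [k1]
  have h7 : (2 : ℝ) ^ N' * (1 / 2 ^ W * (1 / 2 ^ N)) ≤ 1 / 4 := by
    have k1 : (2 : ℝ) ^ N' * 4 ≤ 2 ^ W * 2 ^ N := by
      have : (2 : ℝ) ^ N' * 4 = 2 ^ (N' + 2) := by
        rw [pow_add]
        norm_num
      rw [this, ← pow_add]
      exact pow_le_pow_right₀ (by norm_num) (by omega)
    rw [div_mul_div_comm, mul_one, mul_one_div, div_le_iff₀ (by positivity)]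
    linarith only [k1]
  have h8 : (2 : ℝ) ^ N' * (1 / 2 ^ J) ≤ 1 / 16 := by
    refine le_trans ?_ h6
    refine mul_le_mul_of_nonneg_left ?_ pN'.le
    exact le_mul_of_one_le_left (by positivity) pe
  obtain ⟨x1, hx1⟩ : ∃ x, x = F.x ω ι - ((ptr F J ω).1 ι : ℝ) / 2 ^ J := ⟨_, rfl⟩
  obtain ⟨x2, hx2⟩ : ∃ x, x = c2 * (F.x ω κ - ((ptr F J ω).1 κ : ℝ) / 2 ^ J) := ⟨_, rfl⟩
  obtain ⟨x3, hx3⟩ : ∃ x, x = (F.t ω - wt F W ω 0) * (v - (r : ℝ) / 2 ^ N) := ⟨_, rfl⟩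
  rw [← hx1] at h5
  rw [← hx2] at h3
  rw [← hx3] at h4
  rw [← hx1, ← hx2, ← hx3]
  have h9 : |x1 - x2 - x3| ≤ 1 / 2 ^ J + 2 ^ e * (1 / 2 ^ J) + 1 / 2 ^ W * (1 / 2 ^ N) :=
    (abs_sub _ _).trans (add_le_add ((abs_sub _ _).trans (add_le_add h5 h3)) h4)
  refine lt_of_le_of_lt (mul_le_mul_of_nonneg_left h9 pN'.le) ?_
  rw [mul_add, mul_add]
  linarith only [h6, h7, h8]

end Pool.P62
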