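import Pool.Agent.H62.P3.Low

/-!
# The natural label in a zoom: the label

`low_fam`: in the zoom with all the coordinates there is an affine closed label of `ι` over `κ`
which has the precision of the label of the family and the digits of the tube.
-/

set_option autoImplicit false

namespace Pool.P62

open Finset MvPolynomial
open Pool.Agent.H49.Ent Pool.Agent.H32.Dense Pool.STK Pool.KA Pool.KSAT Pool.K2S Pool.PB Pool.GEN
open Pool.S6C Pool.REX Pool.MIC6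
open Pool.FLF (Fam.sub)
open Pool.GRD (LbP)
open Pool.PB.Trl (rt rt_mem t_rt)

variable {m J : ℕ}

/-- The coefficients of the label of the zoom. -/
noncomputable def zcf (F : Fam m J) {B P : ℕ} (hP : P ≤ J - B) {Y : Type} (yy : F.Ω → Y)
    (κ ι : Fin m) (N N' wz : ℕ) {V : Type} (cf : V → Fin 4 → ℝ)
    (x : Option (V × ℤ × ℤ) × ((zmV F hP yy (id : Fin m → Fin m)).ζ × ℕ)) : Fin 4 → ℝ :=
  match x.1 with
  | none => 0
  | some c => ![2 ^ (B + P) * (cf c.1 0 + cf c.1 1 * ((x.2.1.2.2.1.1 : ℝ) / 2 ^ B) +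
        (c.2.2 : ℝ) / 2 ^ N' - (c.2.1 : ℝ) / 2 ^ N * ((x.2.2 : ℝ) / 2 ^ (B + wz))) +
        cf c.1 2 * (2 ^ P * (x.2.1.2.2.1.2 κ : ℝ) + (x.2.1.1.1 κ : ℝ)) -
        (2 ^ P * (x.2.1.2.2.1.2 ι : ℝ) + (x.2.1.1.1 ι : ℝ)),
      2 ^ P * (cf c.1 1 + (c.2.1 : ℝ) / 2 ^ N) + cf c.1 2 * (x.2.1.1.2 κ : ℝ) - (x.2.1.1.2 ι : ℝ),
      cf c.1 2, 0]

/-- **The label of the zoom at all times of the window.** -/
theorem zcf_all (F : Fam m J) {B P : ℕ} (hP : P ≤ J - B) {Y : Type} (yy : F.Ω → Y) (hB : B ≤ J)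
    {κ ι : Fin m} {w₁ N N' wz : ℕ} {V : Type} {zs : LnT F → V} {cf : V → Fin 4 → ℝ}
    (hwz : wz ≤ J - B - P) (ω : F.Ω)
    {x : Option (V × ℤ × ℤ) × ((zmV F hP yy (id : Fin m → Fin m)).ζ × ℕ)}
    (h1 : x.1 = some (zs (slam F w₁ ω), ⌊(2 : ℝ) ^ N * ovl F κ ι w₁ zs cf ω⌋,
      ⌊(2 : ℝ) ^ N' * ohg F κ ι w₁ (B + wz) zs cf ω⌋))
    (h2 : x.2 = ((zmV F hP yy (id : Fin m → Fin m)).Z ω,
      (zmV F hP yy (id : Fin m → Fin m)).T1 wz ω)) {σ : ℝ} (hσ : σ ∈ Set.Icc (0 : ℝ) 1) :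
    |wp (zmV F hP yy (id : Fin m → Fin m)) wz ω σ ι -
      eval (wpt (zmV F hP yy (id : Fin m → Fin m)) wz ω σ) (afq κ κ
        (zcf F hP yy κ ι N N' wz cf x 0) (zcf F hP yy κ ι N N' wz cf x 1)
        (zcf F hP yy κ ι N N' wz cf x 2) (zcf F hP yy κ ι N N' wz cf x 3))| ≤
      2 ^ (B + P) * (1 / 2 ^ N' + 1 / 2 ^ N * (1 / 2 ^ (B + wz))) := by
  have pB : (0 : ℝ) < 2 ^ B := by positivity
  have pBP : (0 : ℝ) < 2 ^ (B + P) := by positivity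
  have pW : (0 : ℝ) < 2 ^ (B + wz) := by positivity
  obtain ⟨v, hv⟩ : ∃ v, v = ovl F κ ι w₁ zs cf ω := ⟨_, rfl⟩
  obtain ⟨h, hh⟩ : ∃ h, h = ohg F κ ι w₁ (B + wz) zs cf ω := ⟨_, rfl⟩
  rw [← hv, ← hh] at h1
  have hr := fl_div (N := N) v
  have hs := fl_div (N := N') h
  obtain ⟨r, hrr⟩ : ∃ r, r = ⌊(2 : ℝ) ^ N * v⌋ := ⟨_, rfl⟩
  obtain ⟨s, hss⟩ : ∃ s, s = ⌊(2 : ℝ) ^ N' * h⌋ := ⟨_, rfl⟩
  rw [← hrr, ← hss] at h1
  rw [← hrr] at hr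
  rw [← hss] at hs
  obtain ⟨c0, hc0⟩ : ∃ c, c = cf (zs (slam F w₁ ω)) 0 := ⟨_, rfl⟩
  obtain ⟨c1, hc1⟩ : ∃ c, c = cf (zs (slam F w₁ ω)) 1 := ⟨_, rfl⟩
  obtain ⟨c2, hc2⟩ : ∃ c, c = cf (zs (slam F w₁ ω)) 2 := ⟨_, rfl⟩
  have hv' : v = F.d ω ι - c1 - c2 * F.d ω κ := by
    rw [hv, hc1, hc2]
    rfl
  have hh' : h = wp F (B + wz) ω 0 ι - (c0 + c1 * wt F (B + wz) ω 0 +
      c2 * wp F (B + wz) ω 0 κ) := by
    rw [hh, hc0, hc1, hc2]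
    rfl
  obtain ⟨x1, x2⟩ := x
  simp only at h1 h2
  subst h1
  subst h2
  have z0 : zcf F hP yy κ ι N N' wz cf (some (zs (slam F w₁ ω), r, s),
      ((zmV F hP yy (id : Fin m → Fin m)).Z ω, (zmV F hP yy (id : Fin m → Fin m)).T1 wz ω)) 0 =
      2 ^ (B + P) * (c0 + c1 * ((F.T1 B ω : ℝ) / 2 ^ B) + (s : ℝ) / 2 ^ N' - (r : ℝ) / 2 ^ N *
        (((zmV F hP yy (id : Fin m → Fin m)).T1 wz ω : ℝ) / 2 ^ (B + wz))) +
        c2 * (2 ^ P * (fl B (F.x1 B ω) κ : ℝ) + (((F.win B).L P ω).1 κ : ℝ)) -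
        (2 ^ P * (fl B (F.x1 B ω) ι : ℝ) + (((F.win B).L P ω).1 ι : ℝ)) := by
    rw [hc0, hc1, hc2]
    rfl
  have z1 : zcf F hP yy κ ι N N' wz cf (some (zs (slam F w₁ ω), r, s),
      ((zmV F hP yy (id : Fin m → Fin m)).Z ω, (zmV F hP yy (id : Fin m → Fin m)).T1 wz ω)) 1 =
      2 ^ P * (c1 + (r : ℝ) / 2 ^ N) + c2 * (((F.win B).L P ω).2 κ : ℝ) -
        (((F.win B).L P ω).2 ι : ℝ) := by
    rw [hc1, hc2]
    rfl
  have z2 : zcf F hP yy κ ι N N' wz cf (some (zs (slam F w₁ ω), r, s),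
      ((zmV F hP yy (id : Fin m → Fin m)).Z ω, (zmV F hP yy (id : Fin m → Fin m)).T1 wz ω)) 2 =
      c2 := by
    rw [hc2]
    rfl
  have z3 : zcf F hP yy κ ι N N' wz cf (some (zs (slam F w₁ ω), r, s),
      ((zmV F hP yy (id : Fin m → Fin m)).Z ω, (zmV F hP yy (id : Fin m → Fin m)).T1 wz ω)) 3 =
      0 := rfl
  rw [z0, z1, z2, z3, eval_afq]
  have n3 : wpt (zmV F hP yy (id : Fin m → Fin m)) wz ω σ none =
      wt (zmV F hP yy (id : Fin m → Fin m)) wz ω σ := rfl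
  have n4 : ∀ j, wpt (zmV F hP yy (id : Fin m → Fin m)) wz ω σ (some j) =
      wp (zmV F hP yy (id : Fin m → Fin m)) wz ω σ j := fun _ => rfl
  rw [n3, n4]
  have ht := zmV_wt F hP yy (id : Fin m → Fin m) hB hwz ω σ
  have hx := zmV_wp F hP yy (id : Fin m → Fin m) hB hwz ω σ
  have hT : (((zmV F hP yy (id : Fin m → Fin m)).T1 wz ω : ℕ) : ℝ) / 2 ^ (B + wz) =
      wt F (B + wz) ω 0 - (F.T1 B ω : ℝ) / 2 ^ B := by
    have k1 := zmV_wt F hP yy (id : Fin m → Fin m) hB hwz ω 0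
    have k2 : wt (zmV F hP yy (id : Fin m → Fin m)) wz ω 0 =
        ((zmV F hP yy (id : Fin m → Fin m)).T1 wz ω : ℝ) / 2 ^ wz := by
      unfold wt
      rw [mul_zero, add_zero]
      rfl
    rw [k2] at k1
    have k3 : wt F (B + wz) ω 0 - (F.T1 B ω : ℝ) / 2 ^ B =
        (2 ^ B * wt F (B + wz) ω 0 - F.T1 B ω) / 2 ^ B := by
      field_simp
    rw [k3, ← k1, pow_add]
    field_simp
  rw [hT]
  obtain ⟨tz, htz⟩ : ∃ tz, tz = wt (zmV F hP yy (id : Fin m → Fin m)) wz ω σ := ⟨_, rfl⟩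
  rw [← htz] at ht hx ⊢
  rw [hx ι, hx κ]
  have e1 : wt F (B + wz) ω σ = wt F (B + wz) ω 0 + σ / 2 ^ (B + wz) := by
    unfold wt
    ring
  have e2 : ∀ j, wp F (B + wz) ω σ j = wp F (B + wz) ω 0 j + F.d ω j * (σ / 2 ^ (B + wz)) := by
    intro j
    unfold wp
    rw [e1]
    ring
  have e3 : tz = 2 ^ B * (wt F (B + wz) ω 0 + σ / 2 ^ (B + wz)) - F.T1 B ω := by
    rw [ht, e1]
  have key : 2 ^ (B + P) * wp F (B + wz) ω σ (id ι) -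
      (2 ^ P * (fl B (F.x1 B ω) (id ι) : ℝ) + (((F.win B).L P ω).1 (id ι) : ℝ) +
        (((F.win B).L P ω).2 (id ι) : ℝ) * tz) -
      ((2 ^ (B + P) * (c0 + c1 * ((F.T1 B ω : ℝ) / 2 ^ B) + (s : ℝ) / 2 ^ N' - (r : ℝ) / 2 ^ N *
        (wt F (B + wz) ω 0 - (F.T1 B ω : ℝ) / 2 ^ B)) +
        c2 * (2 ^ P * (fl B (F.x1 B ω) κ : ℝ) + (((F.win B).L P ω).1 κ : ℝ)) -
        (2 ^ P * (fl B (F.x1 B ω) ι : ℝ) + (((F.win B).L P ω).1 ι : ℝ))) +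
      ((2 ^ P * (c1 + (r : ℝ) / 2 ^ N) + c2 * (((F.win B).L P ω).2 κ : ℝ) -
        (((F.win B).L P ω).2 ι : ℝ)) * tz + (c2 * (2 ^ (B + P) * wp F (B + wz) ω σ (id κ) -
      (2 ^ P * (fl B (F.x1 B ω) (id κ) : ℝ) + (((F.win B).L P ω).1 (id κ) : ℝ) +
        (((F.win B).L P ω).2 (id κ) : ℝ) * tz)) + 0 * (2 ^ (B + P) * wp F (B + wz) ω σ (id κ) -
      (2 ^ P * (fl B (F.x1 B ω) (id κ) : ℝ) + (((F.win B).L P ω).1 (id κ) : ℝ) +
        (((F.win B).L P ω).2 (id κ) : ℝ) * tz))))) =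
      2 ^ (B + P) * ((h - (s : ℝ) / 2 ^ N') + (v - (r : ℝ) / 2 ^ N) * (σ / 2 ^ (B + wz))) := by
    simp only [id]
    rw [e2, e2, e3, hh', hv', pow_add]
    field_simp
    ring
  rw [key, abs_mul, abs_of_pos pBP]
  refine mul_le_mul_of_nonneg_left ?_ pBP.le
  refine (abs_add_le _ _).trans (add_le_add hs ?_)
  rw [abs_mul]
  refine mul_le_mul hr ?_ (abs_nonneg _) (by positivity)
  rw [abs_div, abs_of_pos pW, abs_of_nonneg hσ.1]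
  exact div_le_div_of_nonneg_right hσ.2 pW.le

/-- **The natural label in the zoom**, in one family. -/
theorem low_fam (F : Fam m J) {B P : ℕ} (hP : P ≤ J - B) (hB : B ≤ J) {Y : Type} (yy : F.Ω → Y)
    (hy : ∀ ω ω' : F.Ω, slam F B ω = slam F B ω' → yy ω = yy ω')
    {κ ι : Fin m} {w₁ Q e e' M g N N' wz : ℕ} {au cu : PtT F → ℝ} {A : F.Ω → Prop} {V : Type}
    {zp : PtT F → V} {zs : LnT F → V} {cf : V → Fin 4 → ℝ} (hA0 : 0 < Pe F.p A)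
    (hcls : ∀ ω, A ω → zp (ptr F J ω) = zs (slam F w₁ ω))
    (hc2 : ∀ ω, A ω → |cf (zs (slam F w₁ ω)) 2| ≤ 2 ^ e) (hdp : Dp F A κ ι e' M au cu)
    (hsl : ∀ ω, A ω → |au (ptr F J ω) - cf (zs (slam F w₁ ω)) 2| ≤ 6 * 2 ^ (w₁ + g) / 2 ^ Q)
    (hN : N + (w₁ + g) + 4 = Q + P) (hM : N + 3 ≤ M) (hN' : N' = N + w₁)
    (hw : w₁ + 2 ≤ B + wz) (hwz : wz + 1 ≤ J - B - P) (hJ : N' + e + 4 ≤ J) {θ : ℝ}
    (hT : ∀ A' : F.Ω → Prop, Sub A' A → Pe F.p A ≤ 9 * Pe F.p A' →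
      TmQ F (Pool.Agent.H49.Ent.cond F.p A' True) θ)
    {Q' : ℕ} (hQ' : Q' + B + g + 6 ≤ Q) (hwQ : wz ≤ Q') :
    ∃ A' : F.Ω → Prop, Sub A' A ∧
      Real.exp (-(m * k99 + θ + Real.log 2)) * Pe F.p A ≤ 9 * Pe F.p A' ∧
      ∀ ρ : ℕ, Lb (zmV F hP yy (id : Fin m → Fin m)) {κ} ι 1 (e + 3) (J - B - P) wz ρ Q' A' := by
  classical
  have hwzR : wz ≤ J - B - P := by omega
  have hWJ : B + wz ≤ J := by omega
  have hw₁W : w₁ ≤ B + wz := by omega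
  -- the two roundings
  obtain ⟨n₁, hn₁⟩ := pick3 F.isLaw (B := A) (near_v (P := P) hcls hdp hsl hN hM)
  obtain ⟨A₁, hA₁⟩ : ∃ A₁ : F.Ω → Prop, A₁ = fun ω => A ω ∧
    ⌊(2 : ℝ) ^ N * ovl F κ ι w₁ zs cf ω⌋ - gv F κ P N au cu zp cf (ptr F J ω) (F.D P ω) = n₁ :=
    ⟨_, rfl⟩
  rw [← hA₁] at hn₁
  have hA₁A : Sub A₁ A := fun ω hω => by
    rw [hA₁] at hω
    exact hω.1
  obtain ⟨n₂, hn₂⟩ := pick3 F.isLaw (B := A₁) (fun ω hω =>
    near_h (W := B + wz) hcls hc2 hN' hw hWJ hJ ω (hA₁A ω hω))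
  obtain ⟨A₂, hA₂⟩ : ∃ A₂ : F.Ω → Prop, A₂ = fun ω => A₁ ω ∧
    ⌊(2 : ℝ) ^ N' * ohg F κ ι w₁ (B + wz) zs cf ω⌋ - gh F κ ι (B + wz) N N' zp cf (ptr F J ω)
      ⌊(2 : ℝ) ^ N * ovl F κ ι w₁ zs cf ω⌋ = n₂ := ⟨_, rfl⟩
  rw [← hA₂] at hn₂
  have hA₂A₁ : Sub A₂ A₁ := fun ω hω => by
    rw [hA₂] at hω
    exact hω.1
  have hA₂A : Sub A₂ A := fun ω hω => hA₁A ω (hA₂A₁ ω hω)
  have hP9 : Pe F.p A ≤ 9 * Pe F.p A₂ := by linarith only [hn₁, hn₂]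
  have hA₂0 : 0 < Pe F.p A₂ := by linarith only [hP9, hA0]
  -- closed in the zoom
  obtain ⟨Yf, hYf⟩ : ∃ Yf : F.Ω → V × ℤ × ℤ, Yf = fun ω => (zs (slam F w₁ ω),
    ⌊(2 : ℝ) ^ N * ovl F κ ι w₁ zs cf ω⌋, ⌊(2 : ℝ) ^ N' * ohg F κ ι w₁ (B + wz) zs cf ω⌋) :=
    ⟨_, rfl⟩
  obtain ⟨zl, hzl⟩ := fac (f := slam F (B + wz)) (Y := Yf) (B := A₂) (by
    intro ω ω' _ _ h
    have s1 : slam F w₁ ω = slam F w₁ ω' := by
      rw [Pool.PB.slam_coarse F hw₁W hWJ ω, Pool.PB.slam_coarse F hw₁W hWJ ω', h]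
    have s2 : F.l ω = F.l ω' := (Prod.ext_iff.1 h).1
    have s3 : F.u ω = F.u ω' := (Prod.ext_iff.1 s2).1
    have s4 : F.d ω = F.d ω' := (Prod.ext_iff.1 s2).2
    have s5 : wt F (B + wz) ω 0 = wt F (B + wz) ω' 0 := by
      unfold wt
      rw [h]
    rw [hYf]
    simp only [ovl, ohg, wp, s1, s3, s4, s5])
  obtain ⟨zq, hzq⟩ : ∃ zq : PtT F → Y → (Fin m → ℤ) → Option (V × ℤ × ℤ), zq = fun p _ D =>
      some (zp p, gv F κ P N au cu zp cf p D + n₁, gh F κ ι (B + wz) N N' zp cf p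
        (gv F κ P N au cu zp cf p D + n₁) + n₂) := ⟨_, rfl⟩
  have hzz : ∀ ω, A₂ ω → zq (ptr F J ω) (yy ω) (F.D P ω) = zl (slam F (B + wz) ω) := by
    intro ω hω
    rw [hzl ω hω, hYf, hzq]
    have k1 : A₁ ω := hA₂A₁ ω hω
    rw [hA₁] at k1
    rw [hA₂] at hω
    have k2 : gv F κ P N au cu zp cf (ptr F J ω) (F.D P ω) + n₁ =
        ⌊(2 : ℝ) ^ N * ovl F κ ι w₁ zs cf ω⌋ := by
      have := k1.2
      omega
    simp only
    rw [k2, hcls ω k1.1]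
    have k3 : gh F κ ι (B + wz) N N' zp cf (ptr F J ω)
        ⌊(2 : ℝ) ^ N * ovl F κ ι w₁ zs cf ω⌋ + n₂ =
        ⌊(2 : ℝ) ^ N' * ohg F κ ι w₁ (B + wz) zs cf ω⌋ := by
      have := hω.2
      omega
    rw [k3]
  obtain ⟨A', hA'A, hPA', z₁, z₁', hz1, hz2⟩ := closed F hP yy (z := zq) (z' := zl) hB hy hA₂0
    (hT A₂ hA₂A hP9) (W := B + wz) (by omega) hwz (by omega) hzz
  refine ⟨A', fun ω hω => hA₂A ω (hA'A ω hω), ?_, fun ρ => ?_⟩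
  · have h1 := mul_le_mul_of_nonneg_left hP9 (Real.exp_pos (-(m * k99 + θ + Real.log 2))).le
    linarith only [h1, hPA']
  -- the label
  obtain ⟨zp₂, hzp₂⟩ : ∃ zp₂ : PtT (zmV F hP yy (id : Fin m → Fin m)) →
      Option (V × ℤ × ℤ) × ((zmV F hP yy (id : Fin m → Fin m)).ζ × ℕ),
      zp₂ = fun p => (z₁ p, (p.2.2, p.2.1 / 2 ^ (J - B - P - wz))) := ⟨_, rfl⟩
  obtain ⟨zs₂, hzs₂⟩ : ∃ zs₂ : LnT (zmV F hP yy (id : Fin m → Fin m)) →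
      Option (V × ℤ × ℤ) × ((zmV F hP yy (id : Fin m → Fin m)).ζ × ℕ),
      zs₂ = fun s => (z₁' s, s.2) := ⟨_, rfl⟩
  have hall : ∀ ω, A' ω → ∀ σ ∈ Set.Icc (0 : ℝ) 1,
      |wp (zmV F hP yy (id : Fin m → Fin m)) wz ω σ ι -
      eval (wpt (zmV F hP yy (id : Fin m → Fin m)) wz ω σ) (afq κ κ
        (zcf F hP yy κ ι N N' wz cf (zs₂ (slam (zmV F hP yy (id : Fin m → Fin m)) wz ω)) 0)
        (zcf F hP yy κ ι N N' wz cf (zs₂ (slam (zmV F hP yy (id : Fin m → Fin m)) wz ω)) 1)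
        (zcf F hP yy κ ι N N' wz cf (zs₂ (slam (zmV F hP yy (id : Fin m → Fin m)) wz ω)) 2)
        (zcf F hP yy κ ι N N' wz cf (zs₂ (slam (zmV F hP yy (id : Fin m → Fin m)) wz ω)) 3))| ≤
      1 / 2 ^ (Q' + 1) := by
    intro ω hω σ hσ
    refine (zcf_all F hP yy hB hwzR ω (w₁ := w₁) (zs := zs) (by
      rw [hzs₂]
      have k1 := hz2 ω hω
      rw [hzl ω (hA'A ω hω), hYf] at k1
      exact k1) (by
      rw [hzs₂]
      rfl) hσ).trans ?_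
    have k1 : (1 : ℝ) / 2 ^ N * (1 / 2 ^ (B + wz)) ≤ 1 / 2 ^ N' := by
      rw [div_mul_div_comm, mul_one, ← pow_add]
      exact inv_mono (by omega)
    have k2 : (2 : ℝ) ^ (B + P) * (1 / 2 ^ N' + 1 / 2 ^ N * (1 / 2 ^ (B + wz))) ≤
        2 ^ (B + P) * (2 * (1 / 2 ^ N')) :=
      mul_le_mul_of_nonneg_left (by linarith only [k1]) (by positivity)
    refine k2.trans ?_
    have k3 : (2 : ℝ) ^ (B + P) * (2 * (1 / 2 ^ N')) = 2 ^ (B + P + 1) / 2 ^ N' := by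
      rw [pow_succ]
      ring
    rw [k3, div_le_div_iff₀ (by positivity) (by positivity), one_mul, ← pow_add]
    exact pow_le_pow_right₀ (by norm_num) (by omega)
  have hcls₂ : ∀ ω, A' ω → zp₂ (ptr (zmV F hP yy (id : Fin m → Fin m)) (J - B - P) ω) =
      zs₂ (slam (zmV F hP yy (id : Fin m → Fin m)) wz ω) := by
    intro ω hω
    rw [hzp₂, hzs₂]
    exact Prod.ext (hz1 ω hω) rfl
  have hlab : LbP (zmV F hP yy (id : Fin m → Fin m)) {κ, κ} ι 1 (J - B - P) wz (Q' + 1) A'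
      zp₂ zs₂ (fun x => afq κ κ (zcf F hP yy κ ι N N' wz cf x 0)
        (zcf F hP yy κ ι N N' wz cf x 1) (zcf F hP yy κ ι N N' wz cf x 2)
        (zcf F hP yy κ ι N N' wz cf x 3)) := by
    refine ⟨fun x => deg_afq _ _ _ _ _ _, fun x b b' hb hb' => ?_, hcls₂, fun ω hω => ?_⟩
    · rw [eval_afq, eval_afq, hb, hb' κ (Finset.mem_insert_self _ _)]
    · have h1 := hall ω hω (rt (zmV F hP yy (id : Fin m → Fin m)) wz ω)
        (rt_mem (zmV F hP yy (id : Fin m → Fin m)) wz ω)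
      have hp : ∀ j, wp (zmV F hP yy (id : Fin m → Fin m)) wz ω
          (rt (zmV F hP yy (id : Fin m → Fin m)) wz ω) j =
          (zmV F hP yy (id : Fin m → Fin m)).x ω j := fun j => by
        rw [wp_eq (zmV F hP yy (id : Fin m → Fin m)) hwzR]
        ring
      have hb : wpt (zmV F hP yy (id : Fin m → Fin m)) wz ω
          (rt (zmV F hP yy (id : Fin m → Fin m)) wz ω) =
          bt (zmV F hP yy (id : Fin m → Fin m)) ω := by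
        funext o
        cases o with
        | none =>
          show wt (zmV F hP yy (id : Fin m → Fin m)) wz ω
            (rt (zmV F hP yy (id : Fin m → Fin m)) wz ω) =
            (zmV F hP yy (id : Fin m → Fin m)).t ω
          rw [t_rt (zmV F hP yy (id : Fin m → Fin m)) hwzR ω]
          unfold wt
          ring
        | some j => exact hp j
      rw [hp, hb] at h1
      exact h1
  have h2 : ∀ ω, A' ω →
      |zcf F hP yy κ ι N N' wz cf (zs₂ (slam (zmV F hP yy (id : Fin m → Fin m)) wz ω)) 2| ≤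
        2 ^ e ∧
      |zcf F hP yy κ ι N N' wz cf (zs₂ (slam (zmV F hP yy (id : Fin m → Fin m)) wz ω)) 3| ≤
        2 ^ e := by
    intro ω hω
    have k1 := hz2 ω hω
    rw [hzl ω (hA'A ω hω), hYf] at k1
    rw [hzs₂]
    constructor
    · have k2 : zcf F hP yy κ ι N N' wz cf (z₁' (slam (zmV F hP yy (id : Fin m → Fin m)) wz ω),
          (slam (zmV F hP yy (id : Fin m → Fin m)) wz ω).2) 2 = cf (zs (slam F w₁ ω)) 2 := by
        unfold zcf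
        rw [show z₁' (slam (zmV F hP yy (id : Fin m → Fin m)) wz ω) = _ from k1]
        rfl
      exact (le_of_eq (congrArg abs k2)).trans (hc2 ω (hA₂A ω (hA'A ω hω)))
    · have k2 : zcf F hP yy κ ι N N' wz cf (z₁' (slam (zmV F hP yy (id : Fin m → Fin m)) wz ω),
          (slam (zmV F hP yy (id : Fin m → Fin m)) wz ω).2) 3 = 0 := by
        unfold zcf
        rw [show z₁' (slam (zmV F hP yy (id : Fin m → Fin m)) wz ω) = _ from k1]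
        rfl
      refine (le_of_eq (congrArg abs k2)).trans ?_
      rw [abs_zero]
      positivity
  have h3 := lb_afq hlab h2 hall le_rfl hwQ ρ
  rw [Finset.pair_eq_singleton] at h3
  exact ⟨_, _, _, _, h3⟩

end Pool.P62
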