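import Pool.Agent.H62.P3.Comp
import Pool.Agent.H6.OWN.NgD

/-!
# The numbers of compositions

`num_comp`: the number of `k` over `I` is at least the smaller one of the number of `k` over `ι`, `I`
and of the number of `ι` over `I`.
-/

set_option autoImplicit false

namespace Pool.P62

open Finset MvPolynomial
open Pool.Agent.H49.Ent Pool.Agent.H32.Dense Pool.STK Pool.KA Pool.KSAT Pool.K2S Pool.PB Pool.GEN
open Pool.S6C Pool.REX Pool.MIC6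
open Pool.FLF (Fam.sub sub_CH)

variable {m J : ℕ}

/-- The error of a composition. -/
theorem comp_err {X : ℝ} {N e₁ P P₁ P₂ : ℕ} (hX : X ≤ 2 ^ N) (h1 : P + N + 1 ≤ P₁)
    (h2 : P + N + e₁ + 1 ≤ P₂) : X * (1 / 2 ^ P₁ + 2 ^ e₁ / 2 ^ P₂) ≤ 1 / 2 ^ P := by
  have a1 : (1 : ℝ) / 2 ^ P₁ ≤ 1 / 2 ^ (P + N + 1) := inv_mono h1
  have a2 : (2 : ℝ) ^ e₁ / 2 ^ P₂ ≤ 1 / 2 ^ (P + N + 1) := by
    rw [div_le_div_iff₀ (by positivity) (by positivity), one_mul, ← pow_add]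
    exact pow_le_pow_right₀ (by norm_num) (by omega)
  calc X * (1 / 2 ^ P₁ + 2 ^ e₁ / 2 ^ P₂) ≤ 2 ^ N * (1 / 2 ^ P₁ + 2 ^ e₁ / 2 ^ P₂) :=
        mul_le_mul_of_nonneg_right hX (by positivity)
    _ ≤ 2 ^ N * (1 / 2 ^ (P + N + 1) + 1 / 2 ^ (P + N + 1)) :=
        mul_le_mul_of_nonneg_left (add_le_add a1 a2) (by positivity)
    _ = 1 / 2 ^ P := by
        rw [pow_succ, pow_add]
        field_simp
        norm_num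

theorem comp_exp {ℓ e₁ e₂ e : ℕ} (hℓ : (m : ℝ) + 1 ≤ 2 ^ ℓ) (h : ℓ + e₁ + e₂ + 1 ≤ e) :
    ((m : ℝ) + 1) * 2 ^ e₁ * (2 ^ e₂ + 1) ≤ 2 ^ e := by
  have a1 : (1 : ℝ) ≤ 2 ^ e₂ := one_le_pow₀ (by norm_num)
  have a2 : (2 : ℝ) ^ e₂ + 1 ≤ 2 * 2 ^ e₂ := by linarith only [a1]
  calc ((m : ℝ) + 1) * 2 ^ e₁ * (2 ^ e₂ + 1) ≤ 2 ^ ℓ * 2 ^ e₁ * (2 * 2 ^ e₂) :=
        mul_le_mul (mul_le_mul_of_nonneg_right hℓ (by positivity)) a2 (by positivity)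
          (by positivity)
    _ = 2 ^ (ℓ + e₁ + e₂ + 1) := by
        rw [pow_succ, pow_add, pow_add]
        ring
    _ ≤ 2 ^ e := pow_le_pow_right₀ (by norm_num) h

theorem comp_rad {ℓ e₂ ρ₁ ρ : ℕ} (hℓ : (m : ℝ) + 1 ≤ 2 ^ ℓ) (h : ℓ + e₂ + ρ₁ + 1 ≤ ρ) :
    ((m : ℝ) + 1) * 2 ^ e₂ / 2 ^ ρ ≤ 1 / 2 ^ (ρ₁ + 1) := by
  rw [div_le_div_iff₀ (by positivity) (by positivity), one_mul]
  calc ((m : ℝ) + 1) * 2 ^ e₂ * 2 ^ (ρ₁ + 1) ≤ 2 ^ ℓ * 2 ^ e₂ * 2 ^ (ρ₁ + 1) :=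
        mul_le_mul_of_nonneg_right (mul_le_mul_of_nonneg_right hℓ (by positivity)) (by positivity)
    _ = 2 ^ (ℓ + e₂ + ρ₁ + 1) := by
        rw [← pow_add, ← pow_add, add_assoc (ℓ + e₂)]
    _ ≤ 2 ^ ρ := pow_le_pow_right₀ (by norm_num) h

/-- The exponent of the loss of times. -/
theorem exp_le_two {C θ : ℝ} {N : ℕ} (h : C * (θ + 1) ≤ N * Real.log 2) :
    Real.exp (C * (θ + 1)) ≤ 2 ^ N := by
  have h1 : (2 : ℝ) ^ N = Real.exp (N * Real.log 2) := by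
    rw [mul_comm, Real.exp_mul, Real.exp_log (by norm_num), Real.rpow_natCast]
  rw [h1]
  exact Real.exp_le_exp.2 h

/-- The times of the sub-family of an event of the class. -/
theorem tmc_sub {S : PCl m} {C₀ : ℝ} (htm : TmC S C₀) {τ : ℝ} {F : Fam m J} {A : F.Ω → Prop}
    (hτ : 0 < τ) (hS : S.St τ J F A) (hA : 0 < Pe F.p A) :
    (Fam.sub F A hA).Tm (C₀ * τ * J) := by
  have h4 := (htm τ J F A hτ hS).2 (isLaw_cond F.isLaw hA)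
  unfold Fam.Tm at h4 ⊢
  refine h4.trans (le_of_eq ?_)
  exact (sub_CH F.T (fun ω => (F.l ω, F.Z ω))).symm

/-- **The numbers of compositions.** -/
theorem num_comp {S : PCl m} (hne : S.Ne) {C₀ : ℝ} (hC₀ : 0 ≤ C₀) (htm : TmC S C₀)
    {L : Finset (Fin m) → Fin m → ℝ → ℝ → ℝ} (hL : LamW S L) {I : Finset (Fin m)}
    {ι k : Fin m} {w' w r₁ r₂ r : ℝ} (hw' : w' < w) (hw0 : 0 < w) (hw1 : w ≤ 1) (hr0 : 0 ≤ r₁)
    (hr₁ : r₁ < r) (hr₂ : r₂ ≤ r) (hrL : r₁ < L I ι w' r₂) :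
    min (L (insert ι I) k w' r₁) (L I ι w' r₂) ≤ L I k w r := by
  classical
  by_contra hcon
  push Not at hcon
  obtain ⟨l, hl⟩ : ∃ l, l = L I k w r := ⟨_, rfl⟩
  obtain ⟨l₁, hl₁⟩ : ∃ l₁, l₁ = L (insert ι I) k w' r₁ := ⟨_, rfl⟩
  obtain ⟨l₂, hl₂⟩ : ∃ l₂, l₂ = L I ι w' r₂ := ⟨_, rfl⟩
  rw [← hl, ← hl₁, ← hl₂, lt_min_iff] at hcon
  obtain ⟨hcon1, hcon2⟩ := hcon
  rw [← hl₂] at hrL
  have hl11 : l₁ ≤ 1 := by rw [hl₁]; exact hL.le1 _ _ _ _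
  have hlw : w ≤ l := by rw [hl]; exact hL.low _ _ _ _ hw1
  obtain ⟨Λ, hΛ⟩ : ∃ Λ, Λ = min l₁ l₂ := ⟨_, rfl⟩
  have hΛ1 : Λ ≤ l₁ := by rw [hΛ]; exact min_le_left _ _
  have hΛ2 : Λ ≤ l₂ := by rw [hΛ]; exact min_le_right _ _
  have hlΛ : l < Λ := by rw [hΛ]; exact lt_min hcon1 hcon2
  obtain ⟨h, hh⟩ : ∃ h, h = (l + Λ) / 2 := ⟨_, rfl⟩
  obtain ⟨d, hd0, hd1, habs⟩ := hL.abs I k w r h (by rw [← hl, hh]; linarith only [hlΛ])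
    (by rw [hh]; linarith only [hlΛ, hΛ1, hl11])
  obtain ⟨e, he⟩ : ∃ e, e = min (min (d / 16) ((Λ - l) / 16)) (min ((r - r₁) / 16)
    ((l₂ - r₁) / 16)) := ⟨_, rfl⟩
  have he0 : 0 < e := by
    rw [he]
    exact lt_min (lt_min (by linarith only [hd0]) (by linarith only [hlΛ]))
      (lt_min (by linarith only [hr₁]) (by linarith only [hrL]))
  have e0 : e ≤ d / 16 ∧ e ≤ (Λ - l) / 16 ∧ e ≤ (r - r₁) / 16 ∧ e ≤ (l₂ - r₁) / 16 := by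
    have := he.le
    simp only [le_min_iff] at this
    tauto
  obtain ⟨e1, e2, e3, e4⟩ := e0
  obtain ⟨K₁, hK₁⟩ := hL.att (insert ι I) k w' w r₁ e hw0 hw1 hw' he0
  obtain ⟨K₂, hK₂⟩ := hL.att I ι w' w r₂ e hw0 hw1 hw' he0
  rw [← hl₁] at hK₁
  rw [← hl₂] at hK₂
  obtain ⟨K, hK⟩ : ∃ K, K = K₁ + K₂ + 1 := ⟨_, rfl⟩
  obtain ⟨C, hC, hcomp⟩ := comp_fam m K (by omega)
  obtain ⟨ℓ, hℓ⟩ : ∃ ℓ : ℕ, (m : ℝ) + 1 ≤ 2 ^ ℓ := by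
    obtain ⟨ℓ, hℓ⟩ := pow_unbounded_of_one_lt ((m : ℝ) + 1) (by norm_num : (1 : ℝ) < 2)
    exact ⟨ℓ, hℓ.le⟩
  obtain ⟨τ₁, hτ₁, J₁, b₁⟩ := hK₁
  obtain ⟨τ₂, hτ₂, J₂, b₂⟩ := hK₂
  obtain ⟨τ₃, hτ₃, J₃, b₃⟩ := habs d le_rfl (K * K)
  obtain ⟨τ, hτ⟩ : ∃ τ, τ = min (min τ₁ τ₂) (min (τ₃ / 2) (e / 4 / (C * (C₀ + 1)))) := ⟨_, rfl⟩
  have hD0 : 0 < C * (C₀ + 1) := by positivity
  have hτ0 : 0 < τ := by
    rw [hτ]
    exact lt_min (lt_min hτ₁ hτ₂) (lt_min (by linarith only [hτ₃]) (by positivity))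
  have t0 : τ ≤ τ₁ ∧ τ ≤ τ₂ ∧ τ ≤ τ₃ / 2 ∧ τ ≤ e / 4 / (C * (C₀ + 1)) := by
    have := hτ.le
    simp only [le_min_iff] at this
    tauto
  obtain ⟨t1, t2, t3, t4⟩ := t0
  rw [le_div_iff₀ hD0] at t4
  obtain ⟨J₄, hJ₄⟩ := exists_nat_ge (max (max (4 * C / e) (1 / τ)) ((ℓ + 20 : ℝ) / e))
  obtain ⟨J, hJ, F, A, hA⟩ := hne τ hτ0 (J₁ + J₂ + J₃ + J₄)
  have hJ0 : (0 : ℝ) ≤ J := Nat.cast_nonneg J
  have hJ4 : (J₄ : ℝ) ≤ J := by exact_mod_cast (by omega : J₄ ≤ J)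
  have j4 : 4 * C / e ≤ J ∧ 1 / τ ≤ J ∧ (ℓ + 20 : ℝ) / e ≤ J := by
    have := hJ₄.trans hJ4
    simp only [max_le_iff] at this
    tauto
  obtain ⟨q1, q2, q3⟩ := j4
  rw [div_le_iff₀ he0] at q1 q3
  rw [div_le_iff₀ hτ0] at q2
  have l2 := Real.log_two_gt_d9
  have l2' := Real.log_two_lt_d9
  have hA0 := (htm τ J F A hτ0 hA).1
  obtain ⟨θ, hθ⟩ : ∃ θ, θ = C₀ * τ * J := ⟨_, rfl⟩
  have hθ0 : 0 ≤ θ := by rw [hθ]; positivity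
  have hTm : (Fam.sub F A hA0).Tm θ := by
    rw [hθ]
    exact tmc_sub htm hτ0 hA hA0
  obtain ⟨N, hN⟩ : ∃ N, N = ⌊e * (J : ℝ)⌋₊ := ⟨_, rfl⟩
  have heJ : 20 ≤ e * (J : ℝ) := by
    have : (0 : ℝ) ≤ ℓ := Nat.cast_nonneg ℓ
    linarith only [q3, this]
  have hN1 : e * (J : ℝ) - 1 < N := by rw [hN]; exact Nat.sub_one_lt_floor _
  have hN2 : (N : ℝ) ≤ e * J := by rw [hN]; exact Nat.floor_le (by positivity)
  have hCθ : C * (θ + 1) ≤ e * J / 2 := by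
    have h1 : C * C₀ * τ * J ≤ e / 4 * J := by
      refine mul_le_mul_of_nonneg_right ?_ hJ0
      have : 0 ≤ C * τ := by positivity
      linarith only [t4, this]
    rw [hθ]
    linarith only [h1, q1]
  have hCN : C * (θ + 1) ≤ N * Real.log 2 := by
    have h1 : (N : ℝ) * 0.69 ≤ N * Real.log 2 :=
      mul_le_mul_of_nonneg_left (by linarith only [l2]) (Nat.cast_nonneg N)
    linarith only [hCθ, h1, hN1, heJ]
  have hwJ : (⌊w * (J : ℝ)⌋₊ : ℝ) ≤ w * J := Nat.floor_le (by positivity)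
  have hwJ' : ⌊w * (J : ℝ)⌋₊ ≤ J := by
    refine Nat.floor_le_of_le ?_
    exact mul_le_of_le_one_left hJ0 hw1
  have hCJ : C * (θ + 1) ≤ ((J : ℝ) - ⌊w * (J : ℝ)⌋₊) * Real.log 2 := by
    refine hCN.trans (mul_le_mul_of_nonneg_right ?_ (by linarith only [l2]))
    have h1 : (w + d) * (J : ℝ) ≤ 1 * J := mul_le_mul_of_nonneg_right hd1 hJ0
    have h2 : e * (J : ℝ) ≤ d / 16 * J := mul_le_mul_of_nonneg_right e1 hJ0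
    have h3 : 0 ≤ d * (J : ℝ) := by positivity
    linarith only [h1, h2, h3, hwJ, hN2]
  -- the labels
  have hr1J : r₁ + e ≤ r := by linarith only [e3, hr₁]
  have g1 := b₁ J (by omega) F A (S.mono t1 hA)
  have g2 := b₂ J (by omega) F A (S.mono t2 hA)
  obtain ⟨V₁, z₁, z₁', G₁, h₁⟩ := Lb.mono g1 (Finset.Subset.refl _) (by omega : K₁ ≤ K) le_rfl
    le_rfl le_rfl hwJ' le_rfl le_rfl
  obtain ⟨V₂, z₂, z₂', G₂, h₂⟩ := Lb.mono g2 (Finset.Subset.refl _) (by omega : K₂ ≤ K) le_rfl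
    le_rfl le_rfl hwJ' le_rfl le_rfl
  have f1 : (⌊(r₁ + e) * (J : ℝ)⌋₊ : ℝ) ≤ (r₁ + e) * J :=
    Nat.floor_le (mul_nonneg (by linarith only [hr0, he0]) hJ0)
  have f2 : (l₂ - e) * (J : ℝ) - 1 < ⌊(l₂ - e) * (J : ℝ)⌋₊ := Nat.sub_one_lt_floor _
  have f3 : (l₁ - e) * (J : ℝ) - 1 < ⌊(l₁ - e) * (J : ℝ)⌋₊ := Nat.sub_one_lt_floor _
  have f4 : (r + d) * (J : ℝ) - 1 < ⌊(r + d) * (J : ℝ)⌋₊ := Nat.sub_one_lt_floor _
  have f5 : d * (J : ℝ) - 1 < ⌊d * (J : ℝ)⌋₊ := Nat.sub_one_lt_floor _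
  have h0 : 0 ≤ h := by rw [hh]; linarith only [hlw, hw0, hlΛ]
  have f6 : (⌊h * (J : ℝ)⌋₊ : ℝ) ≤ h * J := Nat.floor_le (mul_nonneg h0 hJ0)
  have k1 : e * (J : ℝ) ≤ d / 16 * J := mul_le_mul_of_nonneg_right e1 hJ0
  have k2 : e * (J : ℝ) ≤ (Λ - l) / 16 * J := mul_le_mul_of_nonneg_right e2 hJ0
  have k3 : e * (J : ℝ) ≤ (r - r₁) / 16 * J := mul_le_mul_of_nonneg_right e3 hJ0
  have k4 : e * (J : ℝ) ≤ (l₂ - r₁) / 16 * J := mul_le_mul_of_nonneg_right e4 hJ0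
  have k5 : Λ * (J : ℝ) ≤ l₁ * J := mul_le_mul_of_nonneg_right hΛ1 hJ0
  have k6 : Λ * (J : ℝ) ≤ l₂ * J := mul_le_mul_of_nonneg_right hΛ2 hJ0
  have k7 : h * (J : ℝ) = (l * J + Λ * J) / 2 := by rw [hh]; ring
  have hℓJ : (ℓ : ℝ) + 20 ≤ e * J := by linarith only [q3]
  obtain ⟨B, hBA, hPB, hB⟩ := hcomp F A hA0 h₁ h₂ (c := 2 ^ ⌊e * (J : ℝ)⌋₊) (by positivity)
    (fun ω hω b hb => h₁.lip ω hω b hb _) hwJ' hθ0 hTm hCJ (by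
      rw [← Nat.cast_le (α := ℝ)]
      push_cast
      linarith only [f1, f2, k4, heJ]) (e := ⌊d * (J : ℝ)⌋₊) (ρ := ⌊(r + d) * (J : ℝ)⌋₊)
    (P := ⌊h * (J : ℝ)⌋₊) (comp_exp hℓ (by
      rw [← hN, ← Nat.cast_le (α := ℝ)]
      push_cast
      linarith only [f5, hN2, k1, hℓJ])) (Nat.floor_le_floor (mul_le_mul_of_nonneg_right
        (by linarith only [hr1J, hd0]) hJ0)) (Nat.floor_le_floor (mul_le_mul_of_nonneg_right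
        (by linarith only [hr₂, e1, hd0]) hJ0)) (comp_rad hℓ (by
      rw [← Nat.cast_le (α := ℝ)]
      push_cast
      rw [← hN]
      have : 0 ≤ d * (J : ℝ) := by positivity
      linarith only [f1, f4, hN2, k1, k3, hℓJ, this])) (comp_err (exp_le_two hCN) (by
      rw [← Nat.cast_le (α := ℝ)]
      push_cast
      linarith only [f3, f6, k7, k5, k2, hN2, heJ]) (by
      rw [← Nat.cast_le (α := ℝ), ← hN]
      push_cast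
      linarith only [f2, f6, k7, k6, k2, hN2, heJ]))
  have hBS : S.St (2 * τ) J F B := res_of (C := 2) hτ0.le hA hBA (by norm_num) (by
    linarith only [l2', q2]) (by linarith only [hPB])
  refine b₃ J (by omega) F B (S.mono (by linarith only [t3]) hBS) ?_
  refine Lb.mono hB (Finset.Subset.refl _) le_rfl le_rfl le_rfl ?_ ?_ le_rfl le_rfl
  · exact Nat.floor_le_floor (mul_le_mul_of_nonneg_right (by linarith only [hd0]) hJ0)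
  · refine Nat.floor_le_of_le ?_
    exact mul_le_of_le_one_left hJ0 hd1

end Pool.P62
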